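import Pool.Agent.Lib.MP_6216ea_lc.SN.Sem

/-! The claims for brackets, calls and passes, and the proof for calls. -/

set_option autoImplicit false

namespace Pool.Agent.MP_6216ea_lc

namespace SN

open Function

variable {Md F : Type} [AddCommGroup Md] [AddCommGroup F]

/-- The fingerprints emptied by a bracket of level `i`. -/
def ZB (i κ : ℕ) : Prop := κ / 7 < i ∨ (κ / 7 = i ∧ κ % 7 < 6)

instance (i : ℕ) : DecidablePred (ZB i) := fun κ =>
  inferInstanceAs (Decidable (κ / 7 < i ∨ (κ / 7 = i ∧ κ % 7 < 6)))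

/-- The fingerprints emptied by the passes from item `6 - n` on. -/
def ZN (i n κ : ℕ) : Prop := κ / 7 < i + 1 ∨ (κ / 7 = i + 1 ∧ 6 - n ≤ κ % 7 ∧ κ % 7 < 6)

instance (i n : ℕ) : DecidablePred (ZN i n) := fun κ =>
  inferInstanceAs (Decidable (κ / 7 < i + 1 ∨ (κ / 7 = i + 1 ∧ 6 - n ≤ κ % 7 ∧ κ % 7 < 6)))

/-- The answers `j, …, j + n - 1` are added to the answers `a`. -/
def fill (O : DU.One) (L : ℕ) (A : ℕ → ℕ) (q : ℕ) : ℕ → (ℕ → ℕ) → ℕ → ℕ → ℕ
  | _, a, 0 => a
  | j, a, n + 1 => fill O L A q (j + 1) (update a j (A (O.h L q j a))) n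

/-- The value of level `L + 1` when the first `6 - n` answers are given by `Y`. -/
def vl (O : DU.One) (L : ℕ) (A : ℕ → ℕ) (n : ℕ) (Y : ℕ → ℕ) : ℕ :=
  O.e L (Y 6) (fill O L A (Y 6) (6 - n) (trunc (6 - n) Y) n)

theorem trunc_update (j a : ℕ) (Y : ℕ → ℕ) :
    trunc (j + 1) (update Y j a) = update (trunc j Y) j a := by
  funext k
  unfold trunc
  by_cases hk : k = j
  · subst hk
    rw [update_self, update_self, if_pos (by omega)]
  · rw [update_of_ne hk, update_of_ne hk]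
    by_cases h : k < j
    · rw [if_pos h, if_pos (by omega)]
    · rw [if_neg h, if_neg (by omega)]

theorem vl_succ (O : DU.One) (L : ℕ) (A : ℕ → ℕ) (n : ℕ) (hn : n + 1 ≤ 6) (Y : ℕ → ℕ) :
    vl O L A n (update Y (6 - (n + 1)) (A (wq O L (6 - (n + 1)) Y))) = vl O L A (n + 1) Y := by
  obtain ⟨j, hj⟩ : ∃ j, j = 6 - (n + 1) := ⟨_, rfl⟩
  have hjn : 6 - n = j + 1 := by omega
  unfold vl
  rw [← hj, hjn, trunc_update, update_of_ne (show 6 ≠ j by omega)]
  rfl

variable {N : ℕ} (G : FP Md F N 25) (P : Pr) (A : ℕ → ℕ → ℕ) (ci : ℕ)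

/-- The additions of a bracket of level `i`. -/
def δB (i z κ : ℕ) : Md := if κ / 7 = i ∧ κ % 7 = 6 then cnt i • G.t z else 0

/-- The additions of the passes from item `6 - n` on. -/
def δN (i n : ℕ) (Y : ℕ → ℕ) (κ : ℕ) : Md :=
  if κ / 7 = i + 1 ∧ InS (6 - n) (κ % 7) then (4 * n + 1) • G.t (Y (κ % 7)) else 0

/-- The additions of a call. -/
def δC (i j : ℕ) (Y : ℕ → ℕ) (κ : ℕ) : Md :=
  if κ / 7 = i + 1 ∧ InS j (κ % 7) then 2 • G.t (Y (κ % 7)) else 0

/-- The claims for a bracket `R` of level `i`, with `n` guesses; `gl z` are the honest guesses. -/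
structure BrOK (i : ℕ) (h : Hk) (n : ℕ) (R : St Md F → List ℕ → St Md F → Prop)
    (gl : ℕ → List ℕ) : Prop where
  len : ∀ s gs t, R s gs t → gs.length = n
  glen : ∀ z, (gl z).length = n
  str : ∀ s gs t, Zl ci s → R s gs t →
    (∀ c', c' ≠ ci → t.fr c' = s.fr c') ∧ (t.fr ci).q = (s.fr ci).q ∧
    (∀ κ, i < κ / 7 → ¬ At κ h → t.r κ = s.r κ ∧ (t.fr ci).φ κ = (s.fr ci).φ κ) ∧
    ∃ l : List ℕ, l.length = cnt i ∧ (∀ y ∈ l, y < N) ∧
      t.r (7 * i + 6) = s.r (7 * i + 6) + (l.map G.t).sum ∧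
      (t.fr ci).φ (7 * i + 6) = (s.fr ci).φ (7 * i + 6) ∧
      ∀ z < N, (∀ y ∈ l, y = z) → gs = gl z
  exa : ∀ s t, Zl ci s → ∀ z < N, (R s (gl z) t ↔
    HC G h (A i z) s.r (s.fr ci).φ ∧ t = Hon G ci h (A i z) (ZB i) (δB G i z) s)

/-- The claims for a call. -/
structure CallOK (i j : ℕ) (h : Hk) (n : ℕ) (R : St Md F → List ℕ → St Md F → Prop)
    (gl : (ℕ → ℕ) → List ℕ) : Prop where
  len : ∀ s gs t, R s gs t → gs.length = n
  glen : ∀ Y, (gl Y).length = n
  str : ∀ s gs t, Zl ci s → R s gs t →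
    (∀ c', c' ≠ ci → t.fr c' = s.fr c') ∧ (t.fr ci).q = (s.fr ci).q ∧
    (∀ κ, i + 1 < κ / 7 → t.r κ = s.r κ ∧ (t.fr ci).φ κ = (s.fr ci).φ κ) ∧
    ∃ Y₁ Y₂ : ℕ → ℕ, (∀ k, Y₁ k < N ∧ Y₂ k < N) ∧
      (∀ κ, κ / 7 = i + 1 → InS j (κ % 7) →
        t.r κ = s.r κ + (G.t (Y₁ (κ % 7)) + G.t (Y₂ (κ % 7))) ∧
          (t.fr ci).φ κ = (s.fr ci).φ κ) ∧
      ∀ Y₀ : ℕ → ℕ, (∀ k, Y₀ k < N) → (∀ k, InS j k → Y₁ k = Y₀ k ∧ Y₂ k = Y₀ k) → gs = gl Y₀
  exa : ∀ s t, Zl ci s → ∀ Y₀ : ℕ → ℕ, (∀ k, Y₀ k < N) → (R s (gl Y₀) t ↔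
    HC G h (A i (wq P.O (P.b * (ci - 1) + i) j Y₀)) s.r (s.fr ci).φ ∧
    t = Hon G ci h (A i (wq P.O (P.b * (ci - 1) + i) j Y₀)) (fun κ => κ / 7 < i + 1)
      (δC G i j Y₀) s)

/-- The claims for the passes from item `6 - n` on. -/
structure NOK (i : ℕ) (h : Hk) (n m : ℕ) (R : St Md F → List ℕ → St Md F → Prop)
    (gl : (ℕ → ℕ) → List ℕ) : Prop where
  len : ∀ s gs t, R s gs t → gs.length = m
  glen : ∀ Y, (gl Y).length = m
  str : ∀ s gs t, Zl ci s → R s gs t →
    (∀ c', c' ≠ ci → t.fr c' = s.fr c') ∧ (t.fr ci).q = (s.fr ci).q ∧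
    (∀ κ, i + 1 < κ / 7 → ¬ At κ h → t.r κ = s.r κ ∧ (t.fr ci).φ κ = (s.fr ci).φ κ) ∧
    ∃ LY : List (ℕ → ℕ), LY.length = 4 * n + 1 ∧ (∀ Y ∈ LY, ∀ k, Y k < N) ∧
      (∀ κ, κ / 7 = i + 1 → InS (6 - n) (κ % 7) →
        t.r κ = s.r κ + (LY.map fun Y => G.t (Y (κ % 7))).sum ∧
          (t.fr ci).φ κ = (s.fr ci).φ κ) ∧
      ∀ Y₀ : ℕ → ℕ, (∀ k, Y₀ k < N) → (∀ Y ∈ LY, ∀ k, InS (6 - n) k → Y k = Y₀ k) → gs = gl Y₀
  exa : ∀ s t, Zl ci s → ∀ Y₀ : ℕ → ℕ, (∀ k, Y₀ k < N) → (R s (gl Y₀) t ↔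
    HC G h (vl P.O (P.b * (ci - 1) + i) (A i) n Y₀) s.r (s.fr ci).φ ∧
    t = Hon G ci h (vl P.O (P.b * (ci - 1) + i) (A i) n Y₀) (ZN i n) (δN G i n Y₀) s)

variable {G P A ci}

/-- The relation of a call. -/
def callR (G : FP Md F N 25) (P : Pr) (ci i j l : ℕ) (R : St Md F → List ℕ → St Md F → Prop) :
    St Md F → List ℕ → St Md F → Prop :=
  sq (pr G P l (3, ci, i, 0, j)) (sq R (pr G P l (4, ci, i, 0, j)))

/-- The honest guesses of a call. -/
def callG (P : Pr) (ci i j l : ℕ) (gl : ℕ → List ℕ) (Y : ℕ → ℕ) : List ℕ :=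
  pg l (cod P.N j Y) ++ (gl (wq P.O (P.b * (ci - 1) + i) j Y) ++ pg l (cod P.N j Y))

omit [AddCommGroup Md] in
theorem Zl_of {s t : St Md F} (hs : Zl ci s) (h : ∀ c', c' ≠ ci → t.fr c' = s.fr c') :
    Zl ci t := fun c' hc => by rw [h c' (by omega), hs c' hc]

theorem call_ok (hP : P.Ok) (hN : P.N = N) {i j l n : ℕ} {h : Hk}
    {R : St Md F → List ℕ → St Md F → Prop} {gl : ℕ → List ℕ} (hj : j < 6)
    (hat : ∀ κ, At κ h → κ = 7 * (i + 1) + j) (hL : BrOK G A ci i h n R gl) :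
    CallOK G P A ci i j h (39 ^ l + (n + 39 ^ l)) (callR G P ci i j l R)
      (callG P ci i j l gl) := by
  subst hN
  have hN0 := hP.N_pos
  have hjS : ¬ InS j j := by
    rintro (h1 | h1) <;> omega
  refine ⟨fun s gs t hr => sq_len (pr_len G P l _) (sq_len hL.len (pr_len G P l _)) _ _ _ hr,
    fun Y => ?_, fun s gs t hZ hr => ?_, fun s t hZ Y₀ hY₀ => ?_⟩
  · unfold callG
    rw [List.length_append, List.length_append, pg_length, hL.glen]
  · obtain ⟨s₁, g₁, g', rfl, ⟨x₁, rfl, h1⟩, s₂, g₂, g₃, rfl, h2, ⟨x₃, rfl, h3⟩⟩ := hr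
    rw [act_begin] at h1
    rw [act_end] at h3
    obtain ⟨k1, e1⟩ := h1
    obtain ⟨k3, hchk, e3⟩ := h3
    have f0 : ∀ c', c' ≠ ci → s₁.fr c' = s.fr c' := fun c' hc => by rw [e1]; exact update_of_ne hc _ _
    have f1 : ∀ κ, (s₁.fr ci).φ κ = if κ = 7 * i + 6 then
        G.χ (wq P.O (P.b * (ci - 1) + i) j (dec P.N x₁)) (s.r κ) else (s.fr ci).φ κ := by
      intro κ; rw [e1]; simp only [update_self]
    have f2 : ∀ κ, s₁.r κ = useR G (i + 1) j (dec P.N x₁) s.r κ := by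
      intro κ; rw [e1]
    have f3 : (s₁.fr ci).q = (s.fr ci).q := by rw [e1]; simp only [update_self]
    obtain ⟨b1, b2, b3, l', b4, b4', b5, b5', b6⟩ := hL.str s₁ g₂ s₂ (Zl_of hZ f0) h2
    have t0 : ∀ c', c' ≠ ci → t.fr c' = s₂.fr c' := fun c' hc => by rw [e3]; exact update_of_ne hc _ _
    have t1 : ∀ κ, (t.fr ci).φ κ = if κ = 7 * i + 6 then 0 else (s₂.fr ci).φ κ := by
      intro κ; rw [e3]; simp only [update_self]
    have t2 : ∀ κ, t.r κ = if κ = 7 * i + 6 then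
        s₂.r κ - cnt i • G.t (wq P.O (P.b * (ci - 1) + i) j (dec P.N x₃))
        else useR G (i + 1) j (dec P.N x₃) s₂.r κ := by
      intro κ; rw [e3]
    have t3 : (t.fr ci).q = (s₂.fr ci).q := by rw [e3]; simp only [update_self]
    refine ⟨fun c' hc => by rw [t0 c' hc, b1 c' hc, f0 c' hc], by rw [t3, b2, f3], ?_,
      dec P.N x₁, dec P.N x₃, fun k => ⟨dec_lt hN0 _ _, dec_lt hN0 _ _⟩, ?_, ?_⟩
    · intro κ hκ
      have hA : ¬ At κ h := fun h' => by have := hat κ h'; omega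
      obtain ⟨c1, c2⟩ := b3 κ (by omega) hA
      have g1 : ¬ (κ = 7 * i + 6) := fun h' => by omega
      have g2 : ¬ (κ / 7 = i + 1 ∧ InS j (κ % 7)) := fun h' => by omega
      rw [t1, t2, if_neg g1, if_neg g1, c2, f1, if_neg g1]
      unfold useR
      rw [if_neg g2, c1, f2]
      unfold useR
      rw [if_neg g2]
      exact ⟨rfl, rfl⟩
    · intro κ hκ hS
      have hA : ¬ At κ h := fun h' => by
        have h2 := hat κ h'
        have h3 : κ % 7 = j := by omega
        rw [h3] at hS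
        exact hjS hS
      obtain ⟨c1, c2⟩ := b3 κ (by omega) hA
      have g1 : ¬ (κ = 7 * i + 6) := fun h' => by omega
      rw [t1, t2, if_neg g1, if_neg g1, c2, f1, if_neg g1]
      unfold useR
      rw [if_pos ⟨hκ, hS⟩, c1, f2]
      unfold useR
      rw [if_pos ⟨hκ, hS⟩, add_assoc]
      exact ⟨rfl, rfl⟩
    · intro Y₀ hY₀ hY
      have w1 := wq_congr (O := P.O) (L := P.b * (ci - 1) + i) fun k hk => (hY k hk).1
      have w2 := wq_congr (O := P.O) (L := P.b * (ci - 1) + i) fun k hk => (hY k hk).2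
      have x1 := cod_eq k1 fun k hk => (hY k hk).1
      have x3 := cod_eq k3 fun k hk => (hY k hk).2
      rw [w1] at f1
      rw [w2] at hchk
      have hall : ∀ y ∈ l', y = wq P.O (P.b * (ci - 1) + i) j Y₀ := by
        have hcnt : cnt i ≤ 25 := by
          unfold cnt
          split_ifs <;> norm_num
        apply G.multi _ (hP.h_lt _ _ _ _) l' b4' (by rw [b4]; exact hcnt)
        have h4 := f1 (7 * i + 6)
        rw [if_pos rfl] at h4
        have h5 : s₁.r (7 * i + 6) = s.r (7 * i + 6) := by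
          rw [f2]
          unfold useR
          rw [if_neg fun h' => by omega]
        rw [b5', h4, b5, h5, map_sub, map_add] at hchk
        rw [b4]
        rw [sub_eq_iff_eq_add] at hchk
        exact add_left_cancel hchk
      have x2 := b6 _ (hP.h_lt _ _ _ _) hall
      rw [x1, x2, x3]
      rfl
  · obtain ⟨w, hwq⟩ : ∃ w, w = wq P.O (P.b * (ci - 1) + i) j Y₀ := ⟨_, rfl⟩
    obtain ⟨V, hV⟩ : ∃ V, V = A i w := ⟨_, rfl⟩
    have hw : w < P.N := by rw [hwq]; exact hP.h_lt _ _ _ _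
    have hdec : ∀ k, InS j k → dec P.N (cod P.N j Y₀) k = Y₀ k := fun k hk =>
      dec_cod hN0 hY₀ (by omega) hk
    have hwd : wq P.O (P.b * (ci - 1) + i) j (dec P.N (cod P.N j Y₀)) = w := by
      rw [hwq]
      exact wq_congr hdec
    have huse : ∀ r : ℕ → Md, useR G (i + 1) j (dec P.N (cod P.N j Y₀)) r =
        useR G (i + 1) j Y₀ r := by
      intro r
      funext κ
      unfold useR
      by_cases hκ : κ / 7 = i + 1 ∧ InS j (κ % 7)
      · rw [if_pos hκ, if_pos hκ, hdec _ hκ.2]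
      · rw [if_neg hκ, if_neg hκ]
    unfold callR callG
    rw [← hwq, ← hV, sq_split (pr_len G P l _) (pg_length _ _)]
    obtain ⟨s₁, hs₁⟩ : ∃ s₁ : St Md F, s₁ = ⟨0, update s.fr ci ⟨(s.fr ci).q, (s.fr ci).a,
      fun κ => if κ = 7 * i + 6 then G.χ w (s.r κ) else (s.fr ci).φ κ⟩,
      useR G (i + 1) j Y₀ s.r⟩ := ⟨_, rfl⟩
    have f0 : ∀ c', c' ≠ ci → s₁.fr c' = s.fr c' := fun c' hc => by rw [hs₁]; exact update_of_ne hc _ _
    have f1 : ∀ κ, (s₁.fr ci).φ κ = if κ = 7 * i + 6 then G.χ w (s.r κ) else (s.fr ci).φ κ := by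
      intro κ; rw [hs₁]; simp only [update_self]
    have f2 : ∀ κ, s₁.r κ = useR G (i + 1) j Y₀ s.r κ := by
      intro κ; rw [hs₁]
    have hloc : ∀ κ, At κ h → s₁.r κ = s.r κ ∧ (s₁.fr ci).φ κ = (s.fr ci).φ κ := by
      intro κ hκ
      have h1 := hat κ hκ
      have h2 : κ % 7 = j := by omega
      rw [f1, f2, if_neg fun h' => by omega]
      unfold useR
      rw [if_neg fun h' => hjS (by have h3 := h'.2; rwa [h2] at h3)]
      exact ⟨rfl, rfl⟩
    have st1 : ∀ u, pr G P l (3, ci, i, 0, j) s (pg l (cod P.N j Y₀)) u ↔ u = s₁ := by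
      intro u
      rw [pr_pg, act_begin, hwd, huse, ← hs₁]
      exact and_iff_right (can_cod hN0 hY₀)
    obtain ⟨s₂, hs₂⟩ : ∃ s₂ : St Md F, s₂ = Hon G ci h V (ZB i) (δB G i w) s₁ := ⟨_, rfl⟩
    have st2 : ∀ u, R s₁ (gl w) u ↔ HC G h V s.r (s.fr ci).φ ∧ u = s₂ := by
      intro u
      rw [hL.exa s₁ u (Zl_of hZ f0) w hw, ← hV, ← hs₂, HC_congr G h V hloc]
    have g0 : ∀ c', c' ≠ ci → s₂.fr c' = s.fr c' := fun c' hc => by
      rw [hs₂]; exact (update_of_ne hc _ _).trans (f0 c' hc)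
    have g1 : ∀ κ, (s₂.fr ci).φ κ = if ZB i κ then 0
        else hφ G h V κ (s₁.r κ) ((s₁.fr ci).φ κ) := by
      intro κ; rw [hs₂]; unfold Hon; simp only [update_self]
    have g2 : ∀ κ, s₂.r κ = hr G h V κ (s₁.r κ) + δB G i w κ := by
      intro κ; rw [hs₂]; rfl
    have g3 : (s₂.fr ci).q = (s.fr ci).q := by
      rw [hs₂, hs₁]; unfold Hon; simp only [update_self]
    have g4 : (s₂.fr ci).a = ha h V (s.fr ci).a := by
      rw [hs₂, hs₁]; unfold Hon; simp only [update_self]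
    have hAM : ¬ At (7 * i + 6) h := fun h' => by have := hat _ h'; omega
    have st3 : ∀ u, pr G P l (4, ci, i, 0, j) s₂ (pg l (cod P.N j Y₀)) u ↔
        u = Hon G ci h V (fun κ => κ / 7 < i + 1) (δC G i j Y₀) s := by
      intro u
      rw [pr_pg, act_end, hwd, huse]
      have hchk : G.χ w (s₂.r (7 * i + 6) - cnt i • G.t w) = (s₂.fr ci).φ (7 * i + 6) := by
        rw [g1, g2, if_neg (by unfold ZB; omega), hφ_off G hAM, hr_off G hAM, f1, f2,
          if_pos rfl]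
        unfold useR δB
        rw [if_neg fun h' => by omega, if_pos (by omega), add_sub_cancel_right]
      have key : (⟨0, update s₂.fr ci ⟨(s₂.fr ci).q, (s₂.fr ci).a,
            fun κ => if κ = 7 * i + 6 then 0 else (s₂.fr ci).φ κ⟩,
          fun κ => if κ = 7 * i + 6 then s₂.r κ - cnt i • G.t w
            else useR G (i + 1) j Y₀ s₂.r κ⟩ : St Md F) =
          Hon G ci h V (fun κ => κ / 7 < i + 1) (δC G i j Y₀) s := by
        unfold Hon
        apply St.ext
        · rfl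
        · funext c'
          change update s₂.fr ci _ c' = update s.fr ci _ c'
          by_cases hc : c' = ci
          · subst hc
            rw [update_self, update_self]
            apply Fr.ext
            · exact g3
            · exact g4
            · funext κ
              change (if κ = 7 * i + 6 then 0 else (s₂.fr c').φ κ) =
                (if κ / 7 < i + 1 then 0 else hφ G h V κ (s.r κ) ((s.fr c').φ κ))
              by_cases hM : κ = 7 * i + 6
              · rw [if_pos hM, if_pos (by omega)]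
              · rw [if_neg hM, g1]
                by_cases hlt : κ / 7 < i + 1
                · rw [if_pos hlt, if_pos (by unfold ZB; omega)]
                · rw [if_neg hlt, if_neg (by unfold ZB; omega)]
                  by_cases hκ : At κ h
                  · rw [(hloc κ hκ).1, (hloc κ hκ).2]
                  · rw [hφ_off G hκ, hφ_off G hκ, f1, if_neg hM]
          · rw [update_of_ne hc, update_of_ne hc]
            exact g0 c' hc
        · funext κ
          change (if κ = 7 * i + 6 then s₂.r κ - cnt i • G.t w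
            else useR G (i + 1) j Y₀ s₂.r κ) = hr G h V κ (s.r κ) + δC G i j Y₀ κ
          by_cases hM : κ = 7 * i + 6
          · have hA : ¬ At κ h := by rw [hM]; exact hAM
            rw [if_pos hM, g2, hr_off G hA, hr_off G hA, f2]
            unfold useR δB δC
            have h1 : ¬ (κ / 7 = i + 1 ∧ InS j (κ % 7)) := fun h' => by omega
            have h2 : κ / 7 = i ∧ κ % 7 = 6 := by omega
            rw [if_neg h1, if_pos h2, if_neg h1, add_sub_cancel_right, add_zero]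
          · rw [if_neg hM]
            unfold useR
            rw [g2, f2]
            unfold useR δB δC
            rw [if_neg (show ¬ (κ / 7 = i ∧ κ % 7 = 6) by omega)]
            by_cases hS : κ / 7 = i + 1 ∧ InS j (κ % 7)
            · have hA : ¬ At κ h := fun h' => by
                have h2 := hat κ h'
                have h4 : κ % 7 = j := by omega
                have h3 := hS.2
                rw [h4] at h3
                exact hjS h3
              rw [if_pos hS, if_pos hS, if_pos hS, hr_off G hA, hr_off G hA, add_zero,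
                two_nsmul, add_assoc]
            · rw [if_neg hS, if_neg hS, if_neg hS]
      rw [key]
      constructor
      · rintro ⟨-, -, h3⟩
        exact h3
      · intro h3
        exact ⟨can_cod hN0 hY₀, hchk, h3⟩
    constructor
    · rintro ⟨u, h1, h2⟩
      rw [st1] at h1
      subst h1
      rw [sq_split hL.len (hL.glen _)] at h2
      obtain ⟨v, h3, h4⟩ := h2
      rw [st2] at h3
      obtain ⟨h5, rfl⟩ := h3
      exact ⟨h5, (st3 t).1 h4⟩
    · rintro ⟨h1, h2⟩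
      refine ⟨s₁, (st1 _).2 rfl, ?_⟩
      rw [sq_split hL.len (hL.glen _)]
      exact ⟨s₂, (st2 _).2 ⟨h1, rfl⟩, (st3 t).2 h2⟩

end SN

end Pool.Agent.MP_6216ea_lc
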