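import Pool.Agent.Lib.MP_6216ea_lc.SN.Lnk
import Pool.Agent.Lib.MP_6216ea_lc.DUAlg

/-! The numeric machine is computable. -/

set_option autoImplicit false
set_option linter.unreachableTactic false
set_option linter.unusedTactic false

namespace Pool.Agent.MP_6216ea_lc

namespace SN

open SP

variable {α : Type} {K : List α → ℕ} {σ τ : Type} [Tup σ] [Tup τ]

/-- Computable parameters. -/
structure MpC (K : List α → ℕ) (M : List α → Mp) : Prop where
  p : Comp K fun x (_ : Unit) => (M x).p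
  e : Comp K fun x (_ : Unit) => (M x).e
  D : Comp K fun x (_ : Unit) => (M x).D
  g : Comp K fun x (_ : Unit) => (M x).g
  b : Comp K fun x (_ : Unit) => (M x).pr.b
  N : Comp K fun x (_ : Unit) => (M x).pr.N
  hw : Comp K fun x (v : ℕ × ℕ × ℕ) => wq (M x).pr.O v.1 v.2.1 (dec (M x).pr.N v.2.2)
  he : Comp K fun x (v : ℕ × ℕ) => (M x).pr.O.e v.1 (dec (M x).pr.N v.2 6)
    (trunc 6 (dec (M x).pr.N v.2))
  hb : Comp K fun x (v : ℕ) => (M x).pr.base v
  bN : Bd K fun x (_ : Unit) => (M x).pr.N ^ ((M x).g + 1)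
  bF : Bd K fun x (_ : Unit) => (M x).p ^ (7 * ((M x).pr.b + 1) * ((M x).g + 1))
  bR : Bd K fun x (_ : Unit) => (M x).p ^ (7 * ((M x).pr.b + 1) * ((M x).D + 1))

/-- Computable elementary steps. -/
structure OpC (K : List α → ℕ) (o : List α → σ → Op) : Prop where
  ks : Comp K fun x w => (o x w).ks
  kc : Comp K fun x w => (o x w).kc
  m : Comp K fun x w => (o x w).m
  lu : Comp K fun x w => (o x w).lu
  ju : Comp K fun x w => (o x w).ju
  z : Comp K fun x w => (o x w).z
  w : Comp K fun x w => (o x w).w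
  cc : Comp K fun x w => (o x w).cc
  qq : Comp K fun x w => (o x w).qq
  aa : Comp K fun x w => (o x w).aa

theorem OpC.comp {o : List α → τ → Op} (h : OpC K o) {f : List α → σ → τ} (hf : Comp K f) :
    OpC K fun x w => o x (f x w) where
  ks := Comp.comp (g := fun x w => (o x w).ks) h.ks hf
  kc := Comp.comp (g := fun x w => (o x w).kc) h.kc hf
  m := Comp.comp (g := fun x w => (o x w).m) h.m hf
  lu := Comp.comp (g := fun x w => (o x w).lu) h.lu hf
  ju := Comp.comp (g := fun x w => (o x w).ju) h.ju hf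
  z := Comp.comp (g := fun x w => (o x w).z) h.z hf
  w := Comp.comp (g := fun x w => (o x w).w) h.w hf
  cc := Comp.comp (g := fun x w => (o x w).cc) h.cc hf
  qq := Comp.comp (g := fun x w => (o x w).qq) h.qq hf
  aa := Comp.comp (g := fun x w => (o x w).aa) h.aa hf

/-- Constants of the input in any context. -/
theorem up {f : List α → ℕ} (h : Comp K fun x (_ : Unit) => f x) : Comp K fun x (_ : σ) => f x :=
  Comp.comp (g := fun x (_ : Unit) => f x) h (Comp.const ())

theorem comp_dgt {b f i : List α → σ → ℕ} (hb : Comp K b) (hf : Comp K f) (hi : Comp K i) :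
    Comp K fun x w => dgt (b x w) (f x w) (i x w) := Comp.digit hf hb hi

theorem comp_dec {b f i : List α → σ → ℕ} (hb : Comp K b) (hf : Comp K f) (hi : Comp K i) :
    Comp K fun x w => dec (b x w) (f x w) (i x w) := Comp.digit hf hb hi

theorem comp_InS {j k : List α → σ → ℕ} (hj : Comp K j) (hk : Comp K k) :
    CompP K fun x w => InS (j x w) (k x w) :=
  CompP.or (CompP.eq hk (Comp.const 6)) (CompP.lt hk hj)

theorem comp_cnt {i : List α → σ → ℕ} (hi : Comp K i) : Comp K fun x w => cnt (i x w) :=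
  Comp.ite (CompP.eq hi (Comp.const 0)) (Comp.const 1) (Comp.const 25)

theorem comp_can {N j g : List α → σ → ℕ} (hN : Comp K N) (hj : Comp K j) (hg : Comp K g) :
    CompP K fun x w => can (N x w) (j x w) (g x w) := by
  unfold can
  refine CompP.and (CompP.lt_pow hg hN (Comp.const 7)) ?_
  refine CompP.forall_lt (P := fun x w k => ¬ InS (j x w) k → dec (N x w) (g x w) k = 0)
    (T := fun _ _ => 7) ?_ (Comp.const 7)
  exact CompP.imp (CompP.not (comp_InS (hj.comp Comp.id.fst) Comp.id.snd))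
    (CompP.eq (comp_dec (hN.comp Comp.id.fst) (hg.comp Comp.id.fst) Comp.id.snd) (Comp.const 0))

variable {M : List α → Mp}

theorem comp_child {b : List α → σ → ℕ} {v : List α → σ → Nd} {k : List α → σ → ℕ}
    (hb : Comp K b) (hv : Comp K v) (hk : Comp K k) :
    Comp K fun x w => child (b x w) (v x w) (k x w) := by
  unfold child
  have hi : Comp K fun _ (_ : σ) => idle := Comp.const idle
  with_reducible repeat' (first
    | assumption | exact Comp.id | exact Comp.const _ | exact CompP.const _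
    | apply Comp.ite | apply Comp.fst | apply Comp.snd | apply Comp.add | apply Comp.sub
    | apply Comp.mul | apply Comp.div | apply Comp.mod | apply Comp.min | apply CompP.and
    | apply CompP.or | apply CompP.not | apply CompP.ne | apply CompP.eq | apply CompP.le
    | apply CompP.lt | apply CompP.testBit | apply Comp.pair)

theorem comp_gok {N g : List α → σ → ℕ} {v : List α → σ → Nd} (hN : Comp K N) (hv : Comp K v)
    (hg : Comp K g) : CompP K fun x w => gok (N x w) (v x w) (g x w) := by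
  have h1 : CompP K fun x w => can (N x w) (v x w).2.2.2.2 (g x w) :=
    comp_can hN hv.snd.snd.snd.snd hg
  have h2 : CompP K fun x w => can (N x w) 6 (g x w) := comp_can hN (Comp.const 6) hg
  have h3 : CompP K fun x w => can (N x w) 0 (g x w) := comp_can hN (Comp.const 0) hg
  have c1 : CompP K fun x w => (v x w).1 = 3 ∨ (v x w).1 = 4 :=
    CompP.or (CompP.eq hv.fst (Comp.const 3)) (CompP.eq hv.fst (Comp.const 4))
  have c2 : CompP K fun x w => (v x w).1 = 5 := CompP.eq hv.fst (Comp.const 5)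
  have c3 : CompP K fun x w => (v x w).1 = 7 := CompP.eq hv.fst (Comp.const 7)
  have c4 : CompP K fun x w => g x w = 0 := CompP.eq hg (Comp.const 0)
  refine (CompP.or (CompP.and c1 h1) (CompP.or (CompP.and (CompP.and (CompP.not c1) c2) h2)
    (CompP.or (CompP.and (CompP.and (CompP.and (CompP.not c1) (CompP.not c2)) c3) h3)
      (CompP.and (CompP.and (CompP.and (CompP.not c1) (CompP.not c2)) (CompP.not c3))
        c4)))).congr fun x w => ?_
  unfold gok
  split_ifs <;> tauto

theorem comp_op (hM : MpC K M) {v : List α → σ → Nd} {g cc q a : List α → σ → ℕ}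
    (hv : Comp K v) (hg : Comp K g) (hcc : Comp K cc) (hq : Comp K q) (ha : Comp K a) :
    OpC K fun x w => op (M x).pr (v x w) (g x w) (cc x w) (q x w) (a x w) := by
  have hb : Comp K fun x (_ : σ) => (M x).pr.b := up hM.b
  have hN : Comp K fun x (_ : σ) => (M x).pr.N := up hM.N
  have hcn : Comp K fun x w => cnt (v x w).2.2.1 := comp_cnt hv.snd.snd.fst
  have hcb : Comp K fun x (_ : σ) => cnt (M x).pr.b := comp_cnt hb
  have hL : Comp K fun x w => (M x).pr.b * ((v x w).2.1 - 1) + (v x w).2.2.1 :=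
    Comp.add (Comp.mul hb (Comp.sub hv.snd.fst (Comp.const 1))) hv.snd.snd.fst
  have hw : Comp K fun x w => wq (M x).pr.O ((M x).pr.b * ((v x w).2.1 - 1) + (v x w).2.2.1)
      (v x w).2.2.2.2 (dec (M x).pr.N (g x w)) :=
    Comp.comp (g := fun x (v : ℕ × ℕ × ℕ) => wq (M x).pr.O v.1 v.2.1 (dec (M x).pr.N v.2.2))
      hM.hw (Comp.pair hL (Comp.pair hv.snd.snd.snd.snd hg))
  have he : Comp K fun x w => (M x).pr.O.e ((M x).pr.b * ((v x w).2.1 - 1) + (v x w).2.2.1)
      (dec (M x).pr.N (g x w) 6) (trunc 6 (dec (M x).pr.N (g x w))) :=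
    Comp.comp (g := fun x (v : ℕ × ℕ) => (M x).pr.O.e v.1 (dec (M x).pr.N v.2 6)
      (trunc 6 (dec (M x).pr.N v.2))) hM.he (Comp.pair hL hg)
  have hbase : Comp K fun x w => (M x).pr.base (cc x w) :=
    Comp.comp (g := fun x (v : ℕ) => (M x).pr.base v) hM.hb hcc
  have hd : Comp K fun x w => dec (M x).pr.N (g x w) 6 := comp_dec hN hg (Comp.const 6)
  unfold op
  constructor <;> simp only <;> with_reducible repeat' (first
    | assumption | exact Comp.id | exact Comp.const _ | exact CompP.const _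
    | apply Comp.ite | apply Comp.fst | apply Comp.snd | apply Comp.add | apply Comp.sub
    | apply Comp.mul | apply Comp.div | apply Comp.mod | apply Comp.min | apply CompP.and
    | apply CompP.or | apply CompP.not | apply CompP.ne | apply CompP.eq | apply CompP.le
    | apply CompP.lt | apply CompP.testBit | apply Comp.pair)

theorem comp_tN (hM : MpC K M) {f u : List α → σ → ℕ} (hf : Comp K f) (hu : Comp K u) :
    Comp K fun x w => tN (M x) (f x w) (u x w) := by
  have hD : Comp K fun x (_ : σ) => (M x).D := up hM.D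
  have he : Comp K fun x (_ : σ) => (M x).e := up hM.e
  have hp : Comp K fun x (_ : σ) => (M x).p := up hM.p
  have h1 : Comp K fun x (v : σ × ℕ) => dgt (M x).e (f x v.1) v.2 :=
    comp_dgt (he.comp Comp.id.fst) (hf.comp Comp.id.fst) Comp.id.snd
  exact Comp.ite (CompP.lt hu hD) (comp_dgt he hf hu) (Comp.mod (Comp.sum
    (f := fun x w u => dgt (M x).e (f x w) u * dgt (M x).e (f x w) u) (Comp.mul h1 h1) hD) hp)

theorem comp_chN (hM : MpC K M) {f : List α → σ → ℕ} {v : List α → σ → ℕ → ℕ} (hf : Comp K f)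
    (hv : Comp K fun x (p : σ × ℕ) => v x p.1 p.2) :
    Comp K fun x w => chN (M x) (f x w) (v x w) := by
  have hD : Comp K fun x (_ : σ) => (M x).D := up hM.D
  have he : Comp K fun x (_ : σ) => (M x).e := up hM.e
  have hp : Comp K fun x (_ : σ) => (M x).p := up hM.p
  have h1 : Comp K fun x (v : σ × ℕ) => dgt (M x).e (f x v.1) v.2 :=
    comp_dgt (he.comp Comp.id.fst) (hf.comp Comp.id.fst) Comp.id.snd
  have h2 : Comp K fun x w => v x w (M x).D := hv.comp (Comp.pair Comp.id hD)
  exact Comp.mod (Comp.add h2 (Comp.sub hp (Comp.mod (Comp.mul (Comp.const 2) (Comp.sum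
    (f := fun x w u => dgt (M x).e (f x w) u * v x w u) (Comp.mul h1 hv) hD)) hp))) hp

theorem comp_newR (hM : MpC K M) {o : List α → σ → Op} (ho : OpC K o) {g R l : List α → σ → ℕ}
    (hg : Comp K g) (hR : Comp K R) (hl : Comp K l) :
    Comp K fun x w => newR (M x) (o x w) (g x w) (R x w) (l x w) := by
  have hD : Comp K fun x (_ : σ) => (M x).D + 1 := (up hM.D).succ
  have hp : Comp K fun x (_ : σ) => (M x).p := up hM.p
  have hN : Comp K fun x (_ : σ) => (M x).pr.N := up hM.N
  have hq := Comp.div hl hD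
  have hr := Comp.mod hl hD
  have hd : Comp K fun x w => dgt (M x).p (R x w) (l x w) := comp_dgt hp hR hl
  have hk : Comp K fun x w => l x w / ((M x).D + 1) % 7 := Comp.mod hq (Comp.const 7)
  unfold newR
  refine Comp.mod (Comp.ite (CompP.eq (Comp.add hq (Comp.const 1)) ho.kc)
    (Comp.add hd (Comp.sub hp (Comp.mod (Comp.mul ho.m (comp_tN hM ho.w hr)) hp)))
    (Comp.ite (CompP.and (CompP.eq (Comp.add (Comp.div hq (Comp.const 7)) (Comp.const 1)) ho.lu)
      (comp_InS ho.ju hk)) (Comp.add hd (comp_tN hM (comp_dec hN hg hk) hr)) hd)) hp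

theorem comp_newF (hM : MpC K M) {o : List α → σ → Op} (ho : OpC K o) {c F R l : List α → σ → ℕ}
    (hc : Comp K c) (hF : Comp K F) (hR : Comp K R) (hl : Comp K l) :
    Comp K fun x w => newF (M x) (o x w) (c x w) (F x w) (R x w) (l x w) := by
  have hD : Comp K fun x (_ : σ) => (M x).D + 1 := (up hM.D).succ
  have hg : Comp K fun x (_ : σ) => (M x).g + 1 := (up hM.g).succ
  have hp : Comp K fun x (_ : σ) => (M x).p := up hM.p
  have hq := Comp.div hl hg
  have hr := Comp.mod hl hg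
  have hd : Comp K fun x w => dgt (M x).p (F x w) (l x w) := comp_dgt hp hF hl
  have h1 : Comp K fun x (v : σ × ℕ) => dgt (M x).p (R x v.1)
      (l x v.1 / ((M x).g + 1) * ((M x).D + 1) + v.2) :=
    comp_dgt (hp.comp Comp.id.fst) (hR.comp Comp.id.fst) (Comp.add (Comp.mul
      (hq.comp Comp.id.fst) (hD.comp Comp.id.fst)) Comp.id.snd)
  have h2 : Comp K fun x w => chN (M x) (o x w).w fun u => dgt (M x).p (R x w)
      (l x w / ((M x).g + 1) * ((M x).D + 1) + u) :=
    comp_chN (v := fun x w u => dgt (M x).p (R x w)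
      (l x w / ((M x).g + 1) * ((M x).D + 1) + u)) hM ho.w h1
  unfold newF
  exact Comp.mod (Comp.ite (CompP.eq hr hc) (Comp.ite (CompP.eq (Comp.add hq (Comp.const 1))
    ho.ks) h2 (Comp.ite (CompP.or (CompP.eq (Comp.add hq (Comp.const 1)) ho.kc)
      (CompP.lt hq ho.z)) (Comp.const 0) hd)) hd) hp

theorem comp_okN (hM : MpC K M) {o : List α → σ → Op} (ho : OpC K o) {c F R : List α → σ → ℕ}
    (hc : Comp K c) (hF : Comp K F) (hR : Comp K R) :
    CompP K fun x w => okN (M x) (o x w) (c x w) (F x w) (R x w) := by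
  have hD : Comp K fun x (_ : σ) => (M x).D + 1 := (up hM.D).succ
  have hg : Comp K fun x (_ : σ) => (M x).g + 1 := (up hM.g).succ
  have hp : Comp K fun x (_ : σ) => (M x).p := up hM.p
  have hk : Comp K fun x w => (o x w).kc - 1 := Comp.sub ho.kc (Comp.const 1)
  have ho' : OpC K fun x (v : σ × ℕ) => o x v.1 := ho.comp Comp.id.fst
  have h1 : Comp K fun x (v : σ × ℕ) => dgt (M x).p (R x v.1)
      (((o x v.1).kc - 1) * ((M x).D + 1) + v.2) +
        ((M x).p - (o x v.1).m * tN (M x) (o x v.1).w v.2 % (M x).p) :=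
    Comp.add (comp_dgt (hp.comp Comp.id.fst) (hR.comp Comp.id.fst) (Comp.add (Comp.mul
      (hk.comp Comp.id.fst) (hD.comp Comp.id.fst)) Comp.id.snd))
      (Comp.sub (hp.comp Comp.id.fst) (Comp.mod (Comp.mul ho'.m (comp_tN hM ho'.w Comp.id.snd))
        (hp.comp Comp.id.fst)))
  have h2 := comp_chN (v := fun x w u => dgt (M x).p (R x w)
      (((o x w).kc - 1) * ((M x).D + 1) + u) +
        ((M x).p - (o x w).m * tN (M x) (o x w).w u % (M x).p)) hM ho.w h1
  unfold okN
  exact CompP.or (CompP.eq ho.kc (Comp.const 0)) (CompP.eq h2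
    (comp_dgt hp hF (Comp.add (Comp.mul hk hg) hc)))

theorem comp_stN (hM : MpC K M) {v : List α → σ → Nd} {g : List α → σ → ℕ}
    {X : List α → σ → SS} (hv : Comp K v) (hg : Comp K g) (hX : Comp K X) :
    Comp K fun x w => stN (M x) (v x w) (g x w) (X x w) := by
  have hN : Comp K fun x (_ : σ) => (M x).pr.N := up hM.N
  have hp : Comp K fun x (_ : σ) => (M x).p := up hM.p
  have hg1 : Comp K fun x (_ : σ) => (M x).g + 1 := (up hM.g).succ
  have hb1 : Comp K fun x (_ : σ) => 7 * ((M x).pr.b + 1) := Comp.mul (Comp.const 7) (up hM.b).succ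
  have hD1 : Comp K fun x (_ : σ) => (M x).D + 1 := (up hM.D).succ
  have bN : Bd K fun x (_ : σ) => (M x).pr.N ^ ((M x).g + 1) := hM.bN.comp (Comp.const ())
  have bF : Bd K fun x (_ : σ) => (M x).p ^ (7 * ((M x).pr.b + 1) * ((M x).g + 1)) :=
    hM.bF.comp (Comp.const ())
  have bR : Bd K fun x (_ : σ) => (M x).p ^ (7 * ((M x).pr.b + 1) * ((M x).D + 1)) :=
    hM.bR.comp (Comp.const ())
  have ho : OpC K fun x w => oN (M x) (v x w) (g x w) (X x w) :=
    comp_op hM hv hg hX.snd.fst (comp_dgt hN hX.snd.snd.fst hv.snd.fst)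
      (comp_dgt hN hX.snd.snd.snd.fst hv.snd.fst)
  have ho' : OpC K fun x (w : σ × ℕ) => oN (M x) (v x w.1) (g x w.1) (X x w.1) :=
    ho.comp Comp.id.fst
  have hN' : Comp K fun x (_ : σ × ℕ) => (M x).pr.N := up hM.N
  have hc' : Comp K fun x (w : σ × ℕ) => (v x w.1).2.1 := hv.snd.fst.comp Comp.id.fst
  have hX' : Comp K fun x (w : σ × ℕ) => X x w.1 := hX.comp Comp.id.fst
  have c1 : CompP K fun x w => (X x w).1 = 0 ∧ gok (M x).pr.N (v x w) (g x w) ∧
      okN (M x) (oN (M x) (v x w) (g x w) (X x w)) (v x w).2.1 (X x w).2.2.2.2.1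
        (X x w).2.2.2.2.2 :=
    CompP.and (CompP.eq hX.fst (Comp.const 0)) (CompP.and (comp_gok hN hv hg)
      (comp_okN hM ho hv.snd.fst hX.snd.snd.snd.snd.fst hX.snd.snd.snd.snd.snd))
  have d1 : Comp K fun x (w : σ × ℕ) => if w.2 = (v x w.1).2.1 then
      (oN (M x) (v x w.1) (g x w.1) (X x w.1)).qq % (M x).pr.N
      else dgt (M x).pr.N (X x w.1).2.2.1 w.2 :=
    Comp.ite (CompP.eq Comp.id.snd hc') (Comp.mod ho'.qq hN')
      (comp_dgt hN' hX'.snd.snd.fst Comp.id.snd)
  have d2 : Comp K fun x (w : σ × ℕ) => if w.2 = (v x w.1).2.1 then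
      (oN (M x) (v x w.1) (g x w.1) (X x w.1)).aa % (M x).pr.N
      else dgt (M x).pr.N (X x w.1).2.2.2.1 w.2 :=
    Comp.ite (CompP.eq Comp.id.snd hc') (Comp.mod ho'.aa hN')
      (comp_dgt hN' hX'.snd.snd.snd.fst Comp.id.snd)
  have d3 : Comp K fun x (w : σ × ℕ) => newF (M x) (oN (M x) (v x w.1) (g x w.1) (X x w.1))
      (v x w.1).2.1 (X x w.1).2.2.2.2.1 (X x w.1).2.2.2.2.2 w.2 :=
    comp_newF hM ho' hc' hX'.snd.snd.snd.snd.fst hX'.snd.snd.snd.snd.snd Comp.id.snd
  have d4 : Comp K fun x (w : σ × ℕ) => newR (M x) (oN (M x) (v x w.1) (g x w.1) (X x w.1))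
      (g x w.1) (X x w.1).2.2.2.2.2 w.2 :=
    comp_newR hM ho' (hg.comp Comp.id.fst) hX'.snd.snd.snd.snd.snd Comp.id.snd
  have e1 := DU.Nm.comp_pack (d := fun x w l => if l = (v x w).2.1 then
      (oN (M x) (v x w) (g x w) (X x w)).qq % (M x).pr.N
      else dgt (M x).pr.N (X x w).2.2.1 l) d1 hg1 hN bN
  have e2 := DU.Nm.comp_pack (d := fun x w l => if l = (v x w).2.1 then
      (oN (M x) (v x w) (g x w) (X x w)).aa % (M x).pr.N
      else dgt (M x).pr.N (X x w).2.2.2.1 l) d2 hg1 hN bN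
  have e3 := DU.Nm.comp_pack (d := fun x w l => newF (M x) (oN (M x) (v x w) (g x w) (X x w))
      (v x w).2.1 (X x w).2.2.2.2.1 (X x w).2.2.2.2.2 l) d3 (Comp.mul hb1 hg1) hp bF
  have e4 := DU.Nm.comp_pack (d := fun x w l => newR (M x) (oN (M x) (v x w) (g x w) (X x w))
      (g x w) (X x w).2.2.2.2.2 l) d4 (Comp.mul hb1 hD1) hp bR
  exact Comp.ite c1 (Comp.pair (Comp.const 0) (Comp.pair ho.cc (Comp.pair e1 (Comp.pair e2
    (Comp.pair e3 e4))))) (Comp.pair (Comp.const 1) hX.snd)

/-! ### The nodes -/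

theorem nok_lt {b g : ℕ} {v : Nd} (hv : NOk b g v) : Lt v (b + g + 9 + 1) := by
  obtain ⟨h1, h2, h3, h4, h5, -, -⟩ := hv
  exact lt_prod.2 ⟨lt_nat.2 (by omega), lt_prod.2 ⟨lt_nat.2 (by omega), lt_prod.2
    ⟨lt_nat.2 (by omega), lt_prod.2 ⟨lt_nat.2 (by omega), lt_nat.2 (by omega)⟩⟩⟩⟩

theorem comp_node (hM : MpC K M) {i : List α → σ → ℕ} (hi : Comp K i) :
    Comp K fun x w => nodeAt (M x).pr.b (M x).g (i x w) := by
  have hb : Comp K fun x (_ : σ) => (M x).pr.b := up hM.b
  have hg : Comp K fun x (_ : σ) => (M x).g := up hM.g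
  have hL : Comp K fun x (_ : σ) => (M x).g * ((M x).pr.b + 2) :=
    Comp.mul hg (Comp.add hb (Comp.const 2))
  have hroot : Comp K fun x (_ : σ) => ((1, (M x).g, 0, 0, 0) : Nd) :=
    Comp.pair (Comp.const 1) (Comp.pair hg (Comp.const (0, 0, 0)))
  have hF : Comp K fun x (_ : σ) => (M x).pr.b + (M x).g + 9 :=
    Comp.add (Comp.add hb hg) (Comp.const 9)
  have hl : Comp K fun x (p : σ × ℕ × Nd) => (M x).g * ((M x).pr.b + 2) - 1 - p.2.1 :=
    Comp.sub (Comp.pred (hL.comp Comp.id.fst)) Comp.id.snd.fst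
  have hstep : Comp K fun x (p : σ × ℕ × Nd) => child (M x).pr.b p.2.2
      (i x p.1 / 39 ^ ((M x).g * ((M x).pr.b + 2) - 1 - p.2.1) % 39) :=
    comp_child (hb.comp Comp.id.fst) Comp.id.snd.snd
      (Comp.digit (hi.comp Comp.id.fst) (Comp.const 39) hl)
  refine (Comp.itr_le (h := fun x w j v => child (M x).pr.b v
      (i x w / 39 ^ ((M x).g * ((M x).pr.b + 2) - 1 - j) % 39))
      (F := fun x _ => (M x).pr.b + (M x).g + 9) hstep hroot hL hF.bd
      fun x w j hj => nok_lt ?_).of_eq fun x w => ?_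
  · exact itr_inv (P := fun _ v => NOk (M x).pr.b (M x).g v) (nok_root _ _)
      (fun k _ v hv => nok_child hv (Nat.mod_lt _ (by norm_num))) j (by exact hj)
  · exact (desc_eq (fun _ => child (M x).pr.b) 39 (i x w) _ _).symm

end SN

end Pool.Agent.MP_6216ea_lc
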