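import Pool.Agent.Lib.MP_6216ea_lc.SN.Nest

/-! The brackets and the composites: the machine computes the recursion. -/

set_option autoImplicit false

namespace Pool.Agent.MP_6216ea_lc

namespace SN

open Function

variable {Md F : Type} [AddCommGroup Md] [AddCommGroup F] {N : ℕ} {G : FP Md F N 25} {P : Pr}

/-- The relation of a node at height `l`. -/
def ex (G : FP Md F N 25) (P : Pr) (l : ℕ) (v : Nd) : St Md F → List ℕ → St Md F → Prop :=
  exr (child P.b) (Act G P) 39 l v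

theorem child_idle (b k : ℕ) : child b idle k = idle := by
  unfold child idle
  simp

theorem ex_prim (l : ℕ) (v : Nd) (h1 : v.1 ≠ 1) (h2 : v.1 ≠ 2) : ex G P l v = pr G P l v := by
  funext s gs t
  refine propext ?_
  unfold ex pr pg
  refine exr_prim (w := idle) (child_idle P.b) (fun g s t => act_idle G P g s t) ?_ ?_
    (by norm_num) l s gs t
  · unfold child
    rw [if_neg h1, if_neg h2, if_pos rfl]
  · intro k hk
    unfold child
    rw [if_neg h1, if_neg h2, if_neg (by omega)]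

theorem ex_len (l : ℕ) (v : Nd) (s : St Md F) (gs : List ℕ) (t : St Md F)
    (h : ex G P l v s gs t) : gs.length = 39 ^ l :=
  ((exr_chain _ _ _ _ _ _ _ _).1 h).1

/-- Idle positions. -/
def idl (n : ℕ) (s : St Md F) (gs : List ℕ) (t : St Md F) : Prop :=
  gs = List.replicate n 0 ∧ t = s

omit [AddCommGroup Md] [AddCommGroup F] in
theorem idl_len (n : ℕ) (s : St Md F) (gs : List ℕ) (t : St Md F) (h : idl n s gs t) :
    gs.length = n := by
  rw [h.1, List.length_replicate]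

theorem seqR_three {S : Type} (f : ℕ → S → List ℕ → S → Prop) (a : ℕ) :
    seqR f a 3 = sq (f a) (sq (f (a + 1)) (f (a + 2))) := by
  funext s gs t
  refine propext ?_
  unfold sq
  rw [seqR_succ]
  constructor
  · rintro ⟨u, g₁, g₂, rfl, h1, h2⟩
    rw [seqR_succ] at h2
    obtain ⟨u', g₃, g₄, rfl, h3, h4⟩ := h2
    rw [seqR_one] at h4
    exact ⟨u, g₁, _, rfl, h1, u', g₃, g₄, rfl, h3, h4⟩
  · rintro ⟨u, g₁, _, rfl, h1, u', g₃, g₄, rfl, h3, h4⟩
    refine ⟨u, g₁, _, rfl, h1, ?_⟩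
    rw [seqR_succ]
    refine ⟨u', g₃, g₄, rfl, h3, ?_⟩
    rw [seqR_one]
    exact h4

/-- A node with three children and idle positions. -/
theorem ex_three (l : ℕ) (v w₀ w₁ w₂ : Nd) (h0 : child P.b v 0 = w₀) (h1 : child P.b v 1 = w₁)
    (h2 : child P.b v 2 = w₂) (h3 : ∀ k, 3 ≤ k → child P.b v k = idle) :
    ex G P (l + 1) v = sq (ex G P l w₀) (sq (ex G P l w₁) (sq (ex G P l w₂)
      (idl (39 ^ l * 36)))) := by
  funext s gs t
  refine propext ?_
  unfold ex
  rw [exr_succ]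
  have e : (39 : ℕ) = 3 + 36 := by norm_num
  conv_lhs => rw [e]
  rw [seqR_add, seqR_three]
  simp only [h0, h1, h2, Nat.zero_add, show (3 : ℕ) + 36 = 39 by norm_num]
  have h4 : ∀ u g, seqR (fun k => exr (child P.b) (Act G P) 39 l (child P.b v k)) 3 36 u g t ↔
      idl (39 ^ l * 36) u g t := fun u g => seqR_idle (fun k hk _ s gs t => by
    rw [h3 k hk]
    exact exr_idle (child_idle P.b) (fun g s t => act_idle G P g s t) l s gs t) u g t
  constructor
  · rintro ⟨u, g₁, g₂, rfl, ⟨u₁, g₃, _, rfl, k1, u₂, g₄, g₅, rfl, k2, k3⟩, k4⟩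
    exact ⟨u₁, g₃, _, by rw [List.append_assoc], k1, u₂, g₄, _, by rw [List.append_assoc], k2, u,
      g₅, g₂, rfl, k3, (h4 _ _).1 k4⟩
  · rintro ⟨u₁, g₃, _, rfl, k1, u₂, g₄, _, rfl, k2, u, g₅, g₂, rfl, k3, k4⟩
    refine ⟨u, g₃ ++ (g₄ ++ g₅), g₂, by rw [List.append_assoc, List.append_assoc], ⟨u₁, g₃, _, rfl,
      k1, u₂, g₄, g₅, rfl, k2, k3⟩, (h4 _ _).2 k4⟩

/-! ### Brackets of higher levels -/

theorem ex_nst (ci i l f j n : ℕ) (hn : n ≤ 6) :
    seqR (fun k => ex G P l (child P.b (2, ci, i + 1, f, j) k)) (18 - 3 * n) (6 * n + 3) =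
      nstR G P ci i l f j (fun f' j' => ex G P l (2, ci, i, f', j')) n := by
  have hc : ∀ k, child P.b (2, ci, i + 1, f, j) k = if k / 3 < 6 then
      if k % 3 = 0 then (3, ci, i, 0, k / 3)
      else if k % 3 = 1 then (2, ci, i, 0, k / 3)
      else (4, ci, i, 0, k / 3)
    else if k / 3 = 6 then
      if k % 3 = 0 then (5, ci, i, 0, 0)
      else if k % 3 = 1 then (6, ci, i + 1, f, j)
      else idle
    else
      if k % 3 = 0 then (3, ci, i, 0, 12 - k / 3)
      else if k % 3 = 1 then (2, ci, i, 1, 12 - k / 3)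
      else (4, ci, i, 0, 12 - k / 3) := by
    intro k
    unfold child
    simp only [OfNat.ofNat_ne_one, if_false, if_true, Nat.add_eq_zero_iff, one_ne_zero,
      and_false, Nat.add_sub_cancel]
  induction n with
  | zero =>
    rw [Nat.mul_zero, Nat.sub_zero, Nat.zero_add, seqR_three]
    simp only [hc]
    norm_num
    rw [ex_prim l _ (by norm_num) (by norm_num), ex_prim l _ (by norm_num) (by norm_num),
      ex_prim l _ (by unfold idle; norm_num) (by unfold idle; norm_num)]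
    rfl
  | succ n ih =>
    obtain ⟨a, ha⟩ : ∃ a, a = 18 - 3 * (n + 1) := ⟨_, rfl⟩
    have e1 : 6 * (n + 1) + 3 = 3 + ((6 * n + 3) + 3) := by ring
    have e2 : a + 3 = 18 - 3 * n := by omega
    have e3 : 18 - 3 * n + (6 * n + 3) = 21 + 3 * n := by omega
    obtain ⟨R, hR⟩ : ∃ R, R = fun k => ex G P l (child P.b (2, ci, i + 1, f, j) k) := ⟨_, rfl⟩
    have hR' : ∀ k, R k = ex G P l (child P.b (2, ci, i + 1, f, j) k) := fun k => by rw [hR]
    rw [← hR] at ih ⊢
    have d0 : R a = pr G P l (3, ci, i, 0, 5 - n) := by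
      rw [hR', hc, if_pos (by omega), if_pos (by omega), ex_prim l _ (by norm_num) (by norm_num)]
      have : a / 3 = 5 - n := by omega
      rw [this]
    have d1 : R (a + 1) = ex G P l (2, ci, i, 0, 5 - n) := by
      rw [hR', hc, if_pos (by omega), if_neg (by omega), if_pos (by omega)]
      have : (a + 1) / 3 = 5 - n := by omega
      rw [this]
    have d2 : R (a + 2) = pr G P l (4, ci, i, 0, 5 - n) := by
      rw [hR', hc, if_pos (by omega), if_neg (by omega), if_neg (by omega),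
        ex_prim l _ (by norm_num) (by norm_num)]
      have : (a + 2) / 3 = 5 - n := by omega
      rw [this]
    have d3 : R (21 + 3 * n) = pr G P l (3, ci, i, 0, 5 - n) := by
      rw [hR', hc, if_neg (by omega), if_neg (by omega), if_pos (by omega),
        ex_prim l _ (by norm_num) (by norm_num)]
      have : 12 - (21 + 3 * n) / 3 = 5 - n := by omega
      rw [this]
    have d4 : R (21 + 3 * n + 1) = ex G P l (2, ci, i, 1, 5 - n) := by
      rw [hR', hc, if_neg (by omega), if_neg (by omega), if_neg (by omega), if_pos (by omega)]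
      have : 12 - (21 + 3 * n + 1) / 3 = 5 - n := by omega
      rw [this]
    have d5 : R (21 + 3 * n + 2) = pr G P l (4, ci, i, 0, 5 - n) := by
      rw [hR', hc, if_neg (by omega), if_neg (by omega), if_neg (by omega), if_neg (by omega),
        ex_prim l _ (by norm_num) (by norm_num)]
      have : 12 - (21 + 3 * n + 2) / 3 = 5 - n := by omega
      rw [this]
    funext s gs t
    refine propext ?_
    rw [e1, ← ha, seqR_add, seqR_three, d0, d1, d2]
    have h2 : ∀ u g, seqR R (a + 3) (6 * n + 3 + 3) u g t ↔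
        sq (nstR G P ci i l f j (fun f' j' => ex G P l (2, ci, i, f', j')) n)
          (callR G P ci i (5 - n) l (ex G P l (2, ci, i, 1, 5 - n))) u g t := by
      intro u g
      rw [e2, seqR_add, e3, seqR_three, d3, d4, d5, ih (by omega)]
      rfl
    constructor
    · rintro ⟨u, g₁, g₂, rfl, h3, h4⟩
      exact ⟨u, g₁, g₂, rfl, h3, (h2 _ _).1 h4⟩
    · rintro ⟨u, g₁, g₂, rfl, h3, h4⟩
      exact ⟨u, g₁, g₂, rfl, h3, (h2 _ _).2 h4⟩

theorem ex_bracket (ci i l f j : ℕ) : ex G P (l + 1) (2, ci, i + 1, f, j) =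
    nstR G P ci i l f j (fun f' j' => ex G P l (2, ci, i, f', j')) 6 := by
  rw [← ex_nst ci i l f j 6 le_rfl]
  rfl

/-! ### The recursion -/

theorem fill_fs (O : DU.One) (A : ℕ → ℕ) (L q j n : ℕ) :
    fill O L A q j (DU.fs O A L q j) n = DU.fs O A L q (j + n) := by
  induction n generalizing j with
  | zero => rfl
  | succ n ih =>
    rw [fill]
    have h1 : update (DU.fs O A L q j) j (A (O.h L q j (DU.fs O A L q j))) =
        DU.fs O A L q (j + 1) := rfl
    rw [h1, ih, Nat.add_right_comm, Nat.add_assoc]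

theorem vl_six (O : DU.One) (base : ℕ → ℕ) (L z : ℕ) :
    vl O L (DU.fineA O base L) 6 (fun _ => z) = DU.fineA O base (L + 1) z := by
  unfold vl
  have h1 : trunc (6 - 6) (fun _ => z) = DU.fs O (DU.fineA O base L) L z 0 := by
    funext k
    unfold trunc
    rw [if_neg (by omega)]
    rfl
  rw [h1, fill_fs]
  rfl

theorem fineA_lt (hP : P.Ok) (L z : ℕ) : DU.fineA P.O P.base L z < P.N := by
  cases L with
  | zero => exact hP.base_lt z
  | succ L => exact hP.e_lt _ _ _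

/-- The claims for a composite: all frames up to `ci` are empty. -/
def LowOK (G : FP Md F N 25) (P : Pr) (ci : ℕ) (R : St Md F → List ℕ → St Md F → Prop)
    (gl : ℕ → List ℕ) : Prop :=
  ∀ s : St Md F, Zl (ci + 1) s → s.c < P.N → ∀ gs t, R s gs t ↔
    gs = gl s.c ∧ t = ⟨DU.fineA P.O P.base (P.b * ci) s.c, s.fr, s.r⟩

theorem br_zero (hP : P.Ok) (hN : P.N = N) {ci l f j : ℕ} (hf : f < 3) {gl : ℕ → List ℕ}
    (hgl : ∀ z, (gl z).length = 39 ^ l)
    (hLow : LowOK G P ci (ex G P l (1, ci, 0, 0, 0)) gl) :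
    ∃ gl', BrOK G (fun i => DU.fineA P.O P.base (P.b * ci + i)) (ci + 1) 0 (hk 0 f j)
      (39 ^ (l + 1)) (ex G P (l + 1) (2, ci + 1, 0, f, j)) gl' := by
  subst hN
  have hN0 := hP.N_pos
  have hab := above_hk 0 f j
  obtain ⟨h, hh⟩ : ∃ h, h = hk 0 f j := ⟨_, rfl⟩
  obtain ⟨A, hA⟩ : ∃ A : ℕ → ℕ → ℕ, A = fun i => DU.fineA P.O P.base (P.b * ci + i) := ⟨_, rfl⟩
  have hA0 : ∀ z, DU.fineA P.O P.base (P.b * ci) z = A 0 z := fun z => by rw [hA]; rfl
  rw [← hh] at hab ⊢
  rw [← hA]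
  have hrel : ex G P (l + 1) (2, ci + 1, 0, f, j) = sq (pr G P l (7, ci + 1, 0, 0, 0))
      (sq (ex G P l (1, ci, 0, 0, 0)) (sq (pr G P l (6, ci + 1, 0, f, j))
        (idl (39 ^ l * 36)))) := by
    rw [ex_three l (2, ci + 1, 0, f, j) (7, ci + 1, 0, 0, 0) (1, ci, 0, 0, 0)
      (6, ci + 1, 0, f, j), ex_prim l (7, ci + 1, 0, 0, 0) (by norm_num) (by norm_num),
      ex_prim l (6, ci + 1, 0, f, j) (by norm_num) (by norm_num)]
    · unfold child; simp
    · unfold child; simp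
    · unfold child; simp
    · intro k hk
      unfold child
      simp only [OfNat.ofNat_ne_one, if_false, if_true]
      rw [if_neg (by omega), if_neg (by omega), if_neg (by omega)]
  have hlen := ex_len (G := G) (P := P) l (1, ci, 0, 0, 0)
  refine ⟨fun z => pg l (cod P.N 0 fun _ => z) ++ (gl z ++ (pg l 0 ++
    List.replicate (39 ^ l * 36) 0)), fun s gs t hr => ex_len _ _ _ _ _ hr, fun z => ?_,
    fun s gs t hZ hr => ?_, fun s t hZ z hz => ?_⟩
  · rw [List.length_append, List.length_append, List.length_append, pg_length, pg_length, hgl,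
      List.length_replicate, pow_succ]
    ring
  · rw [hrel] at hr
    obtain ⟨s₁, g₁, g', rfl, ⟨x₁, rfl, h1⟩, s₂, g₂, g₃, rfl, h2, s₃, g₄, g₅, rfl, ⟨x₃, rfl, h3⟩,
      rfl, rfl⟩ := hr
    rw [act_guess] at h1
    obtain ⟨k1, e1⟩ := h1
    have f0 : ∀ c', c' ≠ ci + 1 → s₁.fr c' = s.fr c' := fun c' hc => by
      rw [e1]; exact update_of_ne hc _ _
    have f1 : ∀ κ, (s₁.fr (ci + 1)).φ κ = if κ < 6 then 0 else (s.fr (ci + 1)).φ κ := by
      intro κ; rw [e1]; simp only [update_self]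
    have f2 : ∀ κ, s₁.r κ = if κ = 6 then s.r κ + G.t (dec P.N x₁ 6) else s.r κ := by
      intro κ; rw [e1]
    have f3 : (s₁.fr (ci + 1)).q = (s.fr (ci + 1)).q := by rw [e1]; simp only [update_self]
    have f5 : s₁.c = dec P.N x₁ 6 := by rw [e1]
    rw [hLow s₁ (Zl_of hZ f0) (by rw [f5]; exact dec_lt hN0 _ _), f5] at h2
    obtain ⟨y2, e2⟩ := h2
    rw [act_hook _ _ _ _ _ _ _ hf, ← hh] at h3
    obtain ⟨rfl, hC, e3⟩ := h3
    have t0 : ∀ c', c' ≠ ci + 1 → t.fr c' = s₁.fr c' := fun c' hc => by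
      rw [e3, e2]; exact update_of_ne hc _ _
    have t1 : ∀ κ, (t.fr (ci + 1)).φ κ = hφ G h s₂.c κ (s₁.r κ) ((s₁.fr (ci + 1)).φ κ) := by
      intro κ; rw [e3, e2]; unfold Hon; simp only [update_self, if_false]
    have t2 : ∀ κ, t.r κ = hr G h s₂.c κ (s₁.r κ) := by
      intro κ; rw [e3, e2]; exact add_zero _
    have t3 : (t.fr (ci + 1)).q = (s₁.fr (ci + 1)).q := by
      rw [e3, e2]; unfold Hon; simp only [update_self]
    refine ⟨fun c' hc => by rw [t0 c' hc, f0 c' hc], by rw [t3, f3], ?_,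
      [dec P.N x₁ 6], rfl, ?_, ?_, ?_, ?_⟩
    · intro κ hκ hA'
      rw [t1, t2, hφ_off G hA', hr_off G hA', f1, f2, if_neg (by omega), if_neg (by omega)]
      exact ⟨rfl, rfl⟩
    · intro y hy
      rw [List.mem_singleton.1 hy]
      exact dec_lt hN0 _ _
    · have hA' : ¬ At (7 * 0 + 6) h := fun h' => by have := lv_of_at hab h'; omega
      rw [t2, hr_off G hA', f2, if_pos rfl]
      simp
    · have hA' : ¬ At (7 * 0 + 6) h := fun h' => by have := lv_of_at hab h'; omega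
      rw [t1, hφ_off G hA', f1, if_neg (by norm_num)]
    · intro z hz hy
      have hxz : dec P.N x₁ 6 = z := hy _ (by simp)
      have hx : x₁ = cod P.N 0 (fun _ => z) := cod_eq k1 fun k hk => by
        rcases hk with h' | h'
        · rw [h']; exact hxz
        · omega
      rw [y2, hxz, ← hx]
  · have hdec : dec P.N (cod P.N 0 fun _ => z) 6 = z :=
      dec_cod hN0 (fun _ => hz) (by norm_num) (Or.inl rfl)
    obtain ⟨V, hV⟩ : ∃ V, V = A 0 z := ⟨_, rfl⟩
    rw [← hV, hrel, sq_split (pr_len G P l _) (pg_length _ _)]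
    obtain ⟨s₁, hs₁⟩ : ∃ s₁ : St Md F, s₁ = ⟨z, update s.fr (ci + 1) ⟨(s.fr (ci + 1)).q,
      (s.fr (ci + 1)).a, fun κ => if κ < 6 then 0 else (s.fr (ci + 1)).φ κ⟩,
      fun κ => if κ = 6 then s.r κ + G.t z else s.r κ⟩ := ⟨_, rfl⟩
    have f0 : ∀ c', c' ≠ ci + 1 → s₁.fr c' = s.fr c' := fun c' hc => by
      rw [hs₁]; exact update_of_ne hc _ _
    have hc₁ : s₁.c = z := by rw [hs₁]
    have st1 : ∀ u, pr G P l (7, ci + 1, 0, 0, 0) s (pg l (cod P.N 0 fun _ => z)) u ↔
        u = s₁ := by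
      intro u
      rw [pr_pg, act_guess, hdec, ← hs₁]
      exact and_iff_right (can_cod hN0 fun _ => hz)
    obtain ⟨s₂, hs₂⟩ : ∃ s₂ : St Md F, s₂ = ⟨V, s₁.fr, s₁.r⟩ := ⟨_, rfl⟩
    have hc₂ : s₂.c = V := by rw [hs₂]
    have st2 : ∀ u, ex G P l (1, ci, 0, 0, 0) s₁ (gl z) u ↔ u = s₂ := by
      intro u
      rw [hLow s₁ (Zl_of hZ f0) (by rw [hc₁]; exact hz), hc₁, hA0, ← hV, ← hs₂]
      exact and_iff_right rfl
    have f1 : ∀ κ, (s₂.fr (ci + 1)).φ κ = if κ < 6 then 0 else (s.fr (ci + 1)).φ κ := by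
      intro κ; rw [hs₂, hs₁]; simp only [update_self]
    have f2 : ∀ κ, s₂.r κ = if κ = 6 then s.r κ + G.t z else s.r κ := by
      intro κ; rw [hs₂, hs₁]
    have f3 : (s₂.fr (ci + 1)).q = (s.fr (ci + 1)).q := by rw [hs₂, hs₁]; simp only [update_self]
    have f4 : (s₂.fr (ci + 1)).a = (s.fr (ci + 1)).a := by rw [hs₂, hs₁]; simp only [update_self]
    have f0' : ∀ c', c' ≠ ci + 1 → s₂.fr c' = s.fr c' := fun c' hc => by rw [hs₂]; exact f0 c' hc
    have hloc : ∀ κ, At κ h → s₂.r κ = s.r κ ∧ (s₂.fr (ci + 1)).φ κ = (s.fr (ci + 1)).φ κ := by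
      intro κ hκ
      have h1 := lv_of_at hab hκ
      rw [f1, f2, if_neg (by omega), if_neg (by omega)]
      exact ⟨rfl, rfl⟩
    have key : Hon G (ci + 1) h V (fun _ => False) (fun _ => 0) s₂ =
        Hon G (ci + 1) h V (ZB 0) (δB G 0 z) s := by
      unfold Hon
      apply St.ext
      · rfl
      · funext c'
        change update s₂.fr (ci + 1) _ c' = update s.fr (ci + 1) _ c'
        by_cases hc : c' = ci + 1
        · subst hc
          rw [update_self, update_self]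
          apply Fr.ext
          · exact f3
          · change ha h V _ = ha h V _
            rw [f4]
          · funext κ
            change (if False then 0 else hφ G h V κ (s₂.r κ) ((s₂.fr (ci + 1)).φ κ)) =
              (if ZB 0 κ then 0 else hφ G h V κ (s.r κ) ((s.fr (ci + 1)).φ κ))
            rw [if_false]
            by_cases hκ : At κ h
            · have h1 := lv_of_at hab hκ
              rw [if_neg (by unfold ZB; omega), (hloc κ hκ).1, (hloc κ hκ).2]
            · rw [hφ_off G hκ, hφ_off G hκ, f1]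
              by_cases hlt : κ < 6
              · rw [if_pos hlt, if_pos (by unfold ZB; omega)]
              · rw [if_neg hlt, if_neg (by unfold ZB; omega)]
        · rw [update_of_ne hc, update_of_ne hc]
          exact f0' c' hc
      · funext κ
        change hr G h V κ (s₂.r κ) + 0 = hr G h V κ (s.r κ) + δB G 0 z κ
        rw [add_zero]
        by_cases hκ : At κ h
        · have h1 := lv_of_at hab hκ
          rw [(hloc κ hκ).1]
          unfold δB
          rw [if_neg fun h' => by omega, add_zero]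
        · rw [hr_off G hκ, hr_off G hκ, f2]
          unfold δB
          by_cases hS : κ = 6
          · rw [if_pos hS, if_pos (by omega)]
            unfold cnt
            rw [if_pos rfl, one_nsmul]
          · rw [if_neg hS, if_neg (by omega), add_zero]
    have st3 : ∀ u, pr G P l (6, ci + 1, 0, f, j) s₂ (pg l 0) u ↔
        HC G h V s.r (s.fr (ci + 1)).φ ∧ u = Hon G (ci + 1) h V (ZB 0) (δB G 0 z) s := by
      intro u
      rw [pr_pg, act_hook _ _ _ _ _ _ _ hf, ← hh, hc₂, key, HC_congr G h V hloc]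
      exact and_iff_right rfl
    constructor
    · rintro ⟨u, h1, h2⟩
      rw [st1] at h1
      subst h1
      rw [sq_split hlen (hgl _)] at h2
      obtain ⟨v, h3, h4⟩ := h2
      rw [st2] at h3
      subst h3
      rw [sq_split (pr_len G P l _) (pg_length _ _)] at h4
      obtain ⟨w, h5, h6⟩ := h4
      rw [st3] at h5
      exact ⟨h5.1, by rw [h6.2, h5.2]⟩
    · rintro ⟨h1, h2⟩
      refine ⟨s₁, (st1 _).2 rfl, ?_⟩
      rw [sq_split hlen (hgl _)]
      refine ⟨s₂, (st2 _).2 rfl, ?_⟩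
      rw [sq_split (pr_len G P l _) (pg_length _ _)]
      exact ⟨_, (st3 _).2 ⟨h1, rfl⟩, rfl, h2⟩

theorem nlen_eq (l : ℕ) : nlen l (39 ^ l) 6 = 39 ^ (l + 1) := by
  simp only [nlen]
  ring

/-- All brackets. -/
theorem br_ok (hP : P.Ok) (hN : P.N = N) {ci l : ℕ} {gl : ℕ → List ℕ}
    (hgl : ∀ z, (gl z).length = 39 ^ l)
    (hLow : LowOK G P ci (ex G P l (1, ci, 0, 0, 0)) gl) (i : ℕ) :
    ∃ gl' : ℕ → ℕ → ℕ → List ℕ, ∀ f j, f < 3 →
      BrOK G (fun i => DU.fineA P.O P.base (P.b * ci + i)) (ci + 1) i (hk i f j)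
        (39 ^ (l + i + 1)) (ex G P (l + i + 1) (2, ci + 1, i, f, j)) (gl' f j) := by
  subst hN
  induction i with
  | zero =>
    choose gl' h using fun f : {f // f < 3} => fun j : ℕ =>
      br_zero (f := f.1) (j := j) hP rfl f.2 hgl hLow
    exact ⟨fun f j => if hf : f < 3 then gl' ⟨f, hf⟩ j else fun _ => [], fun f j hf => by
      simp only [dif_pos hf]; exact h ⟨f, hf⟩ j⟩
  | succ i ih =>
    obtain ⟨gl', ih⟩ := ih
    obtain ⟨A, hA⟩ : ∃ A : ℕ → ℕ → ℕ, A = fun i => DU.fineA P.O P.base (P.b * ci + i) :=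
      ⟨_, rfl⟩
    rw [← hA] at ih ⊢
    have hAlt : ∀ i z, z < P.N → A i z < P.N := fun i z _ => by rw [hA]; exact fineA_lt hP _ _
    refine ⟨fun f j z => nstG P A (ci + 1) i (l + i + 1) gl' 6 fun _ => z, fun f j hf => ?_⟩
    have hN := nst_ok (j := j) (l := l + i + 1) hP rfl hAlt hf (fun f' j' hf' _ => ih f' j' hf')
      (le_refl 6)
    rw [← ex_bracket, nlen_eq] at hN
    have e : l + (i + 1) + 1 = l + i + 1 + 1 := by omega
    rw [e]
    have hv : ∀ z, vl P.O (P.b * (ci + 1 - 1) + i) (A i) 6 (fun _ => z) = A (i + 1) z := by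
      intro z
      rw [hA, Nat.add_sub_cancel]
      exact vl_six P.O P.base (P.b * ci + i) z
    refine ⟨hN.len, fun z => hN.glen _, fun s gs t hZ hr => ?_, fun s t hZ z hz => ?_⟩
    · obtain ⟨a1, a2, a3, LY, a4, a4', a5, a6⟩ := hN.str s gs t hZ hr
      have h7 : (7 * (i + 1) + 6) / 7 = i + 1 := by omega
      have h8 : (7 * (i + 1) + 6) % 7 = 6 := by omega
      obtain ⟨b1, b2⟩ := a5 (7 * (i + 1) + 6) h7 (Or.inl h8)
      refine ⟨a1, a2, a3, LY.map (fun Y : ℕ → ℕ => Y 6), ?_, ?_, ?_, b2, ?_⟩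
      · rw [List.length_map, a4]
        rfl
      · intro y hy
        obtain ⟨Y, hY, rfl⟩ := List.mem_map.1 hy
        exact a4' Y hY 6
      · rw [h8] at b1
        rw [List.map_map]
        exact b1
      · intro z hz hy
        refine a6 (fun _ => z) (fun _ => hz) fun Y hY k hk => ?_
        rcases hk with h2 | h2
        · rw [h2]
          exact hy _ (List.mem_map_of_mem hY)
        · omega
    · rw [hN.exa s t hZ (fun _ => z) (fun _ => hz), hv]
      have h4 : Hon G (ci + 1) (hk (i + 1) f j) (A (i + 1) z) (ZN i 6) (δN G i 6 fun _ => z) s =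
          Hon G (ci + 1) (hk (i + 1) f j) (A (i + 1) z) (ZB (i + 1)) (δB G (i + 1) z) s := by
        unfold Hon
        congr 1
        · congr 2
          funext κ
          have h3 : ZN i 6 κ ↔ ZB (i + 1) κ := by
            unfold ZN ZB
            omega
          by_cases h4 : ZB (i + 1) κ
          · rw [if_pos h4, if_pos (h3.2 h4)]
          · rw [if_neg h4, if_neg (fun h5 => h4 (h3.1 h5))]
        · funext κ
          congr 1
          unfold δN δB
          have h3 : (κ / 7 = i + 1 ∧ InS (6 - 6) (κ % 7)) ↔ (κ / 7 = i + 1 ∧ κ % 7 = 6) := by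
            unfold InS
            omega
          by_cases h4 : κ / 7 = i + 1 ∧ κ % 7 = 6
          · rw [if_pos h4, if_pos (h3.2 h4)]
            rfl
          · rw [if_neg h4, if_neg (fun h5 => h4 (h3.1 h5))]
      rw [h4]

/-- One composite. -/
theorem comp_ok (hP : P.Ok) (hN : P.N = N) {ci l : ℕ} {gl : ℕ → List ℕ}
    (hgl : ∀ z, (gl z).length = 39 ^ l)
    (hLow : LowOK G P ci (ex G P l (1, ci, 0, 0, 0)) gl) :
    ∃ gl' : ℕ → List ℕ, (∀ z, (gl' z).length = 39 ^ (l + (P.b + 2))) ∧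
      LowOK G P (ci + 1) (ex G P (l + (P.b + 2)) (1, ci + 1, 0, 0, 0)) gl' := by
  subst hN
  obtain ⟨glb, hb⟩ := br_ok hP rfl hgl hLow P.b
  have hB := hb 2 0 (by norm_num)
  obtain ⟨A, hA⟩ : ∃ A : ℕ → ℕ → ℕ, A = fun i => DU.fineA P.O P.base (P.b * ci + i) :=
    ⟨_, rfl⟩
  rw [← hA] at hB
  have hk2 : hk P.b 2 0 = .last := rfl
  rw [hk2] at hB
  obtain ⟨H, hH⟩ : ∃ H, H = l + P.b + 1 := ⟨_, rfl⟩
  have e : l + (P.b + 2) = H + 1 := by omega
  rw [← hH] at hB
  have hval : ∀ z, DU.fineA P.O P.base (P.b * (ci + 1)) z = A P.b z := fun z => by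
    rw [hA, Nat.mul_succ]
  have hrel : ex G P (H + 1) (1, ci + 1, 0, 0, 0) = sq (pr G P H (8, ci + 1, 0, 0, 0))
      (sq (ex G P H (2, ci + 1, P.b, 2, 0)) (sq (pr G P H (9, ci + 1, 0, 0, 0))
        (idl (39 ^ H * 36)))) := by
    rw [ex_three H (1, ci + 1, 0, 0, 0) (8, ci + 1, 0, 0, 0) (2, ci + 1, P.b, 2, 0)
      (9, ci + 1, 0, 0, 0), ex_prim H (8, ci + 1, 0, 0, 0) (by norm_num) (by norm_num),
      ex_prim H (9, ci + 1, 0, 0, 0) (by norm_num) (by norm_num)]
    · unfold child; simp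
    · unfold child; simp
    · unfold child; simp
    · intro k hk
      unfold child
      simp only [if_true]
      rw [if_neg (by omega), if_neg (by omega), if_neg (by omega)]
  refine ⟨fun z => pg H 0 ++ (glb 2 0 z ++ (pg H 0 ++ List.replicate (39 ^ H * 36) 0)),
    fun z => ?_, fun s hZ hsc gs t => ?_⟩
  · rw [e, List.length_append, List.length_append, List.length_append, pg_length, hB.glen,
      List.length_replicate, pow_succ]
    ring
  rw [e, hrel, hval]
  have hZ' : Zl (ci + 1) s := fun c' hc => hZ c' (by omega)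
  have hfr : s.fr (ci + 1) = fr0 F := hZ (ci + 1) (by omega)
  obtain ⟨z, hz⟩ : ∃ z, z = s.c := ⟨_, rfl⟩
  rw [← hz] at hsc ⊢
  obtain ⟨s₁, hs₁⟩ : ∃ s₁ : St Md F, s₁ = ⟨0, update s.fr (ci + 1) ⟨z, 0,
    fun κ => if κ = 7 * P.b + 6 then G.χ z (s.r κ) else 0⟩, s.r⟩ := ⟨_, rfl⟩
  have st1 : ∀ x u, Act G P (8, ci + 1, 0, 0, 0) x s u ↔ x = 0 ∧ u = s₁ := by
    intro x u
    rw [act_cbegin, hfr, ← hz, hs₁]
    rfl
  have f0 : ∀ c', c' ≠ ci + 1 → s₁.fr c' = s.fr c' := fun c' hc => by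
    rw [hs₁]; exact update_of_ne hc _ _
  have f1 : ∀ κ, (s₁.fr (ci + 1)).φ κ = if κ = 7 * P.b + 6 then G.χ z (s.r κ) else 0 := by
    intro κ; rw [hs₁]; simp only [update_self]
  have f2 : s₁.r = s.r := by rw [hs₁]
  have f3 : (s₁.fr (ci + 1)).q = z := by rw [hs₁]; simp only [update_self]
  have hZ1 : Zl (ci + 1) s₁ := Zl_of hZ' f0
  obtain ⟨s₂, hs₂⟩ : ∃ s₂ : St Md F, s₂ = Hon G (ci + 1) .last (A P.b z) (ZB P.b)
    (δB G P.b z) s₁ := ⟨_, rfl⟩
  have st2 : ∀ u, ex G P H (2, ci + 1, P.b, 2, 0) s₁ (glb 2 0 z) u ↔ u = s₂ := by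
    intro u
    rw [hB.exa s₁ u hZ1 z hsc, ← hs₂]
    exact and_iff_right trivial
  have r0 : ∀ c', c' ≠ ci + 1 → s₂.fr c' = s.fr c' := fun c' hc => by
    rw [hs₂]; exact (update_of_ne hc _ _).trans (f0 c' hc)
  have r1 : ∀ κ, (s₂.fr (ci + 1)).φ κ = if ZB P.b κ then 0 else
      if κ = 7 * P.b + 6 then G.χ z (s.r κ) else 0 := by
    intro κ; rw [hs₂]; unfold Hon; simp only [update_self]; rw [← f1]; rfl
  have r2 : ∀ κ, s₂.r κ = s.r κ + δB G P.b z κ := by
    intro κ; rw [hs₂, ← f2]; rfl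
  have r3 : (s₂.fr (ci + 1)).q = z := by
    rw [hs₂]; unfold Hon; simp only [update_self]; exact f3
  have r4 : (s₂.fr (ci + 1)).a = A P.b z := by
    rw [hs₂]; unfold Hon; simp only [update_self]; rfl
  have hM : δB G P.b z (7 * P.b + 6) = cnt P.b • G.t z := by
    unfold δB
    rw [if_pos (by omega)]
  have st3 : ∀ x u, Act G P (9, ci + 1, 0, 0, 0) x s₂ u ↔ x = 0 ∧ u = ⟨A P.b z, s.fr, s.r⟩ := by
    intro x u
    rw [act_cend, r3, r4, r1, r2, hM, add_sub_cancel_right, if_neg (by unfold ZB; omega),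
      if_pos rfl]
    have key : (⟨A P.b z, update s₂.fr (ci + 1) ⟨0, 0, fun κ => if κ = 7 * P.b + 6 then 0
        else (s₂.fr (ci + 1)).φ κ⟩, fun κ => if κ = 7 * P.b + 6 then
          s₂.r κ - cnt P.b • G.t z else s₂.r κ⟩ : St Md F) = ⟨A P.b z, s.fr, s.r⟩ := by
      apply St.ext
      · rfl
      · funext c'
        change update s₂.fr (ci + 1) _ c' = s.fr c'
        by_cases hc : c' = ci + 1
        · subst hc
          rw [update_self, hfr]
          apply Fr.ext
          · rfl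
          · rfl
          · funext κ
            change (if κ = 7 * P.b + 6 then 0 else (s₂.fr (ci + 1)).φ κ) = 0
            by_cases hκ : κ = 7 * P.b + 6
            · rw [if_pos hκ]
            · rw [if_neg hκ, r1]
              split_ifs <;> rfl
        · rw [update_of_ne hc]
          exact r0 c' hc
      · funext κ
        change (if κ = 7 * P.b + 6 then s₂.r κ - cnt P.b • G.t z else s₂.r κ) = s.r κ
        by_cases hκ : κ = 7 * P.b + 6
        · rw [if_pos hκ, r2, hκ, hM, add_sub_cancel_right]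
        · rw [if_neg hκ, r2]
          unfold δB
          rw [if_neg (by omega), add_zero]
    rw [key]
    constructor
    · rintro ⟨h1, -, h3⟩
      exact ⟨h1, h3⟩
    · rintro ⟨h1, h3⟩
      exact ⟨h1, rfl, h3⟩
  constructor
  · rintro ⟨u₁, g₁, g', rfl, ⟨x₁, rfl, h1⟩, u₂, g₂, g₃, rfl, h2, u₃, g₄, g₅, rfl, ⟨x₃, rfl, h3⟩,
      rfl, rfl⟩
    rw [st1] at h1
    obtain ⟨rfl, hu₁⟩ := h1
    rw [hu₁] at h2
    obtain ⟨a1, a2, a3, l', a4, a4', a5, a5', a6⟩ := hB.str s₁ g₂ u₂ hZ1 h2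
    have h3' := h3
    rw [act_cend] at h3
    obtain ⟨-, hchk, -⟩ := h3
    have hall : ∀ y ∈ l', y = z := by
      have hcnt : cnt P.b ≤ 25 := by
        unfold cnt
        split_ifs <;> norm_num
      apply G.multi _ hsc l' a4' (by rw [a4]; exact hcnt)
      rw [a2, f3, a5, a5', f1, if_pos rfl, f2, map_sub, map_add, sub_eq_iff_eq_add] at hchk
      rw [a4]
      exact add_left_cancel hchk
    have y2 := a6 z hsc hall
    rw [y2, st2] at h2
    rw [h2, st3] at h3'
    obtain ⟨rfl, h4⟩ := h3'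
    exact ⟨by rw [y2], h4⟩
  · rintro ⟨rfl, rfl⟩
    exact ⟨s₁, _, _, rfl, ⟨0, rfl, (st1 _ _).2 ⟨rfl, rfl⟩⟩, s₂, _, _, rfl, (st2 _).2 rfl, _, _, _,
      rfl, ⟨0, rfl, (st3 _ _).2 ⟨rfl, rfl⟩⟩, rfl, rfl⟩

/-- All composites. -/
theorem low_ok (hP : P.Ok) (hN : P.N = N) (ci : ℕ) :
    ∃ gl : ℕ → List ℕ, (∀ z, (gl z).length = 39 ^ (ci * (P.b + 2))) ∧
      LowOK G P ci (ex G P (ci * (P.b + 2)) (1, ci, 0, 0, 0)) gl := by
  induction ci with
  | zero =>
    refine ⟨fun _ => [0], fun z => by rw [Nat.zero_mul]; rfl, fun s hZ hs gs t => ?_⟩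
    rw [Nat.zero_mul]
    unfold ex
    rw [exr_zero]
    constructor
    · rintro ⟨g, rfl, h⟩
      rw [act_base] at h
      obtain ⟨rfl, rfl⟩ := h
      exact ⟨rfl, rfl⟩
    · rintro ⟨rfl, rfl⟩
      exact ⟨0, rfl, (act_base _ _ _ _ _ _ _ _ _).2 ⟨rfl, rfl⟩⟩
  | succ ci ih =>
    obtain ⟨gl, h1, h2⟩ := ih
    obtain ⟨gl', h3, h4⟩ := comp_ok hP hN h1 h2
    rw [Nat.succ_mul]
    exact ⟨gl', h3, h4⟩

end SN

end Pool.Agent.MP_6216ea_lc
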