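import Pool.Agent.Lib.MP_6216ea_lc.SN.Sem

/-! Fingerprints given by the digits. -/

set_option autoImplicit false

namespace Pool.Agent.MP_6216ea_lc

namespace SN

/-- The digits. -/
def dgt (e x u : ℕ) : ℕ := x / e ^ u % e

/-- The square of the distance. -/
def sqd (e D x y : ℕ) : ℕ := ∑ u ∈ Finset.range D, ((dgt e y u : ℤ) - (dgt e x u : ℤ)).natAbs ^ 2

theorem sqd_le {e D : ℕ} (he : 0 < e) (x y : ℕ) : sqd e D x y ≤ D * e ^ 2 := by
  unfold sqd
  calc ∑ u ∈ Finset.range D, ((dgt e y u : ℤ) - (dgt e x u : ℤ)).natAbs ^ 2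
      ≤ ∑ _u ∈ Finset.range D, e ^ 2 := by
        refine Finset.sum_le_sum fun u _ => ?_
        refine Nat.pow_le_pow_left ?_ 2
        have h1 : dgt e y u < e := Nat.mod_lt _ he
        have h2 : dgt e x u < e := Nat.mod_lt _ he
        omega
    _ = D * e ^ 2 := by simp

theorem sqd_zero {e D x y : ℕ} (hx : x < e ^ D) (hy : y < e ^ D) (h : sqd e D x y = 0) :
    y = x := by
  unfold sqd at h
  rw [Finset.sum_eq_zero_iff] at h
  rw [← Nat.mod_eq_of_lt hx, ← Nat.mod_eq_of_lt hy, ← pack_self, ← pack_self]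
  unfold DU.Nm.pack
  refine Finset.sum_congr rfl fun u hu => ?_
  have h1 := h u hu
  have h2 := pow_eq_zero_iff (two_ne_zero) |>.mp h1
  have h3 : dgt e y u = dgt e x u := by omega
  change y / e ^ u % e * e ^ u = x / e ^ u % e * e ^ u
  unfold dgt at h3
  rw [h3]

theorem cast_natAbs_sq (p a b : ℕ) :
    ((((a : ℤ) - (b : ℤ)).natAbs ^ 2 : ℕ) : ZMod p) = ((a : ZMod p) - (b : ZMod p)) ^ 2 := by
  have h1 : ((((a : ℤ) - (b : ℤ)).natAbs ^ 2 : ℕ) : ℤ) = ((a : ℤ) - (b : ℤ)) ^ 2 := by
    rw [Nat.cast_pow, Int.natAbs_sq]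
  have h2 := congrArg (fun z : ℤ => (z : ZMod p)) h1
  simp only [Int.cast_natCast, Int.cast_pow, Int.cast_sub] at h2
  exact h2

/-- The vector of a number. -/
def tv (p e D x : ℕ) : ℕ → ZMod p := fun u => if u < D then (dgt e x u : ZMod p)
  else if u = D then ∑ u ∈ Finset.range D, (dgt e x u : ZMod p) ^ 2 else 0

/-- The linear map of a number. -/
def ch (p e D x : ℕ) : (ℕ → ZMod p) →+ ZMod p where
  toFun v := v D - 2 * ∑ u ∈ Finset.range D, (dgt e x u : ZMod p) * v u
  map_zero' := by simp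
  map_add' := by
    intro u u'
    simp only [Pi.add_apply, mul_add, Finset.sum_add_distrib]
    ring

theorem ch_apply (p e D x : ℕ) (v : ℕ → ZMod p) :
    ch p e D x v = v D - 2 * ∑ u ∈ Finset.range D, (dgt e x u : ZMod p) * v u := rfl

theorem ch_tv (p e D z y : ℕ) :
    ch p e D z (tv p e D y) = ch p e D z (tv p e D z) + ((sqd e D z y : ℕ) : ZMod p) := by
  have h1 : ((sqd e D z y : ℕ) : ZMod p) =
      ∑ u ∈ Finset.range D, ((dgt e y u : ZMod p) - (dgt e z u : ZMod p)) ^ 2 := by
    unfold sqd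
    rw [Nat.cast_sum]
    exact Finset.sum_congr rfl fun u _ => cast_natAbs_sq p _ _
  have h2 : ∀ x, tv p e D x D = ∑ u ∈ Finset.range D, (dgt e x u : ZMod p) ^ 2 := fun x => by
    unfold tv
    rw [if_neg (lt_irrefl D), if_pos rfl]
  have h3 : ∀ x, ∑ u ∈ Finset.range D, (dgt e z u : ZMod p) * tv p e D x u =
      ∑ u ∈ Finset.range D, (dgt e z u : ZMod p) * (dgt e x u : ZMod p) := fun x => by
    refine Finset.sum_congr rfl fun u hu => ?_
    unfold tv
    rw [if_pos (Finset.mem_range.1 hu)]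
  rw [h1, ch_apply, ch_apply, h2, h2, h3, h3, Finset.mul_sum, Finset.mul_sum,
    ← Finset.sum_sub_distrib, ← Finset.sum_sub_distrib, ← Finset.sum_add_distrib]
  exact Finset.sum_congr rfl fun u _ => by ring

/-- The fingerprints. -/
def FP.dig (p e D N m : ℕ) (he : 0 < e) (hN : N ≤ e ^ D) (hp : m * (D * e ^ 2) < p) :
    FP (ℕ → ZMod p) (ZMod p) N m where
  t := tv p e D
  χ := ch p e D
  multi := by
    intro z hz l hl hlen h
    have hsum : ∀ l : List ℕ, ch p e D z ((l.map (tv p e D)).sum) =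
        ch p e D z (l.length • tv p e D z) + (((l.map (sqd e D z)).sum : ℕ) : ZMod p) := by
      intro l
      induction l with
      | nil => simp
      | cons y l ih =>
        rw [List.map_cons, List.sum_cons, map_add, ih, ch_tv, List.length_cons, succ_nsmul,
          map_add, List.map_cons, List.sum_cons, Nat.cast_add]
        ring
    have h1 := hsum l
    rw [h] at h1
    have h2 : (((l.map (sqd e D z)).sum : ℕ) : ZMod p) = 0 := by
      have := h1
      rwa [left_eq_add] at this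
    have h3 : (l.map (sqd e D z)).sum ≤ l.length * (D * e ^ 2) := by
      have h5 : ∀ y ∈ l.map (sqd e D z), y ≤ D * e ^ 2 := by
        intro y hy
        rw [List.mem_map] at hy
        obtain ⟨y', _, rfl⟩ := hy
        exact sqd_le he z y'
      have := List.sum_le_card_nsmul _ _ h5
      simpa using this
    have h4 : (l.map (sqd e D z)).sum = 0 := by
      refine Nat.eq_zero_of_dvd_of_lt ((ZMod.natCast_eq_zero_iff _ _).mp h2) ?_
      exact lt_of_le_of_lt (h3.trans (Nat.mul_le_mul_right _ hlen)) hp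
    intro y hy
    have h6 : sqd e D z y = 0 := by
      have h7 : sqd e D z y ≤ (l.map (sqd e D z)).sum :=
        List.single_le_sum (by simp) _ (List.mem_map_of_mem hy)
      omega
    exact sqd_zero (hz.trans_le hN) ((hl y hy).trans_le hN) h6

end SN

end Pool.Agent.MP_6216ea_lc
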