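import Pool.Agent.Lib.MP_6216ea_lc.SP.Tree

/-! Trees of calls with guesses: relations with lists of guesses. -/

set_option autoImplicit false

namespace Pool.Agent.MP_6216ea_lc

namespace SN

open SP

variable {ν S : Type}

/-- The composition of the relations `f a, …, f (a + n - 1)`. -/
def seqR (f : ℕ → S → List ℕ → S → Prop) : ℕ → ℕ → S → List ℕ → S → Prop
  | _, 0, s, gs, t => gs = [] ∧ t = s
  | a, n + 1, s, gs, t => ∃ u g₁ g₂, gs = g₁ ++ g₂ ∧ f a s g₁ u ∧ seqR f (a + 1) n u g₂ t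

theorem seqR_zero (f : ℕ → S → List ℕ → S → Prop) (a : ℕ) (s : S) (gs : List ℕ) (t : S) :
    seqR f a 0 s gs t ↔ gs = [] ∧ t = s := Iff.rfl

theorem seqR_succ (f : ℕ → S → List ℕ → S → Prop) (a n : ℕ) (s : S) (gs : List ℕ) (t : S) :
    seqR f a (n + 1) s gs t ↔
      ∃ u g₁ g₂, gs = g₁ ++ g₂ ∧ f a s g₁ u ∧ seqR f (a + 1) n u g₂ t := Iff.rfl

theorem seqR_one (f : ℕ → S → List ℕ → S → Prop) (a : ℕ) (s : S) (gs : List ℕ) (t : S) :
    seqR f a 1 s gs t ↔ f a s gs t := by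
  constructor
  · rintro ⟨u, g₁, g₂, rfl, h, rfl, rfl⟩
    rwa [List.append_nil]
  · intro h
    exact ⟨t, gs, [], (List.append_nil _).symm, h, rfl, rfl⟩

theorem seqR_add (f : ℕ → S → List ℕ → S → Prop) (a m n : ℕ) (s : S) (gs : List ℕ) (t : S) :
    seqR f a (m + n) s gs t ↔
      ∃ u g₁ g₂, gs = g₁ ++ g₂ ∧ seqR f a m s g₁ u ∧ seqR f (a + m) n u g₂ t := by
  induction m generalizing a s gs with
  | zero =>
    rw [Nat.zero_add, Nat.add_zero]
    constructor
    · intro h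
      exact ⟨s, [], gs, rfl, ⟨rfl, rfl⟩, h⟩
    · rintro ⟨u, g₁, g₂, rfl, ⟨rfl, rfl⟩, h⟩
      exact h
  | succ m ih =>
    rw [Nat.add_right_comm]
    constructor
    · rintro ⟨u, g₁, g₂, rfl, h1, h2⟩
      obtain ⟨u', g₃, g₄, rfl, h3, h4⟩ := (ih (a + 1) u g₂).1 h2
      refine ⟨u', g₁ ++ g₃, g₄, by rw [List.append_assoc], ⟨u, g₁, g₃, rfl, h1, h3⟩, ?_⟩
      have e : a + (m + 1) = a + 1 + m := by omega
      rw [e]
      exact h4
    · rintro ⟨u', g₁, g₄, rfl, ⟨u, g₃, g₅, rfl, h1, h3⟩, h4⟩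
      refine ⟨u, g₃, g₅ ++ g₄, by rw [List.append_assoc], h1, (ih (a + 1) u _).2
        ⟨u', g₅, g₄, rfl, h3, ?_⟩⟩
      have e : a + (m + 1) = a + 1 + m := by omega
      rw [← e]
      exact h4

theorem seqR_congr {f f' : ℕ → S → List ℕ → S → Prop} {a n : ℕ}
    (h : ∀ k, a ≤ k → k < a + n → ∀ s gs t, f k s gs t ↔ f' k s gs t) (s : S) (gs : List ℕ)
    (t : S) : seqR f a n s gs t ↔ seqR f' a n s gs t := by
  induction n generalizing a s gs with
  | zero => exact Iff.rfl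
  | succ n ih =>
    rw [seqR_succ, seqR_succ]
    have h1 := fun u g => ih (a := a + 1) (fun k hk hk' => h k (by omega) (by omega)) u g
    constructor
    · rintro ⟨u, g₁, g₂, rfl, h2, h3⟩
      exact ⟨u, g₁, g₂, rfl, (h a le_rfl (by omega) _ _ _).1 h2, (h1 _ _).1 h3⟩
    · rintro ⟨u, g₁, g₂, rfl, h2, h3⟩
      exact ⟨u, g₁, g₂, rfl, (h a le_rfl (by omega) _ _ _).2 h2, (h1 _ _).2 h3⟩

/-- Idle parts. -/
theorem seqR_idle {f : ℕ → S → List ℕ → S → Prop} {a n m : ℕ}
    (h : ∀ k, a ≤ k → k < a + n → ∀ s gs t, f k s gs t ↔ gs = List.replicate m 0 ∧ t = s) (s : S)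
    (gs : List ℕ) (t : S) : seqR f a n s gs t ↔ gs = List.replicate (m * n) 0 ∧ t = s := by
  induction n generalizing a s gs with
  | zero => simp [seqR_zero]
  | succ n ih =>
    rw [seqR_succ]
    have h1 := fun u g => ih (a := a + 1) (fun k hk hk' => h k (by omega) (by omega)) u g
    constructor
    · rintro ⟨u, g₁, g₂, rfl, h2, h3⟩
      obtain ⟨rfl, rfl⟩ := (h a le_rfl (by omega) _ _ _).1 h2
      obtain ⟨rfl, rfl⟩ := (h1 _ _).1 h3
      refine ⟨?_, rfl⟩
      rw [← List.replicate_add]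
      congr 1
      ring
    · rintro ⟨rfl, rfl⟩
      refine ⟨t, List.replicate m 0, List.replicate (m * n) 0, ?_,
        (h a le_rfl (by omega) _ _ _).2 ⟨rfl, rfl⟩, (h1 _ _).2 ⟨rfl, rfl⟩⟩
      rw [← List.replicate_add]
      congr 1
      ring

/-- The calls of a node of height `l` with all lists of guesses. -/
def exr (child : ν → ℕ → ν) (Act : ν → ℕ → S → S → Prop) (r : ℕ) :
    ℕ → ν → S → List ℕ → S → Prop
  | 0, v, s, gs, t => ∃ g, gs = [g] ∧ Act v g s t
  | l + 1, v, s, gs, t => seqR (fun k => exr child Act r l (child v k)) 0 r s gs t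

theorem exr_zero (child : ν → ℕ → ν) (Act : ν → ℕ → S → S → Prop) (r : ℕ) (v : ν) (s : S)
    (gs : List ℕ) (t : S) : exr child Act r 0 v s gs t ↔ ∃ g, gs = [g] ∧ Act v g s t := Iff.rfl

theorem exr_succ (child : ν → ℕ → ν) (Act : ν → ℕ → S → S → Prop) (r l : ℕ) (v : ν) (s : S)
    (gs : List ℕ) (t : S) : exr child Act r (l + 1) v s gs t ↔
      seqR (fun k => exr child Act r l (child v k)) 0 r s gs t := Iff.rfl

section

variable {child : ν → ℕ → ν} {Act : ν → ℕ → S → S → Prop} {r : ℕ} {w : ν}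

/-- Idle nodes. -/
theorem exr_idle (hw : ∀ k, child w k = w) (hA : ∀ g s t, Act w g s t ↔ g = 0 ∧ t = s) (l : ℕ)
    (s : S) (gs : List ℕ) (t : S) :
    exr child Act r l w s gs t ↔ gs = List.replicate (r ^ l) 0 ∧ t = s := by
  induction l generalizing s gs t with
  | zero =>
    rw [exr_zero]
    constructor
    · rintro ⟨g, rfl, h⟩
      obtain ⟨rfl, rfl⟩ := (hA _ _ _).1 h
      exact ⟨rfl, rfl⟩
    · rintro ⟨rfl, rfl⟩
      exact ⟨0, rfl, (hA _ _ _).2 ⟨rfl, rfl⟩⟩
  | succ l ih =>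
    rw [exr_succ, seqR_idle (m := r ^ l) fun k _ _ s gs t => by rw [hw, ih]]
    rw [pow_succ]

/-- Primitive nodes act once. -/
theorem exr_prim (hw : ∀ k, child w k = w) (hA : ∀ g s t, Act w g s t ↔ g = 0 ∧ t = s)
    {v : ν} (h0 : child v 0 = v) (h1 : ∀ k, 0 < k → child v k = w) (hr : 0 < r) (l : ℕ) (s : S)
    (gs : List ℕ) (t : S) : exr child Act r l v s gs t ↔
      ∃ g, gs = g :: List.replicate (r ^ l - 1) 0 ∧ Act v g s t := by
  induction l generalizing s gs t with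
  | zero =>
    rw [exr_zero]
    simp
  | succ l ih =>
    obtain ⟨n, rfl⟩ : ∃ n, r = n + 1 := ⟨r - 1, by omega⟩
    rw [exr_succ, seqR_succ]
    have h2 := fun u g => seqR_idle (f := fun k => exr child Act (n + 1) l (child v k))
      (a := 0 + 1) (n := n) (m := (n + 1) ^ l) (fun k hk _ s gs t => by
        rw [h1 k (by omega), exr_idle hw hA]) u g t
    have hpos : 0 < (n + 1) ^ l := Nat.pow_pos (by omega)
    have e : (n + 1) ^ l - 1 + (n + 1) ^ l * n = (n + 1) ^ (l + 1) - 1 := by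
      rw [pow_succ, mul_add, mul_one]
      omega
    constructor
    · rintro ⟨u, g₁, g₂, rfl, h3, h4⟩
      rw [h0] at h3
      obtain ⟨g, rfl, h5⟩ := (ih _ _ _).1 h3
      obtain ⟨rfl, rfl⟩ := (h2 _ _).1 h4
      refine ⟨g, ?_, h5⟩
      rw [List.cons_append, ← List.replicate_add, e]
    · rintro ⟨g, rfl, h3⟩
      refine ⟨t, g :: List.replicate ((n + 1) ^ l - 1) 0,
        List.replicate ((n + 1) ^ l * n) 0, ?_, ?_, (h2 _ _).2 ⟨rfl, rfl⟩⟩
      · rw [List.cons_append, ← List.replicate_add, e]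
      · rw [h0]
        exact (ih _ _ _).2 ⟨g, rfl, h3⟩

end

/-! ### Positions -/

/-- A chain of steps. -/
def chain (P : ℕ → ℕ → S → S → Prop) : ℕ → S → List ℕ → S → Prop
  | _, s, [], t => t = s
  | i, s, g :: gs, t => ∃ u, P i g s u ∧ chain P (i + 1) u gs t

theorem chain_append (P : ℕ → ℕ → S → S → Prop) (i : ℕ) (s : S) (g₁ g₂ : List ℕ) (t : S) :
    chain P i s (g₁ ++ g₂) t ↔ ∃ u, chain P i s g₁ u ∧ chain P (i + g₁.length) u g₂ t := by
  induction g₁ generalizing i s with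
  | nil =>
    constructor
    · intro h
      exact ⟨s, rfl, h⟩
    · rintro ⟨u, h1, h2⟩
      have h1 : u = s := h1
      subst h1
      exact h2
  | cons g g₁ ih =>
    have e : i + (g :: g₁).length = i + 1 + g₁.length := by
      rw [List.length_cons]
      omega
    rw [e]
    constructor
    · rintro ⟨u, h1, h2⟩
      obtain ⟨u', h3, h4⟩ := (ih _ _).1 h2
      exact ⟨u', ⟨u, h1, h3⟩, h4⟩
    · rintro ⟨u', ⟨u, h1, h3⟩, h4⟩
      exact ⟨u, h1, (ih _ _).2 ⟨u', h3, h4⟩⟩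

theorem chain_congr {P P' : ℕ → ℕ → S → S → Prop} {i j : ℕ} {gs : List ℕ}
    (h : ∀ k < gs.length, ∀ g s t, P (i + k) g s t ↔ P' (j + k) g s t) (s t : S) :
    chain P i s gs t ↔ chain P' j s gs t := by
  induction gs generalizing i j s with
  | nil => exact Iff.rfl
  | cons g gs ih =>
    have h1 := fun u => ih (i := i + 1) (j := j + 1) (fun k hk g s t => by
      have h2 := h (k + 1) (by rw [List.length_cons]; omega) g s t
      have e1 : i + (k + 1) = i + 1 + k := by omega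
      have e2 : j + (k + 1) = j + 1 + k := by omega
      rwa [e1, e2] at h2) u
    have h0 := fun g s t => h 0 (by rw [List.length_cons]; omega) g s t
    constructor
    · rintro ⟨u, h2, h3⟩
      exact ⟨u, (h0 _ _ _).1 h2, (h1 _).1 h3⟩
    · rintro ⟨u, h2, h3⟩
      exact ⟨u, (h0 _ _ _).2 h2, (h1 _).2 h3⟩

theorem seqR_chain (P : ℕ → ℕ → S → S → Prop) (m a n : ℕ) (s : S) (gs : List ℕ) (t : S) :
    seqR (fun k s gs t => gs.length = m ∧ chain P (m * k) s gs t) a n s gs t ↔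
      gs.length = m * n ∧ chain P (m * a) s gs t := by
  induction n generalizing a s gs with
  | zero =>
    rw [seqR_zero, Nat.mul_zero]
    constructor
    · rintro ⟨rfl, rfl⟩
      exact ⟨rfl, rfl⟩
    · rintro ⟨h1, h2⟩
      obtain rfl := List.eq_nil_of_length_eq_zero h1
      exact ⟨rfl, h2⟩
  | succ n ih =>
    rw [seqR_succ]
    constructor
    · rintro ⟨u, g₁, g₂, rfl, ⟨h1, h2⟩, h3⟩
      obtain ⟨h4, h5⟩ := (ih _ _ _).1 h3
      refine ⟨by rw [List.length_append, h1, h4]; ring, ?_⟩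
      rw [chain_append]
      refine ⟨u, h2, ?_⟩
      rw [h1, ← Nat.mul_succ]
      exact h5
    · rintro ⟨h1, h2⟩
      obtain ⟨g₁, g₂, rfl, hg₁⟩ : ∃ g₁ g₂, gs = g₁ ++ g₂ ∧ g₁.length = m :=
        ⟨gs.take m, gs.drop m, (List.take_append_drop m gs).symm, by
          rw [List.length_take, h1, Nat.mul_succ]
          exact min_eq_left (Nat.le_add_left m (m * n))⟩
      rw [chain_append, hg₁] at h2
      obtain ⟨u, h3, h4⟩ := h2
      rw [List.length_append, hg₁, Nat.mul_succ] at h1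
      refine ⟨u, g₁, g₂, rfl, ⟨hg₁, h3⟩, (ih _ _ _).2 ⟨by omega, ?_⟩⟩
      rw [Nat.mul_succ]
      exact h4

/-- The runs of a tree are the chains over the positions. -/
theorem exr_chain (child : ν → ℕ → ν) (Act : ν → ℕ → S → S → Prop) (r L : ℕ) (v : ν) (s : S)
    (gs : List ℕ) (t : S) : exr child Act r L v s gs t ↔ gs.length = r ^ L ∧
      chain (fun i => Act (desc (fun _ => child) r i L v)) 0 s gs t := by
  induction L generalizing v s gs t with
  | zero =>
    rw [exr_zero, pow_zero]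
    constructor
    · rintro ⟨g, rfl, h⟩
      exact ⟨rfl, t, h, rfl⟩
    · rintro ⟨h1, h2⟩
      obtain ⟨g, rfl⟩ := List.length_eq_one_iff.1 h1
      obtain ⟨u, h3, h4⟩ := h2
      have h4 : t = u := h4
      subst h4
      exact ⟨g, rfl, h3⟩
  | succ l ih =>
    have h : ∀ k, 0 ≤ k → k < 0 + r → ∀ s gs t, exr child Act r l (child v k) s gs t ↔
        gs.length = r ^ l ∧ chain (fun i => Act (desc (fun _ => child) r i (l + 1) v))
          (r ^ l * k) s gs t := by
      intro k _ hk s gs t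
      rw [ih]
      refine and_congr_right fun hlen => chain_congr (fun i hi g s t => ?_) s t
      rw [hlen] at hi
      have hr : 0 < r ^ l := by omega
      have h1 : (r ^ l * k + i) / r ^ l % r = k := by
        rw [add_comm, Nat.add_mul_div_left _ _ hr, Nat.div_eq_of_lt hi, zero_add,
          Nat.mod_eq_of_lt (by omega)]
      have h2 : desc (fun _ => child) r (r ^ l * k + i) (l + 1) v =
          desc (fun _ => child) r i l (child v k) := by
        rw [desc, h1]
        refine desc_congr _ ?_ _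
        rw [Nat.mul_add_mod]
      rw [h2, Nat.zero_add]
    rw [exr_succ, seqR_congr h, seqR_chain, Nat.mul_zero, pow_succ]

end SN

end Pool.Agent.MP_6216ea_lc
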