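import Pool.Agent.Lib.MP_6216ea_lc.SN.Par
import Pool.Agent.Lib.MP_6216ea_lc.DLMain

/-! Languages which are log-space reducible to deterministic context-free languages are decided
unambiguously in nondeterministic space `(log n) ^ (3 / 2)`. -/

set_option autoImplicit false

namespace Pool.Agent.MP_6216ea_lc

namespace SN

open SP DU

/-- Log-space reductions to the languages of multi-head pushdown automata. -/
theorem head_red {α β : Type} [Finite β] (M : HeadPDA β) (d : ℕ) {f : List α → List β}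
    (hf : LogSpace f) :
    ∃ (c : NCmd α) (C : ℝ) (m : ℕ), ∀ x : List α, 3 ≤ x.length →
      ∃ (B : ℕ) (g : List ℕ) (t : ℕ → ℕ),
      (B : ℝ) ≤ (x.length : ℝ) ^ (C * Real.sqrt (Real.log x.length)) ∧
      g.length ≤ x.length ^ m ∧
      NRun x B c (fun _ => 0) g t ∧ t 0 ≤ 1 ∧
      (t 0 = 1 ↔ M.AcceptsIn (f x).get (((f x).length + 2) ^ d)) ∧
      ∀ (B' : ℕ) (g' : List ℕ) (t' : ℕ → ℕ), NRun x B' c (fun _ => 0) g' t' →
        g' = g ∧ t' 0 = t 0 := by
  obtain ⟨N, cd, la, a, ha, hcod, hcomp⟩ := headN_gen M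
  obtain ⟨c₀, hc₀, hsc⟩ := PQ_scale a M.k (d + 1)
  have hlen : ∃ k, ∀ x, (f x).length < (x.length + 2) ^ k := by
    obtain ⟨_, _, k, _, h⟩ := hf
    exact ⟨k, fun x => (h x).1⟩
  obtain ⟨k, hk⟩ := hlen
  obtain ⟨c₁, hc₁, hKK⟩ := KQ_len c₀ k
  obtain ⟨K, hKd⟩ : ∃ K : List α → ℕ, K = fun x => KQ c₁ x.length := ⟨_, rfl⟩
  have hK0 : ∀ x, KQ c₀ (f x).length ≤ K x := fun x => by
    rw [hKd]
    exact hKK _ _ (hk x)
  have hnK : ∀ x : List α, x.length ≤ K x := fun x => by
    rw [hKd]
    have h1 := n_lt x.length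
    obtain ⟨-, hr2, -⟩ := est x.length
    refine h1.le.trans (le_KQ (E := lP x.length) le_rfl ?_)
    calc lP x.length ≤ lP x.length * rP x.length := Nat.le_mul_of_pos_right _ (by omega)
      _ ≤ c₁ * (lP x.length * rP x.length) := Nat.le_mul_of_pos_left _ hc₁
  obtain ⟨hla, hfl⟩ := logSpace_comp hnK hf la
  have hPC : PsC K (fun x => PQ a M.k (d + 1) (f x).length) (fun x => sP (f x).length) :=
    PQ_gen a M.k (d + 1) c₀ ha hsc K (fun x => (f x).length) hK0 hfl
  obtain ⟨h1, h2, h3, h4, h5, h6⟩ := hcomp α K (fun x => (f x).length) hfl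
  have hNC : NPC K (fun x => N (f x).length) := ⟨h1, h2, h3, h4, h5, h6⟩
  have hNA := absN_comp hNC
  have hT : Comp K (fun x (_ : Unit) => 2 * ((f x).length + 2) ^ d + 1) := by
    refine Comp.add (Comp.mul (Comp.const 2) ?_) (Comp.const 1)
    refine Comp.pow (Comp.add hfl (Comp.const 2)) (Comp.const d) ⟨2 * d + 1, fun x B w hB hx _ => ?_⟩
    have hxl : (f x).length < B :=
      ((hsc (f x).length).1.trans_le (hK0 x)).trans hx
    have hB1 : (f x).length + 2 ≤ B ^ 2 := by nlinarith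
    calc ((f x).length + 2) ^ d ≤ (B ^ 2) ^ d := Nat.pow_le_pow_left hB1 d
      _ = B ^ (2 * d) := by rw [← pow_mul]
      _ < B ^ (2 * d + 1) := Nat.pow_lt_pow_right (by omega) (by omega)
  have hPd : ∀ {σ : Type} [Tup σ], PC K fun x (_ : σ) => PQ a M.k (d + 1) (f x).length := by
    intro σ _
    exact
      { D := Comp.comp (g := fun x (_ : Unit) => (PQ a M.k (d + 1) (f x).length).D)
          hPC.D (Comp.const ())
        b := Comp.comp (g := fun x (_ : Unit) => (PQ a M.k (d + 1) (f x).length).b)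
          hPC.b (Comp.const ())
        NS := Comp.comp (g := fun x (_ : Unit) => (PQ a M.k (d + 1) (f x).length).NS)
          hPC.NS (Comp.const ())
        T := Comp.comp (g := fun x (_ : Unit) => (PQ a M.k (d + 1) (f x).length).T)
          hPC.T (Comp.const ())
        NS_pos := fun x _ => hPC.NS_pos x
        M := Bd.comp (F := fun x (_ : Unit) => Mc (PQ a M.k (d + 1) (f x).length).b)
          hPC.M (Comp.const ()) }
  have hst : Comp K fun x (_ : Unit) => (absN (N (f x).length)).start := hNA.start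
  have hq : Comp K fun x (_ : Unit) => mkq (PQ a M.k (d + 1) (f x).length)
      (absN (N (f x).length)).start (absN (N (f x).length)).start 0
      (2 * ((f x).length + 2) ^ d + 1) 0 :=
    comp_mkq (P := fun x (_ : Unit) => PQ a M.k (d + 1) (f x).length) hPd hst hst
      (Comp.const 0) hT (Comp.const 0)
  have hout : Comp K fun x (v : ℕ) => if fB v = 0 ∧
      (absN (N (f x).length)).acc (fC (PQ a M.k (d + 1) (f x).length) v) = 1 then 1 else 0 := by
    refine Comp.ite (CompP.and (CompP.eq (comp_fB Comp.id) (Comp.const 0))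
      (CompP.eq ?_ (Comp.const 1))) (Comp.const 1) (Comp.const 0)
    exact hNA.acc.comp (comp_fC (P := fun x (_ : ℕ) => PQ a M.k (d + 1) (f x).length)
      hPd Comp.id)
  have hst' : ∀ x, (absN (N (f x).length)).start < (PQ a M.k (d + 1) (f x).length).NS :=
    fun x => by
      have h : (absN (N (f x).length)).start = cd (f x).length (M.prog (f x).length).start :=
        (hcod (f x)).start
      rw [h]
      exact (hcod (f x)).lt_NS _
  have hq₀ : ∀ x, mkq (PQ a M.k (d + 1) (f x).length)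
      (absN (N (f x).length)).start (absN (N (f x).length)).start 0
      (2 * ((f x).length + 2) ^ d + 1) 0 < 2 ^ (PQ a M.k (d + 1) (f x).length).D := fun x =>
    mkq_lt (hPC.NS_pos x) (hPC.hD x) _ _ _ _ _ (hst' x) (hst' x) (by norm_num)
  obtain ⟨c, e, hrun⟩ := main_len hPC hNA hla hq hq₀ hout
  obtain ⟨C, hCb⟩ := KQ_bound c₁ e
  refine ⟨c, C, 216 * ((d + 1) * (k + 1)), fun x hx => ?_⟩
  obtain ⟨g, t, hr1, hrl, hr2, hr3⟩ := hrun x
  have hspec := ansA_spec (P := PQ a M.k (d + 1) (f x).length) (hcod (f x))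
    (PQ_bits _ _ _ _) rfl (2 * ((f x).length + 2) ^ d + 1) (by
      refine le_trans ?_ (PQ_time a M.k (d + 1) (f x).length)
      obtain ⟨n, hn⟩ : ∃ n, n = (f x).length := ⟨_, rfl⟩
      rw [← hn]
      have h7 : n + 2 ≤ 2 ^ lP n := add_two_le n
      have h8 := lP_ge n
      have h9 : (n + 2) ^ d ≤ 2 ^ (lP n * d) := by
        rw [pow_mul]
        exact Nat.pow_le_pow_left h7 d
      calc 2 * (n + 2) ^ d + 1 ≤ 2 * 2 ^ (lP n * d) + 1 := by omega
        _ ≤ 2 ^ 2 * 2 ^ (lP n * d) := by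
            have := Nat.one_le_two_pow (n := lP n * d)
            omega
        _ = 2 ^ (2 + lP n * d) := by rw [pow_add]
        _ ≤ 2 ^ ((d + 1) * lP n) := by
            apply Nat.pow_le_pow_right (by norm_num)
            nlinarith)
  have hans : t 0 = ansA (PQ a M.k (d + 1) (f x).length) (absN (N (f x).length))
      (fun v => la (f x)[v]?) (2 * ((f x).length + 2) ^ d + 1) := by
    rw [hr2]
    unfold ansA valA
    rw [lvA_sysC]
  have hh := head_prog_iff M (f x).get (((f x).length + 2) ^ d)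
  refine ⟨(KQ c₁ x.length + 2) ^ e, g, t, hCb x.length hx,
    hrl.trans_le (PQ_guess a M.k (d + 1) k hx (hk x)), ?_, ?_, ?_, hr3⟩
  · rw [hKd] at hr1
    exact hr1
  · rw [hans]
    exact hspec.1
  · rw [hans]
    exact hspec.2.trans hh

/-- **Languages which are log-space reducible to deterministic context-free languages are decided
unambiguously in nondeterministic space `(log n) ^ (3 / 2)`.** -/
theorem closure_main {α β : Type} [Finite β] (M : DetPDA β) {f : List α → List β}
    (hf : LogSpace f) :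
    ∃ (c : NCmd α) (C : ℝ) (m : ℕ), ∀ x : List α, 3 ≤ x.length →
      ∃ (B : ℕ) (g : List ℕ) (t : ℕ → ℕ),
      (B : ℝ) ≤ (x.length : ℝ) ^ (C * Real.sqrt (Real.log x.length)) ∧
      g.length ≤ x.length ^ m ∧
      NRun x B c (fun _ => 0) g t ∧ t 0 ≤ 1 ∧ (t 0 = 1 ↔ M.Accepts (f x)) ∧
      ∀ (B' : ℕ) (g' : List ℕ) (t' : ℕ → ℕ), NRun x B' c (fun _ => 0) g' t' →
        g' = g ∧ t' 0 = t 0 := by
  obtain ⟨M', d, h1⟩ := detPDA_head M
  obtain ⟨c, C, m, h2⟩ := head_red M' d hf
  refine ⟨c, C, m, fun x hx => ?_⟩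
  obtain ⟨B, g, t, h3, h3', h4, h5, h6, h7⟩ := h2 x hx
  exact ⟨B, g, t, h3, h3', h4, h5, h6.trans (h1 (f x)), h7⟩

end SN

end Pool.Agent.MP_6216ea_lc
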