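import Pool.Agent.Lib.MP_6216ea_lc.SN.Final

/-! The closure theorem with the number of guesses (which is polynomial). -/

set_option autoImplicit false

namespace Pool.Agent.MP_6216ea_lc

namespace SN

open SP DU

section

variable {α : Type} {K : List α → ℕ} {P : List α → Pm} {s : List α → ℕ} {Nn : List α → NP}

/-- All runs of the machine, with the number of guesses. -/
theorem main_genL {M : List α → Mp} (hM : MpC K M) (hok : ∀ x, (M x).Ok)
    (bG : Bd K fun x (_ : Unit) => (M x).pr.N ^ 7)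
    (bT : Bd K fun x (_ : Unit) => 39 ^ ((M x).g * ((M x).pr.b + 2)))
    {q₀ : List α → Unit → ℕ} (hq : Comp K q₀) (hq₀ : ∀ x, q₀ x () < (M x).pr.N)
    {out : List α → ℕ → ℕ} (ho : Comp K out) :
    ∃ (c : NCmd α) (e : ℕ), ∀ x : List α, ∃ (gs : List ℕ) (t : ℕ → ℕ),
      NRun x ((K x + 2) ^ e) c (fun _ => 0) gs t ∧
      gs.length = 39 ^ ((M x).g * ((M x).pr.b + 2)) ∧
      t 0 = out x (fineA (M x).pr.O (M x).pr.base ((M x).pr.b * (M x).g) (q₀ x ())) ∧
      ∀ (B' : ℕ) (gs' : List ℕ) (t' : ℕ → ℕ), NRun x B' c (fun _ => 0) gs' t' →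
        gs' = gs ∧ t' 0 = t 0 := by
  obtain ⟨F, hF⟩ : ∃ F : List α → ℕ → ℕ → SS → SS, F = fun x g i X =>
    stN (M x) (nodeAt (M x).pr.b (M x).g i) g X := ⟨_, rfl⟩
  have hFc : Comp K fun x (p : ℕ × ℕ × SS) => F x p.1 p.2.1 p.2.2 := by
    rw [hF]
    exact comp_stN hM (comp_node hM Comp.id.snd.fst) Comp.id.fst Comp.id.snd.snd
  have hs₀ : Comp K fun x (_ : Unit) => ((0, q₀ x (), 0, 0, 0, 0) : SS) :=
    Comp.pair (Comp.const 0) (Comp.pair hq (Comp.const (0, 0, 0, 0)))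
  have hTc : Comp K fun x (_ : Unit) => 39 ^ ((M x).g * ((M x).pr.b + 2)) :=
    Comp.pow (Comp.const 39) (Comp.mul hM.g (Comp.add hM.b (Comp.const 2))) bT
  have hoc : Comp K fun x (X : SS) => if X.1 = 0 then out x X.2.1 + 1 else 0 :=
    Comp.ite (CompP.eq Comp.id.fst (Comp.const 0)) (Comp.succ (ho.comp Comp.id.snd.fst))
      (Comp.const 0)
  obtain ⟨c, e, hce⟩ := guess_loop (s₀ := fun x => ((0, q₀ x (), 0, 0, 0, 0) : SS))
    (T := fun x => 39 ^ ((M x).g * ((M x).pr.b + 2)))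
    (out := fun x (X : SS) => if X.1 = 0 then out x X.2.1 + 1 else 0) hFc hs₀ hTc hoc
  -- the bound
  have bS : Bd K fun x (_ : Unit) => 2 + (M x).pr.N ^ 7 + ((M x).pr.N ^ ((M x).g + 1) +
      (M x).p ^ (7 * ((M x).pr.b + 1) * ((M x).g + 1)) +
      (M x).p ^ (7 * ((M x).pr.b + 1) * ((M x).D + 1))) + (M x).pr.N :=
    Bd.add (Bd.add (Bd.add (Bd.const 2) bG) (Bd.add (Bd.add hM.bN hM.bF) hM.bR)) hM.N.bd
  obtain ⟨e₁, he₁⟩ := bS
  refine ⟨.seq c (.ite 0 (.seq (.inc 0) (.loop 0 .skip)) (.dec 0)), (e₁ + 1) * e, fun x => ?_⟩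
  obtain ⟨gs₀, h1, h2, h3, h4, h5⟩ := run_spec (hok x) (hq₀ x)
  have h6 : ∀ gs, grun (F x) 0 (0, q₀ x (), 0, 0, 0, 0) gs =
      grun (fun g i X => stN (M x) (nodeAt (M x).pr.b (M x).g i) g X) 0
        (0, q₀ x (), 0, 0, 0, 0) gs := fun gs => by rw [hF]
  have hB2 : 2 ≤ (K x + 2) ^ (e₁ + 1) :=
    le_trans (by omega) (Nat.le_self_pow (Nat.succ_ne_zero _) (K x + 2))
  have hBK : K x < (K x + 2) ^ (e₁ + 1) :=
    lt_of_lt_of_le (by omega) (Nat.le_self_pow (Nat.succ_ne_zero _) (K x + 2))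
  have hb := he₁ x (K x + 2) () (by omega) (by omega) (lt_unit.2 trivial)
  beta_reduce at hb
  have hb' : (K x + 2) ^ e₁ ≤ (K x + 2) ^ (e₁ + 1) :=
    Nat.pow_le_pow_right (by omega) (Nat.le_succ _)
  have hSm : Sm (M x) (0, q₀ x (), 0, 0, 0, 0) := by
    have hN := (hok x).pr.N_pos
    have hp := (hok x).p_pos
    exact ⟨Nat.zero_le _, hq₀ x, Nat.pow_pos hN, Nat.pow_pos hN, Nat.pow_pos hp, Nat.pow_pos hp⟩
  obtain ⟨hsound, hcompl⟩ := hce x
  obtain ⟨t, ht, ht0⟩ := hcompl ((K x + 2) ^ (e₁ + 1)) gs₀ hB2 hBK h1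
    (fun g hg => (h2 g hg).trans (by omega)) fun k hk => by
      rw [h6]
      obtain ⟨k1, k2, k3, k4, k5, k6⟩ := sm_grun (hok x) (nd := nodeAt (M x).pr.b (M x).g) 0
        (gs₀.take k) hSm
      exact lt_prod.2 ⟨lt_nat.2 (by omega), lt_prod.2 ⟨lt_nat.2 (by omega), lt_prod.2
        ⟨lt_nat.2 (by omega), lt_prod.2 ⟨lt_nat.2 (by omega), lt_prod.2 ⟨lt_nat.2 (by omega),
          lt_nat.2 (by omega)⟩⟩⟩⟩⟩
  rw [h6, if_pos h3, h4] at ht0
  have hne : t 0 ≠ 0 := by omega
  refine ⟨gs₀ ++ [], Function.update t 0 (t 0 - 1), ?_, ?_, ?_, fun B' gs' t' hr => ?_⟩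
  · rw [pow_mul]
    exact .seq ht (.itePos hne (.dec 0 t))
  · rw [List.append_nil]
    exact h1
  · rw [Function.update_self, ht0, Nat.add_sub_cancel]
  · cases hr with
    | @seq _ _ _ t₁ _ g₁ g₂ ra rb =>
      obtain ⟨a1, a2, a3⟩ := hsound _ _ _ ra
      cases rb with
      | iteZero h0 rc =>
        cases rc with
        | seq rd re =>
          cases rd with
          | inc _ _ _ =>
            exfalso
            exact loop_skip re rfl (by rw [Function.update_self]; omega)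
      | itePos h0 rc =>
        cases rc with
        | dec _ _ =>
          rw [h6] at a3
          have h7 : (grun (fun g i X => stN (M x) (nodeAt (M x).pr.b (M x).g i) g X) 0
              (0, q₀ x (), 0, 0, 0, 0) g₁).1 = 0 := by
            by_contra h8
            rw [if_neg h8] at a3
            exact h0 a3
          have h9 := h5 _ a1 h7
          rw [if_pos h7, h9, h4] at a3
          refine ⟨by rw [h9], ?_⟩
          rw [Function.update_self, Function.update_self, a3, ht0]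

/-- The value of the recursion is computed by an unambiguous nondeterministic program: for every
input there is exactly one list of guesses for which it halts. -/
theorem mainL (hP : PsC K P s) (hN : NPC K Nn) {lt : List α → ℕ → ℕ}
    (hlt : Comp K fun x (v : ℕ) => lt x v)
    {q₀ : List α → Unit → ℕ} (hq : Comp K q₀) (hq₀ : ∀ x, q₀ x () < 2 ^ (P x).D)
    {out : List α → ℕ → ℕ} (ho : Comp K out) :
    ∃ (c : NCmd α) (e : ℕ), ∀ x : List α, ∃ (gs : List ℕ) (t : ℕ → ℕ),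
      NRun x ((K x + 2) ^ e) c (fun _ => 0) gs t ∧
      gs.length = 39 ^ ((P x).g * ((P x).b + 2)) ∧
      t 0 = out x (fineA (oneN (P x)) (baseN (P x) (Nn x) (lt x))
        ((P x).b * (P x).g) (q₀ x ())) ∧
      ∀ (B' : ℕ) (gs' : List ℕ) (t' : ℕ → ℕ), NRun x B' c (fun _ => 0) gs' t' →
        gs' = gs ∧ t' 0 = t 0 :=
  main_genL (mp_comp hP hN hlt) (mp_ok hP lt) (hP.bN.mono fun x _ =>
    Nat.pow_le_pow_right (Nat.two_pow_pos _) (by omega)) hP.bT hq hq₀ ho

end

/-- The number of guesses is polynomial. -/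
theorem len_le (a k₀ m k : ℕ) {n l : ℕ} (hn : 3 ≤ n) (hl : l < (n + 2) ^ k) :
    39 ^ ((PQ a k₀ m l).g * ((PQ a k₀ m l).b + 2)) ≤ n ^ (216 * m * (k + 1)) := by
  obtain ⟨-, hr2, -, hr4, -⟩ := est l
  have hlP : lP l ≤ (k + 1) * lP n := by
    have h1 : l < 2 ^ (lP n * k) := by
      rw [pow_mul]
      exact hl.trans_le (Nat.pow_le_pow_left (add_two_le n) _)
    have h2 : Nat.log 2 l ≤ lP n * k := by
      rcases Nat.eq_zero_or_pos l with h0 | h0
      · subst h0
        simp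
      · exact (Nat.log_lt_of_lt_pow (by omega) h1).le
    have hn2 := (est n).1
    have h3 : (k + 1) * lP n = lP n * k + lP n := by ring
    rw [h3]
    change Nat.log 2 l + 2 ≤ _
    omega
  have h2n : 2 ^ lP n ≤ n ^ 3 := by
    have h1 : 2 ^ Nat.log 2 n ≤ n := Nat.pow_log_le_self 2 (by omega)
    change 2 ^ (Nat.log 2 n + 2) ≤ _
    rw [pow_add]
    calc 2 ^ Nat.log 2 n * 2 ^ 2 ≤ n * 2 ^ 2 := Nat.mul_le_mul_right _ h1
      _ ≤ n * n ^ 2 := Nat.mul_le_mul_left _ (by nlinarith)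
      _ = n ^ 3 := by ring
  have eb : (PQ a k₀ m l).b = rP l := rfl
  have eg : (PQ a k₀ m l).g = m * rP l := rfl
  rw [eb, eg]
  have h39 : 39 ≤ 2 ^ 6 := by norm_num
  calc 39 ^ (m * rP l * (rP l + 2)) ≤ (2 ^ 6) ^ (m * rP l * (rP l + 2)) :=
        Nat.pow_le_pow_left h39 _
    _ = 2 ^ (6 * (m * rP l * (rP l + 2))) := by rw [← pow_mul]
    _ ≤ 2 ^ (lP n * (72 * m * (k + 1))) := by
        refine Nat.pow_le_pow_right (by norm_num) ?_
        calc 6 * (m * rP l * (rP l + 2)) ≤ 6 * (m * rP l * (3 * rP l)) :=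
              Nat.mul_le_mul_left _ (Nat.mul_le_mul_left _ (by omega))
          _ = 18 * m * rP l ^ 2 := by ring
          _ ≤ 18 * m * (4 * lP l) := Nat.mul_le_mul_left _ hr4
          _ ≤ 18 * m * (4 * ((k + 1) * lP n)) :=
              Nat.mul_le_mul_left _ (Nat.mul_le_mul_left _ hlP)
          _ = lP n * (72 * m * (k + 1)) := by ring
    _ = (2 ^ lP n) ^ (72 * m * (k + 1)) := by rw [pow_mul]
    _ ≤ (n ^ 3) ^ (72 * m * (k + 1)) := Nat.pow_le_pow_left h2n _
    _ = n ^ (216 * m * (k + 1)) := by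
        rw [← pow_mul]
        congr 1
        ring

/-- Log-space reductions to the languages of multi-head pushdown automata. -/
theorem head_redL {α β : Type} [Finite β] (M : HeadPDA β) (d : ℕ) {f : List α → List β}
    (hf : LogSpace f) :
    ∃ (c : NCmd α) (C : ℝ) (e : ℕ), ∀ x : List α, 3 ≤ x.length →
      ∃ (B : ℕ) (g : List ℕ) (t : ℕ → ℕ),
      (B : ℝ) ≤ (x.length : ℝ) ^ (C * Real.sqrt (Real.log x.length)) ∧
      g.length ≤ x.length ^ e ∧
      NRun x B c (fun _ => 0) g t ∧ t 0 ≤ 1 ∧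
      (t 0 = 1 ↔ M.AcceptsIn (f x).get (((f x).length + 2) ^ d)) ∧
      ∀ (B' : ℕ) (g' : List ℕ) (t' : ℕ → ℕ), NRun x B' c (fun _ => 0) g' t' →
        g' = g ∧ t' 0 = t 0 := by
  obtain ⟨N, cd, la, a, ha, hcod, hcomp⟩ := headN_gen M
  obtain ⟨c₀, hc₀, hsc⟩ := PQ_scale a M.k (d + 1)
  have hlen : ∃ k, ∀ x, (f x).length < (x.length + 2) ^ k := by
    obtain ⟨_, _, k, _, h⟩ := hf
    exact ⟨k, fun x => (h x).1⟩
  obtain ⟨k, hk⟩ := hlen
  obtain ⟨c₁, hc₁, hKK⟩ := KQ_len c₀ k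
  obtain ⟨K, hKd⟩ : ∃ K : List α → ℕ, K = fun x => KQ c₁ x.length := ⟨_, rfl⟩
  have hK0 : ∀ x, KQ c₀ (f x).length ≤ K x := fun x => by
    rw [hKd]
    exact hKK _ _ (hk x)
  have hnK : ∀ x : List α, x.length ≤ K x := fun x => by
    rw [hKd]
    have h1 := n_lt x.length
    obtain ⟨-, hr2, -⟩ := est x.length
    refine h1.le.trans (le_KQ (E := lP x.length) le_rfl ?_)
    calc lP x.length ≤ lP x.length * rP x.length := Nat.le_mul_of_pos_right _ (by omega)
      _ ≤ c₁ * (lP x.length * rP x.length) := Nat.le_mul_of_pos_left _ hc₁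
  obtain ⟨hla, hfl⟩ := logSpace_comp hnK hf la
  have hPC : PsC K (fun x => PQ a M.k (d + 1) (f x).length) (fun x => sP (f x).length) :=
    PQ_gen a M.k (d + 1) c₀ ha hsc K (fun x => (f x).length) hK0 hfl
  obtain ⟨h1, h2, h3, h4, h5, h6⟩ := hcomp α K (fun x => (f x).length) hfl
  have hNC : NPC K (fun x => N (f x).length) := ⟨h1, h2, h3, h4, h5, h6⟩
  have hNA := absN_comp hNC
  have hT : Comp K (fun x (_ : Unit) => 2 * ((f x).length + 2) ^ d + 1) := by
    refine Comp.add (Comp.mul (Comp.const 2) ?_) (Comp.const 1)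
    refine Comp.pow (Comp.add hfl (Comp.const 2)) (Comp.const d) ⟨2 * d + 1, fun x B w hB hx _ => ?_⟩
    have hxl : (f x).length < B :=
      ((hsc (f x).length).1.trans_le (hK0 x)).trans hx
    have hB1 : (f x).length + 2 ≤ B ^ 2 := by nlinarith
    calc ((f x).length + 2) ^ d ≤ (B ^ 2) ^ d := Nat.pow_le_pow_left hB1 d
      _ = B ^ (2 * d) := by rw [← pow_mul]
      _ < B ^ (2 * d + 1) := Nat.pow_lt_pow_right (by omega) (by omega)
  have hPd : ∀ {σ : Type} [Tup σ], PC K fun x (_ : σ) => PQ a M.k (d + 1) (f x).length := by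
    intro σ _
    exact
      { D := Comp.comp (g := fun x (_ : Unit) => (PQ a M.k (d + 1) (f x).length).D)
          hPC.D (Comp.const ())
        b := Comp.comp (g := fun x (_ : Unit) => (PQ a M.k (d + 1) (f x).length).b)
          hPC.b (Comp.const ())
        NS := Comp.comp (g := fun x (_ : Unit) => (PQ a M.k (d + 1) (f x).length).NS)
          hPC.NS (Comp.const ())
        T := Comp.comp (g := fun x (_ : Unit) => (PQ a M.k (d + 1) (f x).length).T)
          hPC.T (Comp.const ())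
        NS_pos := fun x _ => hPC.NS_pos x
        M := Bd.comp (F := fun x (_ : Unit) => Mc (PQ a M.k (d + 1) (f x).length).b)
          hPC.M (Comp.const ()) }
  have hst : Comp K fun x (_ : Unit) => (absN (N (f x).length)).start := hNA.start
  have hq : Comp K fun x (_ : Unit) => mkq (PQ a M.k (d + 1) (f x).length)
      (absN (N (f x).length)).start (absN (N (f x).length)).start 0
      (2 * ((f x).length + 2) ^ d + 1) 0 :=
    comp_mkq (P := fun x (_ : Unit) => PQ a M.k (d + 1) (f x).length) hPd hst hst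
      (Comp.const 0) hT (Comp.const 0)
  have hout : Comp K fun x (v : ℕ) => if fB v = 0 ∧
      (absN (N (f x).length)).acc (fC (PQ a M.k (d + 1) (f x).length) v) = 1 then 1 else 0 := by
    refine Comp.ite (CompP.and (CompP.eq (comp_fB Comp.id) (Comp.const 0))
      (CompP.eq ?_ (Comp.const 1))) (Comp.const 1) (Comp.const 0)
    exact hNA.acc.comp (comp_fC (P := fun x (_ : ℕ) => PQ a M.k (d + 1) (f x).length)
      hPd Comp.id)
  have hst' : ∀ x, (absN (N (f x).length)).start < (PQ a M.k (d + 1) (f x).length).NS :=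
    fun x => by
      have h : (absN (N (f x).length)).start = cd (f x).length (M.prog (f x).length).start :=
        (hcod (f x)).start
      rw [h]
      exact (hcod (f x)).lt_NS _
  have hq₀ : ∀ x, mkq (PQ a M.k (d + 1) (f x).length)
      (absN (N (f x).length)).start (absN (N (f x).length)).start 0
      (2 * ((f x).length + 2) ^ d + 1) 0 < 2 ^ (PQ a M.k (d + 1) (f x).length).D := fun x =>
    mkq_lt (hPC.NS_pos x) (hPC.hD x) _ _ _ _ _ (hst' x) (hst' x) (by norm_num)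
  obtain ⟨c, e, hrun⟩ := mainL hPC hNA hla hq hq₀ hout
  obtain ⟨C, hCb⟩ := KQ_bound c₁ e
  refine ⟨c, C, 216 * (d + 1) * (k + 1), fun x hx => ?_⟩
  obtain ⟨g, t, hr1, hgl, hr2, hr3⟩ := hrun x
  have hspec := ansA_spec (P := PQ a M.k (d + 1) (f x).length) (hcod (f x))
    (PQ_bits _ _ _ _) rfl (2 * ((f x).length + 2) ^ d + 1) (by
      refine le_trans ?_ (PQ_time a M.k (d + 1) (f x).length)
      obtain ⟨n, hn⟩ : ∃ n, n = (f x).length := ⟨_, rfl⟩
      rw [← hn]
      have h7 : n + 2 ≤ 2 ^ lP n := add_two_le n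
      have h8 := lP_ge n
      have h9 : (n + 2) ^ d ≤ 2 ^ (lP n * d) := by
        rw [pow_mul]
        exact Nat.pow_le_pow_left h7 d
      calc 2 * (n + 2) ^ d + 1 ≤ 2 * 2 ^ (lP n * d) + 1 := by omega
        _ ≤ 2 ^ 2 * 2 ^ (lP n * d) := by
            have := Nat.one_le_two_pow (n := lP n * d)
            omega
        _ = 2 ^ (2 + lP n * d) := by rw [pow_add]
        _ ≤ 2 ^ ((d + 1) * lP n) := by
            apply Nat.pow_le_pow_right (by norm_num)
            nlinarith)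
  have hans : t 0 = ansA (PQ a M.k (d + 1) (f x).length) (absN (N (f x).length))
      (fun v => la (f x)[v]?) (2 * ((f x).length + 2) ^ d + 1) := by
    rw [hr2]
    unfold ansA valA
    rw [lvA_sysC]
  have hh := head_prog_iff M (f x).get (((f x).length + 2) ^ d)
  refine ⟨(KQ c₁ x.length + 2) ^ e, g, t, hCb x.length hx, ?_, ?_, ?_, ?_, hr3⟩
  · rw [hgl]
    exact len_le a M.k (d + 1) k hx (hk x)
  · rw [hKd] at hr1
    exact hr1
  · rw [hans]
    exact hspec.1
  · rw [hans]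
    exact hspec.2.trans hh

/-- **Languages which are log-space reducible to deterministic context-free languages are decided
unambiguously in nondeterministic space `(log n) ^ (3 / 2)`.** -/
theorem closure_mainL {α β : Type} [Finite β] (M : DetPDA β) {f : List α → List β}
    (hf : LogSpace f) :
    ∃ (c : NCmd α) (C : ℝ) (e : ℕ), ∀ x : List α, 3 ≤ x.length →
      ∃ (B : ℕ) (g : List ℕ) (t : ℕ → ℕ),
      (B : ℝ) ≤ (x.length : ℝ) ^ (C * Real.sqrt (Real.log x.length)) ∧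
      g.length ≤ x.length ^ e ∧
      NRun x B c (fun _ => 0) g t ∧ t 0 ≤ 1 ∧ (t 0 = 1 ↔ M.Accepts (f x)) ∧
      ∀ (B' : ℕ) (g' : List ℕ) (t' : ℕ → ℕ), NRun x B' c (fun _ => 0) g' t' →
        g' = g ∧ t' 0 = t 0 := by
  obtain ⟨M', d, h1⟩ := detPDA_head M
  obtain ⟨c, C, e, h2⟩ := head_redL M' d hf
  refine ⟨c, C, e, fun x hx => ?_⟩
  obtain ⟨B, g, t, h3, hl, h4, h5, h6, h7⟩ := h2 x hx
  exact ⟨B, g, t, h3, hl, h4, h5, h6.trans (h1 (f x)), h7⟩

end SN

end Pool.Agent.MP_6216ea_lc
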