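import Pool.Agent.Lib.MP_6216ea_lc.SN.Model
import Pool.Agent.Lib.MP_6216ea_lc.SP.Arith

/-! Loops with one guess in each round. -/

set_option autoImplicit false

namespace Pool.Agent.MP_6216ea_lc

namespace SP

open Function

variable {α : Type} {x : List α} {B : ℕ}

/-- Deterministic programs are nondeterministic programs. -/
def emb : Cmd α → NCmd α
  | .skip => .skip
  | .inc v => .inc v
  | .dec v => .dec v
  | .read v w f => .read v w f
  | .seq c d => .seq (emb c) (emb d)
  | .ite v c d => .ite v (emb c) (emb d)
  | .loop v c => .loop v (emb c)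

theorem nrun_of_run {c : Cmd α} {s t : ℕ → ℕ} (h : Run x B c s t) : NRun x B (emb c) s [] t := by
  induction h with
  | skip s => exact .skip s
  | inc v s h => exact .inc v s h
  | dec v s => exact .dec v s
  | read v w f s h => exact .read v w f s h
  | seq _ _ ih₁ ih₂ => exact NRun.seq ih₁ ih₂
  | iteZero h _ ih => exact .iteZero h ih
  | itePos h _ ih => exact .itePos h ih
  | loopDone h => exact .loopDone h
  | loopStep h _ _ ih₁ ih₂ => exact NRun.loopStep h ih₁ ih₂

theorem run_of_nrun {c : NCmd α} {s t : ℕ → ℕ} {g : List ℕ} (h : NRun x B c s g t) :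
    ∀ c' : Cmd α, c = emb c' → g = [] ∧ Run x B c' s t := by
  induction h with
  | skip s =>
    intro c' h
    cases c' with
    | skip => exact ⟨rfl, .skip s⟩
    | _ => exact absurd h (by simp [emb])
  | inc v s hB =>
    intro c' h
    cases c' with
    | inc w => rw [emb] at h; injection h with h; subst h; exact ⟨rfl, .inc _ s hB⟩
    | _ => exact absurd h (by simp [emb])
  | dec v s =>
    intro c' h
    cases c' with
    | dec w => rw [emb] at h; injection h with h; subst h; exact ⟨rfl, .dec _ s⟩
    | _ => exact absurd h (by simp [emb])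
  | read v w f s hB =>
    intro c' h
    cases c' with
    | read v' w' f' =>
      rw [emb] at h
      injection h with h1 h2 h3
      subst h1 h2 h3
      exact ⟨rfl, .read _ _ _ s hB⟩
    | _ => exact absurd h (by simp [emb])
  | guess v s a hB =>
    intro c' h
    cases c' <;> exact absurd h (by simp [emb])
  | seq _ _ ih₁ ih₂ =>
    intro c' h
    cases c' with
    | seq c1 c2 =>
      rw [emb] at h
      injection h with h1 h2
      obtain ⟨e1, r1⟩ := ih₁ c1 h1
      obtain ⟨e2, r2⟩ := ih₂ c2 h2
      exact ⟨by rw [e1, e2]; rfl, .seq r1 r2⟩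
    | _ => exact absurd h (by simp [emb])
  | iteZero h0 _ ih =>
    intro c' h
    cases c' with
    | ite v c1 c2 =>
      rw [emb] at h
      injection h with h1 h2 h3
      subst h1
      obtain ⟨e, r⟩ := ih c1 h2
      exact ⟨e, .iteZero h0 r⟩
    | _ => exact absurd h (by simp [emb])
  | itePos h0 _ ih =>
    intro c' h
    cases c' with
    | ite v c1 c2 =>
      rw [emb] at h
      injection h with h1 h2 h3
      subst h1
      obtain ⟨e, r⟩ := ih c2 h3
      exact ⟨e, .itePos h0 r⟩
    | _ => exact absurd h (by simp [emb])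
  | loopDone h0 =>
    intro c' h
    cases c' with
    | loop v c1 =>
      rw [emb] at h
      injection h with h1 h2
      subst h1
      exact ⟨rfl, .loopDone h0⟩
    | _ => exact absurd h (by simp [emb])
  | loopStep h0 _ _ ih₁ ih₂ =>
    intro c' h
    cases c' with
    | loop v c1 =>
      have h' := h
      rw [emb] at h
      injection h with h1 h2
      subst h1
      obtain ⟨e1, r1⟩ := ih₁ c1 h2
      obtain ⟨e2, r2⟩ := ih₂ (.loop _ c1) h'
      exact ⟨by rw [e1, e2]; rfl, .loopStep h0 r1 r2⟩
    | _ => exact absurd h (by simp [emb])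

/-- Programs without guesses have one run. -/
theorem run_det {B' : ℕ} {c : Cmd α} {s t t' : ℕ → ℕ} (h : Run x B c s t)
    (h' : Run x B' c s t') : t = t' := by
  induction h generalizing t' with
  | skip s => cases h'; rfl
  | inc v s _ => cases h'; rfl
  | dec v s => cases h'; rfl
  | read v w f s _ => cases h'; rfl
  | seq _ _ ih₁ ih₂ =>
    cases h' with
    | seq r1 r2 =>
      have := ih₁ r1
      subst this
      exact ih₂ r2
  | iteZero h0 _ ih =>
    cases h' with
    | iteZero _ r => exact ih r
    | itePos h1 _ => exact absurd h0 h1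
  | itePos h0 _ ih =>
    cases h' with
    | iteZero h1 _ => exact absurd h1 h0
    | itePos _ r => exact ih r
  | loopDone h0 =>
    cases h' with
    | loopDone _ => rfl
    | loopStep h1 _ _ => exact absurd h0 h1
  | loopStep h0 _ _ ih₁ ih₂ =>
    cases h' with
    | loopDone h1 => exact absurd h1 h0
    | loopStep _ r1 r2 =>
      have := ih₁ r1
      subst this
      exact ih₂ r2

/-- The runs of a deterministic program inside a nondeterministic one. -/
theorem nrun_emb {B' : ℕ} {c : Cmd α} {s t t' : ℕ → ℕ} {g : List ℕ}
    (h : NRun x B (emb c) s g t) (h' : Run x B' c s t') : g = [] ∧ t = t' := by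
  obtain ⟨e, r⟩ := run_of_nrun h c rfl
  exact ⟨e, run_det r h'⟩

end SP

end Pool.Agent.MP_6216ea_lc
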