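import Pool.Agent.Lib.MP_6216ea_lc.SN.Guess

/-! A loop with one guess in each round, and all its runs. -/

set_option autoImplicit false

namespace Pool.Agent.MP_6216ea_lc

namespace SP

open Function

variable {α : Type} {K : List α → ℕ} {σ S : Type} [Tup σ] [Tup S]

/-- The state after the guesses `gs`, started in round `i`. -/
def grun {S : Type} (h : ℕ → ℕ → S → S) : ℕ → S → List ℕ → S
  | _, s, [] => s
  | i, s, g :: gs => grun h (i + 1) (h g i s) gs

theorem regroup {h : List α → σ → ℕ → S → S}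
    (hh : Comp K fun x (p : σ × ℕ × S) => h x p.1 p.2.1 p.2.2) (j : Fin (Tup.n S)) :
    CompN K fun x (v : Fin (Tup.n σ + 1 + Tup.n S) → ℕ) =>
      Tup.get (h x (Tup.of fun i => v (Fin.castAdd _ (Fin.castAdd _ i)))
        (v (Fin.castAdd _ (Fin.natAdd _ 0))) (Tup.of fun i => v (Fin.natAdd _ i))) j := by
  have h1 := hh j
  let G : Fin (Tup.n (σ × ℕ × S)) → List α → (Fin (Tup.n σ + 1 + Tup.n S) → ℕ) → ℕ :=
    Fin.append (fun i _ v => v (Fin.castAdd _ (Fin.castAdd _ i)))
      (Fin.append (fun _ : Fin 1 => fun _ v => v (Fin.castAdd _ (Fin.natAdd _ 0)))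
        (fun i _ v => v (Fin.natAdd _ i)))
  have h2 := CompN.comp h1 (G := G) (fun i => by
    refine Fin.addCases (fun i => ?_) (fun i => ?_) i
    · simp only [G, Fin.append_left]; exact CompN.proj _
    · refine Fin.addCases (fun i => ?_) (fun i => ?_) i
      · simp only [G, Fin.append_right, Fin.append_left]; exact CompN.proj _
      · simp only [G, Fin.append_right]; exact CompN.proj _)
  refine (congrArg (CompN K) ?_).mp h2
  funext x v
  change Tup.get (h x (Tup.of fun j => G j x v : σ × ℕ × S).1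
    (Tup.of fun j => G j x v : σ × ℕ × S).2.1 (Tup.of fun j => G j x v : σ × ℕ × S).2.2) j = _
  congr 2
  · change Tup.of (fun i => G (Fin.castAdd _ i) x v) = _
    simp only [G, Fin.append_left]
  · change G (Fin.natAdd _ (Fin.castAdd _ 0)) x v = _
    simp only [G, Fin.append_right, Fin.append_left]
  · change Tup.of (fun i => G (Fin.natAdd _ (Fin.natAdd _ i)) x v) = _
    simp only [G, Fin.append_right]

/-- The body of the loop after the guess. -/
def gbody (m : ℕ) (d : Fin m → Cmd α) : Cmd α := .seq (pass 1 d) (clear 0)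

/-- The loop. -/
def gloop (m : ℕ) (d : Fin m → Cmd α) : NCmd α :=
  .loop (1 + m + 1) (.seq (.guess 0) (emb (gbody m d)))

theorem lst_update_zero {m : ℕ} (w : Fin m → ℕ) (s : ℕ → ℕ) (i c a : ℕ) :
    update (lst s 1 w i c) 0 a = lst (update s 0 a) 1 w i c := by
  funext v
  by_cases h : v = 0
  · subst h
    rw [update_self, lst_lt _ _ _ _ _ (by omega), update_self]
  · rw [update_of_ne h, lst, lst, update_of_ne h]

theorem body_run {h : List α → ℕ → ℕ → S → S}
    (hh : Comp K fun x (p : ℕ × ℕ × S) => h x p.1 p.2.1 p.2.2) :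
    ∃ (d : Fin (Tup.n S) → Cmd α) (F : ℕ), 2 ≤ F ∧ ∀ (x : List α) (B : ℕ), 2 ≤ B → K x < B →
      ∀ (g i c : ℕ) (s : S), g < B → i < B → Lt s B →
      Run x (B ^ F) (gbody (Tup.n S) d)
        (lst (update (fun _ => 0) 0 g) 1 (Tup.get s) i (c + 1))
        (lst (fun _ => 0) 1 (Tup.get (h x g i s)) (i + 1) c) := by
  choose eh bh ph using regroup hh
  obtain ⟨F, hF⟩ : ∃ F, F = 2 + ∑ j, eh j := ⟨_, rfl⟩
  have hFj : ∀ j, eh j ≤ F := fun j => by
    have := Finset.single_le_sum (f := eh) (fun i _ => Nat.zero_le _) (Finset.mem_univ j)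
    omega
  obtain ⟨m, hm⟩ : ∃ m, m = Tup.n S := ⟨_, rfl⟩
  choose ch hch using fun j : Fin (Tup.n S) => ph j
    (app3 (fun _ : Fin 1 => 0) (1 + Tup.n S) fun j : Fin (Tup.n S) => 1 + j.val)
    (1 + Tup.n S + 2 + j.val) (1 + Tup.n S + 2 + Tup.n S)
    (app3_all (p := fun z => z < 1 + Tup.n S + 2 + Tup.n S) (fun i => by omega) (by omega)
      (fun j => by omega)) (by omega)
    (app3_all (p := fun z => z ≠ 1 + Tup.n S + 2 + j.val) (fun i => by omega)
      (by omega) (fun j => by omega))
  refine ⟨ch, F, by omega, fun x B hB hx g i c s hg hi hs => ?_⟩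
  have hval : ∀ j, (fun (v : Fin (Tup.n ℕ + 1 + Tup.n S) → ℕ) =>
      Tup.get (h x (Tup.of fun i => v (Fin.castAdd _ (Fin.castAdd _ i)))
        (v (Fin.castAdd _ (Fin.natAdd _ 0))) (Tup.of fun i => v (Fin.natAdd _ i))) j)
        (app3 (fun _ : Fin 1 => g) i (Tup.get s)) = Tup.get (h x g i s) j := by
    intro j
    change Tup.get (h x (Fin.append (Fin.append (fun _ : Fin 1 => g) fun _ : Fin 1 => i)
        (Tup.get s) (Fin.castAdd _ (Fin.castAdd _ 0)))
      (Fin.append (Fin.append (fun _ : Fin 1 => g) fun _ : Fin 1 => i)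
        (Tup.get s) (Fin.castAdd _ (Fin.natAdd _ 0)))
      (Tup.of fun i' => Fin.append (Fin.append (fun _ : Fin 1 => g) fun _ : Fin 1 => i)
        (Tup.get s) (Fin.natAdd _ i'))) j = _
    simp only [Fin.append_left, Fin.append_right, Tup.of_get]
  have hw' : ∀ j, Tup.get (h x g i s) j < B ^ F := fun j => by
    rw [← hval j]
    exact (bh j x B _ hB hx (app3_all (p := fun z => z < B) (fun _ => hg) hi hs)).trans_le
      (Nat.pow_le_pow_right (by omega) (hFj j))
  have hi1 : i + 1 < B ^ F := by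
    have h1 : B ^ 2 ≤ B ^ F := Nat.pow_le_pow_right (by omega) (by omega)
    nlinarith
  refine .seq (run_pass ch (update (fun _ => 0) 0 g) (Tup.get s) (Tup.get (h x g i s)) i c
    (fun v hv => update_of_ne (by omega) _ _) hw' hi1 fun j s' hs' => ?_) ?_
  · have e1 : ∀ z, z < 1 + Tup.n S + 2 ∨ 1 + Tup.n S + 2 + j.val ≤ z →
        s' z = lst (update (fun _ => 0) 0 g) 1 (Tup.get s) i c z := fun z hz => by
      rcases hs' z with h | h
      · omega
      · exact h
    have e2 : (fun j' => s' (app3 (fun _ : Fin 1 => 0) (1 + Tup.n S)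
        (fun j : Fin (Tup.n S) => 1 + j.val) j')) = app3 (fun _ : Fin 1 => g) i (Tup.get s) := by
      rw [app3_comp]
      congr 1
      · funext i'
        rw [e1 _ (.inl (by omega)), lst_lt _ _ _ _ _ (by omega), update_self]
      · rw [e1 _ (.inl (by omega)), lst_i]
      · funext j'
        rw [e1 _ (.inl (by omega)), lst_w]
    have h4 := hch j x B s' hB hx
      (fun j' => (congrFun e2 j').trans_lt
        (app3_all (p := fun z => z < B) (fun _ => hg) hi hs j'))
      (by rw [e1 _ (.inr le_rfl), lst_ge _ _ _ _ _ (by omega), update_of_ne (by omega)])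
      (fun z hz => by
        rw [e1 _ (.inr (by omega)), lst_ge _ _ _ _ _ (by omega), update_of_ne (by omega)])
    refine Run.mono (Nat.pow_le_pow_right (by omega) (hFj j)) (run_of_eq h4 ?_)
    exact congrArg (update s' _) (Eq.trans (congrArg (fun (v : Fin (Tup.n ℕ + 1 + Tup.n S) → ℕ) =>
      Tup.get (h x (Tup.of fun i => v (Fin.castAdd _ (Fin.castAdd _ i)))
        (v (Fin.castAdd _ (Fin.natAdd _ 0))) (Tup.of fun i => v (Fin.natAdd _ i))) j) e2)
      (hval j))
  · refine run_of_eq (run_clear 0 _) ?_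
    rw [lst_update_zero, update_idem]
    congr 1
    funext v
    by_cases h : v = 0
    · subst h; rw [update_self]
    · rw [update_of_ne h]

section loop

variable {x : List α} {h : List α → ℕ → ℕ → S → S} {d : Fin (Tup.n S) → Cmd α} {F : ℕ}

theorem gloop_complete {B : ℕ} (hF : 2 ≤ F)
    (hrun : ∀ (g i c : ℕ) (s : S), g < B → i < B → Lt s B → Run x (B ^ F) (gbody (Tup.n S) d)
        (lst (update (fun _ => 0) 0 g) 1 (Tup.get s) i (c + 1))
        (lst (fun _ => 0) 1 (Tup.get (h x g i s)) (i + 1) c))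
    (c i : ℕ) (s : S) (gs : List ℕ) (hc : gs.length = c) (hgs : ∀ g ∈ gs, g < B)
    (hi : i + c ≤ B) (hs : ∀ k < c, Lt (grun (h x) i s (gs.take k)) B) :
    NRun x (B ^ F) (gloop (Tup.n S) d) (lst (fun _ => 0) 1 (Tup.get s) i c) gs
      (lst (fun _ => 0) 1 (Tup.get (grun (h x) i s gs)) (i + c) 0) := by
  induction c generalizing i s gs with
  | zero =>
    have : gs = [] := List.eq_nil_of_length_eq_zero hc
    subst this
    exact .loopDone (lst_c _ _ _ _ _)
  | succ c ih =>
    obtain ⟨g, gs, rfl⟩ : ∃ g gs', gs = g :: gs' := by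
      cases gs with
      | nil => simp at hc
      | cons g gs => exact ⟨g, gs, rfl⟩
    have hg : g < B := hgs g (by simp)
    have h1 : NRun x (B ^ F) (.seq (.guess 0) (emb (gbody (Tup.n S) d)))
        (lst (fun _ => 0) 1 (Tup.get s) i (c + 1)) ([g] ++ [])
        (lst (fun _ => 0) 1 (Tup.get (h x g i s)) (i + 1) c) := by
      refine .seq (.guess 0 _ g (hg.trans_le (Nat.le_self_pow (by omega) B))) ?_
      rw [lst_update_zero]
      exact nrun_of_run (hrun g i c s hg (by omega) (hs 0 (by omega)))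
    have h2 := ih (i + 1) (h x g i s) gs (by simpa using hc) (fun g' hg' => hgs g' (by simp [hg']))
      (by omega) (fun k hk => by
        have := hs (k + 1) (by omega)
        rwa [List.take_succ_cons, grun] at this)
    have h3 := NRun.loopStep (by rw [lst_c]; omega) h1 h2
    rw [grun]
    have e : i + 1 + c = i + (c + 1) := by omega
    rw [e] at h3
    exact h3

theorem gloop_sound {B : ℕ}
    (hrun : ∀ (B : ℕ), 2 ≤ B → K x < B → ∀ (g i c : ℕ) (s : S), g < B → i < B → Lt s B →
      Run x (B ^ F) (gbody (Tup.n S) d)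
        (lst (update (fun _ => 0) 0 g) 1 (Tup.get s) i (c + 1))
        (lst (fun _ => 0) 1 (Tup.get (h x g i s)) (i + 1) c))
    (c i : ℕ) (s : S) (gs : List ℕ) (t : ℕ → ℕ)
    (hr : NRun x B (gloop (Tup.n S) d) (lst (fun _ => 0) 1 (Tup.get s) i c) gs t) :
    gs.length = c ∧ (∀ g ∈ gs, g < B) ∧
      t = lst (fun _ => 0) 1 (Tup.get (grun (h x) i s gs)) (i + c) 0 := by
  induction c generalizing i s gs with
  | zero =>
    unfold gloop at hr
    cases hr with
    | loopDone _ => exact ⟨rfl, by simp, rfl⟩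
    | loopStep h0 _ _ => exact absurd (lst_c _ _ _ _ _) h0
  | succ c ih =>
    unfold gloop at hr
    cases hr with
    | loopDone h0 =>
      rw [lst_c] at h0
      omega
    | loopStep h0 r1 r2 =>
      cases r1 with
      | seq ra rb =>
        cases ra with
        | guess v s' a ha =>
          rw [lst_update_zero] at rb
          obtain ⟨B', hB'⟩ : ∃ B', B' = 2 + K x + a + i + ∑ j, Tup.get s j + 1 := ⟨_, rfl⟩
          have hs : Lt s B' := fun j => by
            have := Finset.single_le_sum (f := Tup.get s) (fun i _ => Nat.zero_le _)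
              (Finset.mem_univ j)
            omega
          obtain ⟨e1, e2⟩ := nrun_emb rb (hrun B' (by omega) (by omega) a i c s (by omega)
            (by omega) hs)
          subst e1 e2
          obtain ⟨h1, h2, h3⟩ := ih (i + 1) (h x a i s) _ r2
          refine ⟨by simp [h1], ?_, ?_⟩
          · intro g hg
            rcases List.mem_cons.1 (by simpa using hg) with h | h
            · rw [h]; exact ha
            · exact h2 g h
          · rw [h3]
            have e : i + 1 + c = i + (c + 1) := by omega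
            rw [e]
            rfl

end loop

/-- The program: start values, a loop with one guess in each round, output; and all its runs. -/
theorem guess_loop {h : List α → ℕ → ℕ → S → S} {s₀ : List α → S} {T : List α → ℕ}
    {out : List α → S → ℕ} (hh : Comp K fun x (p : ℕ × ℕ × S) => h x p.1 p.2.1 p.2.2)
    (hs : Comp K fun x (_ : Unit) => s₀ x) (hT : Comp K fun x (_ : Unit) => T x)
    (ho : Comp K out) : ∃ (c : NCmd α) (e : ℕ), ∀ x : List α,
      (∀ (B : ℕ) (gs : List ℕ) (t : ℕ → ℕ), NRun x B c (fun _ => 0) gs t →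
        gs.length = T x ∧ (∀ g ∈ gs, g < B) ∧ t 0 = out x (grun (h x) 0 (s₀ x) gs)) ∧
      (∀ (B : ℕ) (gs : List ℕ), 2 ≤ B → K x < B → gs.length = T x → (∀ g ∈ gs, g < B) →
        (∀ k ≤ T x, Lt (grun (h x) 0 (s₀ x) (gs.take k)) B) →
        ∃ t, NRun x (B ^ e) c (fun _ => 0) gs t ∧ t 0 = out x (grun (h x) 0 (s₀ x) gs)) := by
  obtain ⟨d, F, hF, hbody⟩ := body_run hh
  choose es bs ps using fun j => hs j
  obtain ⟨eT, bT, pT⟩ := Comp.nat.1 hT
  obtain ⟨eo, bo, po⟩ := Comp.nat.1 ho
  obtain ⟨m, hm⟩ : ∃ m, m = Tup.n S := ⟨_, rfl⟩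
  choose cs hcs using fun j : Fin (Tup.n S) => ps j Fin.elim0 (1 + j.val)
    (1 + Tup.n S + 2) (fun i => i.elim0) (by omega) (fun i => i.elim0)
  obtain ⟨cT, hcT⟩ := pT Fin.elim0 (1 + Tup.n S + 1) (1 + Tup.n S + 2) (fun i => i.elim0)
    (by omega) (fun i => i.elim0)
  obtain ⟨co, hco⟩ := po (fun j => 1 + j.val) 0 (1 + Tup.n S + 2) (fun j => by omega) (by omega)
    (fun j => by omega)
  obtain ⟨E, hE⟩ : ∃ E, E = 1 + ∑ j, es j + eT + eo := ⟨_, rfl⟩
  have hEj : ∀ j, es j ≤ E := fun j => by
    have := Finset.single_le_sum (f := es) (fun i _ => Nat.zero_le _) (Finset.mem_univ j)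
    omega
  have hpw : ∀ {B i j : ℕ}, 2 ≤ B → i ≤ j → B ^ i ≤ B ^ j := fun hB h =>
    Nat.pow_le_pow_right (by omega) h
  -- the initial part
  have r1 : ∀ (x : List α) (B : ℕ), 2 ≤ B → K x < B → Run x (B ^ E)
      (.seq (seqAll (Tup.n S) cs) cT) (fun _ => 0) (lst (fun _ => 0) 1 (Tup.get (s₀ x)) 0 (T x)) := by
    intro x B hB hx
    have ra : Run x (B ^ E) (seqAll (Tup.n S) cs) (fun _ => 0)
        (blk (fun _ => 0) 1 (Tup.get (s₀ x))) := by
      refine run_seqAll cs _ _ fun j s' hs' => ?_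
      have e1 : ∀ v, v < 1 ∨ 1 + j.val ≤ v → s' v = 0 := fun v hv => by
        rcases hs' v with h | h
        · omega
        · exact h
      exact Run.mono (hpw hB (hEj j)) (hcs j x B s' hB hx (fun i => i.elim0)
        (e1 _ (.inr le_rfl)) (fun v hv => e1 _ (.inr (by omega))))
    refine .seq ra ?_
    have rb := hcT x B (blk (fun _ => 0) 1 (Tup.get (s₀ x))) hB hx (fun i => i.elim0)
      (blk_of_ge _ _ _ (by omega)) (fun v hv => blk_of_ge _ _ _ (by omega))
    refine run_of_eq (Run.mono (hpw hB (by omega)) rb) ?_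
    funext z
    by_cases h1 : z = 1 + Tup.n S + 1
    · subst h1; rw [update_self, lst_c]
    · rw [update_of_ne h1, lst, blk]
      by_cases h2 : 1 ≤ z ∧ z < 1 + Tup.n S
      · rw [dif_pos h2, dif_pos h2]
      · rw [dif_neg h2, dif_neg h2]
        by_cases h3 : z = 1 + Tup.n S
        · rw [if_pos h3]
        · rw [if_neg h3, if_neg h1]
  -- the output
  have r3 : ∀ (x : List α) (B i : ℕ) (s : S), 2 ≤ B → K x < B → Lt s B → Run x (B ^ E) co
      (lst (fun _ => 0) 1 (Tup.get s) i 0)
      (update (lst (fun _ => 0) 1 (Tup.get s) i 0) 0 (out x s)) := by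
    intro x B i s hB hx hs
    have h1 : (fun j : Fin (Tup.n S) => lst (fun _ => 0) 1 (Tup.get s) i 0 (1 + j.val)) =
        Tup.get s := by
      funext j
      rw [lst_w]
    have ra := hco x B (lst (fun _ => 0) 1 (Tup.get s) i 0) hB hx
      (fun j => (congrFun h1 j).trans_lt (hs j)) (lst_lt _ _ _ _ _ (by omega))
      (fun v hv => lst_ge _ _ _ _ _ (by omega))
    have h2 : out x (Tup.of fun j : Fin (Tup.n S) =>
        lst (fun _ => 0) 1 (Tup.get s) i 0 (1 + j.val)) = out x s := by
      rw [h1, Tup.of_get]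
    exact Run.mono (hpw hB (by omega)) (run_of_eq ra (congrArg (update _ 0) h2))
  refine ⟨.seq (emb (.seq (seqAll (Tup.n S) cs) cT)) (.seq (gloop (Tup.n S) d) (emb co)),
    E * F, fun x => ⟨fun B gs t hr => ?_, fun B gs hB hx hgs hg hst => ?_⟩⟩
  · cases hr with
    | seq ra rb =>
      obtain ⟨e1, e2⟩ := nrun_emb ra (r1 x (2 + K x + 1) (by omega) (by omega))
      subst e1 e2
      cases rb with
      | @seq _ _ _ t₁ _ g₁ g₂ rc rd =>
        obtain ⟨h1, h2, h3⟩ := gloop_sound (x := x) (h := h)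
          (fun B hB hx g i c s => hbody x B hB hx g i c s) (T x) 0 (s₀ x) g₁ t₁ rc
        subst h3
        obtain ⟨S₁, hS₁⟩ : ∃ S₁, S₁ = grun (h x) 0 (s₀ x) g₁ := ⟨_, rfl⟩
        rw [← hS₁] at rd
        obtain ⟨e1, e2⟩ := nrun_emb rd (r3 x (2 + K x + ∑ j, Tup.get S₁ j + 1)
          (0 + T x) S₁ (by omega) (by omega) (fun j => by
            have := Finset.single_le_sum (f := Tup.get S₁)
              (fun i _ => Nat.zero_le _) (Finset.mem_univ j)
            omega))
        subst e1 e2
        rw [update_self, hS₁]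
        simp only [List.nil_append, List.append_nil]
        exact ⟨h1, h2, trivial⟩
  · have hBE : B ≤ B ^ E := Nat.le_self_pow (by omega) B
    have hT' : T x < B ^ E := (bT x B Fin.elim0 hB hx (fun i => i.elim0)).trans_le
      (hpw hB (by omega))
    have hEF : B ^ E ≤ B ^ (E * F) := hpw hB (Nat.le_mul_of_pos_right E (by omega))
    have rb := gloop_complete (x := x) (h := h) (d := d) (F := F) (B := B ^ E) hF
      (fun g i c s => hbody x (B ^ E) (by omega) (by omega) g i c s) (T x) 0 (s₀ x) gs hgs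
      (fun g hg' => (hg g hg').trans_le hBE) (by omega)
      (fun k hk => (hst k (by omega)).mono hBE)
    have hfin : Lt (grun (h x) 0 (s₀ x) gs) B := by
      have := hst (T x) le_rfl
      rwa [← hgs, List.take_length] at this
    have rc := r3 x B (0 + T x) (grun (h x) 0 (s₀ x) gs) hB hx hfin
    rw [← pow_mul] at rb
    refine ⟨_, ?_, update_self (f := lst (fun _ => 0) 1 (Tup.get (grun (h x) 0 (s₀ x) gs))
      (0 + T x) 0) 0 (out x (grun (h x) 0 (s₀ x) gs))⟩
    have r := NRun.seq (nrun_of_run (Run.mono hEF (r1 x B hB hx)))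
      (NRun.seq rb (nrun_of_run (Run.mono hEF rc)))
    simpa using r

end SP

end Pool.Agent.MP_6216ea_lc
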