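import Pool.Agent.Lib.MP_6216ea_lc.SN.Dig
import Pool.Agent.Lib.MP_6216ea_lc.SN.Loop

/-! The numeric form of the machine. -/

set_option autoImplicit false

namespace Pool.Agent.MP_6216ea_lc

namespace SN

open Function SP

/-- The parameters of the numeric machine: modulus, base and number of the digits, number of
composites. -/
structure Mp where
  p : ℕ
  e : ℕ
  D : ℕ
  g : ℕ
  pr : Pr

/-- The numeric states: flag (`0`: no failure), clear value, questions, answers, fingerprints,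
registers. -/
abbrev SS : Type := ℕ × ℕ × ℕ × ℕ × ℕ × ℕ

variable (M : Mp)

/-- The entries of `t x`. -/
def tN (x u : ℕ) : ℕ :=
  if u < M.D then dgt M.e x u else (∑ u ∈ Finset.range M.D, dgt M.e x u * dgt M.e x u) % M.p

/-- The value `χ x v`. -/
def chN (x : ℕ) (v : ℕ → ℕ) : ℕ :=
  (v M.D + (M.p - 2 * (∑ u ∈ Finset.range M.D, dgt M.e x u * v u) % M.p)) % M.p

/-- The new digits of the registers. -/
def newR (o : Op) (g R l : ℕ) : ℕ :=
  (if l / (M.D + 1) + 1 = o.kc then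
      dgt M.p R l + (M.p - o.m * tN M o.w (l % (M.D + 1)) % M.p)
    else if l / (M.D + 1) / 7 + 1 = o.lu ∧ InS o.ju (l / (M.D + 1) % 7) then
      dgt M.p R l + tN M (dec M.pr.N g (l / (M.D + 1) % 7)) (l % (M.D + 1))
    else dgt M.p R l) % M.p

/-- The new digits of the fingerprints. -/
def newF (o : Op) (c Φ R l : ℕ) : ℕ :=
  (if l % (M.g + 1) = c then
    (if l / (M.g + 1) + 1 = o.ks then
        chN M o.w fun u => dgt M.p R (l / (M.g + 1) * (M.D + 1) + u)
      else if l / (M.g + 1) + 1 = o.kc ∨ l / (M.g + 1) < o.z then 0 else dgt M.p Φ l)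
  else dgt M.p Φ l) % M.p

/-- The numeric check. -/
def okN (o : Op) (c Φ R : ℕ) : Prop :=
  o.kc = 0 ∨ chN M o.w (fun u => dgt M.p R ((o.kc - 1) * (M.D + 1) + u) +
    (M.p - o.m * tN M o.w u % M.p)) = dgt M.p Φ ((o.kc - 1) * (M.g + 1) + c)

instance (o : Op) (c Φ R : ℕ) : Decidable (okN M o c Φ R) :=
  inferInstanceAs (Decidable (_ ∨ _))

instance (N : ℕ) (v : Nd) (g : ℕ) : Decidable (gok N v g) := by
  unfold gok
  infer_instance

/-- The new numeric state. -/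
def nxN (o : Op) (g c : ℕ) (X : SS) : SS :=
  (0, o.cc, DU.Nm.pack M.pr.N (fun l => if l = c then o.qq % M.pr.N else dgt M.pr.N X.2.2.1 l)
      (M.g + 1),
    DU.Nm.pack M.pr.N (fun l => if l = c then o.aa % M.pr.N else dgt M.pr.N X.2.2.2.1 l)
      (M.g + 1),
    DU.Nm.pack M.p (newF M o c X.2.2.2.2.1 X.2.2.2.2.2) (7 * (M.pr.b + 1) * (M.g + 1)),
    DU.Nm.pack M.p (newR M o g X.2.2.2.2.2) (7 * (M.pr.b + 1) * (M.D + 1)))

/-- The elementary step of a node. -/
def oN (v : Nd) (g : ℕ) (X : SS) : Op :=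
  op M.pr v g X.2.1 (dgt M.pr.N X.2.2.1 v.2.1) (dgt M.pr.N X.2.2.2.1 v.2.1)

/-- The numeric step. -/
def stN (v : Nd) (g : ℕ) (X : SS) : SS :=
  if X.1 = 0 ∧ gok M.pr.N v g ∧ okN M (oN M v g X) v.2.1 X.2.2.2.2.1 X.2.2.2.2.2 then
    nxN M (oN M v g X) g v.2.1 X
  else (1, X.2)

/-- The state of the machine. -/
def view (X : SS) : St (ℕ → ZMod M.p) (ZMod M.p) where
  c := X.2.1
  fr c := if c ≤ M.g then ⟨dgt M.pr.N X.2.2.1 c, dgt M.pr.N X.2.2.2.1 c,
    fun κ => if κ < 7 * (M.pr.b + 1) then (dgt M.p X.2.2.2.2.1 (κ * (M.g + 1) + c) : ZMod M.p)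
      else 0⟩ else fr0 (ZMod M.p)
  r κ u := if κ < 7 * (M.pr.b + 1) ∧ u ≤ M.D then
    (dgt M.p X.2.2.2.2.2 (κ * (M.D + 1) + u) : ZMod M.p) else 0

/-- The parameters are admissible. -/
structure Mp.Ok : Prop where
  pr : M.pr.Ok
  e_pos : 0 < M.e
  N_le : M.pr.N ≤ M.e ^ M.D
  p_big : 25 * (M.D * M.e ^ 2) < M.p

variable {M}

theorem Mp.Ok.p_pos (h : M.Ok) : 0 < M.p := lt_of_le_of_lt (Nat.zero_le _) h.p_big

/-- The fingerprints. -/
def fp (h : M.Ok) : FP (ℕ → ZMod M.p) (ZMod M.p) M.pr.N 25 :=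
  FP.dig M.p M.e M.D M.pr.N 25 h.e_pos h.N_le h.p_big

theorem dgt_lt {p : ℕ} (hp : 0 < p) (x u : ℕ) : dgt p x u < p := Nat.mod_lt _ hp

theorem cast_neg_mod (p a : ℕ) (hp : 0 < p) : ((p - a % p : ℕ) : ZMod p) = -(a : ZMod p) := by
  rw [Nat.cast_sub (Nat.mod_lt a hp).le, ZMod.natCast_mod]
  simp

theorem cast_tN (x u : ℕ) (hu : u ≤ M.D) :
    ((tN M x u : ℕ) : ZMod M.p) = tv M.p M.e M.D x u := by
  unfold tN tv
  by_cases h : u < M.D
  · rw [if_pos h, if_pos h]
  · rw [if_neg h, if_neg h, if_pos (by omega), ZMod.natCast_mod, Nat.cast_sum]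
    exact Finset.sum_congr rfl fun u _ => by push_cast; ring

theorem cast_chN (hp : 0 < M.p) (x : ℕ) (v : ℕ → ℕ) (V : ℕ → ZMod M.p)
    (h : ∀ u ≤ M.D, (v u : ZMod M.p) = V u) :
    ((chN M x v : ℕ) : ZMod M.p) = ch M.p M.e M.D x V := by
  unfold chN
  rw [ZMod.natCast_mod, Nat.cast_add, cast_neg_mod _ _ hp, ch_apply, h M.D le_rfl,
    ← sub_eq_add_neg, Nat.cast_mul, Nat.cast_sum]
  congr 2
  refine Finset.sum_congr rfl fun u hu => ?_
  rw [Nat.cast_mul, h u (Finset.mem_range.1 hu).le]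

theorem chN_lt (hp : 0 < M.p) (x : ℕ) (v : ℕ → ℕ) : chN M x v < M.p := Nat.mod_lt _ hp

theorem cast_inj {p a b : ℕ} (ha : a < p) (hb : b < p) : (a : ZMod p) = (b : ZMod p) ↔ a = b := by
  rw [ZMod.natCast_eq_natCast_iff']
  rw [Nat.mod_eq_of_lt ha, Nat.mod_eq_of_lt hb]

theorem dgt_pack {p : ℕ} {d : ℕ → ℕ} {n l : ℕ} (hd : ∀ l, d l < p) (hl : l < n) :
    dgt p (DU.Nm.pack p d n) l = d l := DU.Nm.pack_digit n (fun l _ => hd l) l hl

theorem blk_div {n κ u : ℕ} (hu : u ≤ n) : (κ * (n + 1) + u) / (n + 1) = κ := by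
  rw [Nat.add_comm, Nat.add_mul_div_right _ _ (by omega), Nat.div_eq_of_lt (by omega),
    Nat.zero_add]

theorem blk_mod {n κ u : ℕ} (hu : u ≤ n) : (κ * (n + 1) + u) % (n + 1) = u := by
  rw [Nat.add_comm, Nat.add_mul_mod_self_right, Nat.mod_eq_of_lt (by omega)]

theorem blk_lt {n κ m u : ℕ} (hu : u ≤ n) (hκ : κ < m) : κ * (n + 1) + u < m * (n + 1) :=
  calc κ * (n + 1) + u < κ * (n + 1) + (n + 1) := by omega
    _ = (κ + 1) * (n + 1) := by ring
    _ ≤ m * (n + 1) := Nat.mul_le_mul_right _ hκ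

/-- The elementary step concerns the registers less than `7 (b + 1)`. -/
def Op.Bd (o : Op) (b : ℕ) : Prop :=
  o.ks ≤ 7 * (b + 1) ∧ o.kc ≤ 7 * (b + 1) ∧ o.lu ≤ b + 1

theorem view_fr (X : SS) {c : ℕ} (hc : c ≤ M.g) : (view M X).fr c =
    ⟨dgt M.pr.N X.2.2.1 c, dgt M.pr.N X.2.2.2.1 c,
    fun κ => if κ < 7 * (M.pr.b + 1) then (dgt M.p X.2.2.2.2.1 (κ * (M.g + 1) + c) : ZMod M.p)
      else 0⟩ := if_pos hc

/-- The check. -/
theorem okN_iff (h : M.Ok) {o : Op} (ho : o.Bd M.pr.b) {c : ℕ} (hc : c ≤ M.g) (X : SS) :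
    okN M o c X.2.2.2.2.1 X.2.2.2.2.2 ↔ okO (fp h) o c (view M X) := by
  have hp := h.p_pos
  unfold okN okO
  by_cases h0 : o.kc = 0
  · rw [h0]
    simp
  obtain ⟨κ, hκ⟩ : ∃ κ, κ + 1 = o.kc := ⟨o.kc - 1, by omega⟩
  have hκb : κ < 7 * (M.pr.b + 1) := by
    have := ho.2.1
    omega
  rw [← hκ, Nat.add_sub_cancel]
  have e1 : (∀ κ', κ' + 1 = κ + 1 → (fp h).χ o.w ((view M X).r κ' - o.m • (fp h).t o.w) =
      ((view M X).fr c).φ κ') ↔ (fp h).χ o.w ((view M X).r κ - o.m • (fp h).t o.w) =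
      ((view M X).fr c).φ κ := by
    constructor
    · intro h
      exact h κ rfl
    · intro h κ' hκ'
      have : κ' = κ := by omega
      subst this
      exact h
  rw [e1, view_fr X hc]
  change κ + 1 = 0 ∨ _ ↔ _ = if κ < 7 * (M.pr.b + 1) then
    (dgt M.p X.2.2.2.2.1 (κ * (M.g + 1) + c) : ZMod M.p) else 0
  rw [if_pos hκb]
  have e2 : (fp h).χ o.w ((view M X).r κ - o.m • (fp h).t o.w) =
      ((chN M o.w (fun u => dgt M.p X.2.2.2.2.2 (κ * (M.D + 1) + u) +
        (M.p - o.m * tN M o.w u % M.p)) : ℕ) : ZMod M.p) := by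
    refine (cast_chN hp o.w _ _ fun u hu => ?_).symm
    rw [Nat.cast_add, cast_neg_mod _ _ hp, Nat.cast_mul, cast_tN _ _ hu, ← sub_eq_add_neg]
    change _ = (if κ < 7 * (M.pr.b + 1) ∧ u ≤ M.D then
      (dgt M.p X.2.2.2.2.2 (κ * (M.D + 1) + u) : ZMod M.p) else 0) -
        (o.m • (tv M.p M.e M.D o.w)) u
    rw [if_pos ⟨hκb, hu⟩, Pi.smul_apply, nsmul_eq_mul]
  rw [e2, cast_inj (chN_lt hp _ _) (dgt_lt hp _ _)]
  constructor
  · rintro (h | h)
    · omega
    · exact h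
  · exact Or.inr

theorem newR_lt (hp : 0 < M.p) (o : Op) (g R l : ℕ) : newR M o g R l < M.p := Nat.mod_lt _ hp

theorem newF_lt (hp : 0 < M.p) (o : Op) (c Φ R l : ℕ) : newF M o c Φ R l < M.p :=
  Nat.mod_lt _ hp

/-- The new state. -/
theorem view_nxN (h : M.Ok) {o : Op} (ho : o.Bd M.pr.b) {c : ℕ} (hc : c ≤ M.g) (X : SS)
    (g : ℕ) (hq : o.qq < M.pr.N) (ha : o.aa < M.pr.N) :
    view M (nxN M o g c X) = nxt (fp h) o (dec M.pr.N g) c (view M X) := by
  have hp := h.p_pos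
  have hN := h.pr.N_pos
  obtain ⟨ho1, ho2, ho3⟩ := ho
  have hd : ∀ Z : ℕ, ∀ v : ℕ, v < M.pr.N → ∀ l, (if l = c then v % M.pr.N else dgt M.pr.N Z l) <
      M.pr.N := by
    intro Z v hv l
    split_ifs
    · exact Nat.mod_lt _ hN
    · exact dgt_lt hN _ _
  apply St.ext
  · rfl
  · funext c'
    by_cases hc' : c' ≤ M.g
    · rw [view_fr _ hc']
      change _ = update (view M X).fr c _ c'
      by_cases hcc : c' = c
      · subst hcc
        rw [update_self]
        apply Fr.ext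
        · change dgt M.pr.N (DU.Nm.pack M.pr.N _ (M.g + 1)) c' = o.qq
          rw [dgt_pack (hd _ _ hq) (by omega), if_pos rfl, Nat.mod_eq_of_lt hq]
        · change dgt M.pr.N (DU.Nm.pack M.pr.N _ (M.g + 1)) c' = o.aa
          rw [dgt_pack (hd _ _ ha) (by omega), if_pos rfl, Nat.mod_eq_of_lt ha]
        · funext κ
          rw [view_fr X hc']
          change (if κ < 7 * (M.pr.b + 1) then (dgt M.p (DU.Nm.pack M.p
            (newF M o c' X.2.2.2.2.1 X.2.2.2.2.2) (7 * (M.pr.b + 1) * (M.g + 1)))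
              (κ * (M.g + 1) + c') : ZMod M.p) else 0) = if κ + 1 = o.ks then
              (fp h).χ o.w ((view M X).r κ) else if κ + 1 = o.kc ∨ κ < o.z then 0 else
              if κ < 7 * (M.pr.b + 1) then
                (dgt M.p X.2.2.2.2.1 (κ * (M.g + 1) + c') : ZMod M.p) else 0
          by_cases hκ : κ < 7 * (M.pr.b + 1)
          · rw [if_pos hκ, if_pos hκ, dgt_pack (fun l => newF_lt hp _ _ _ _ _) (blk_lt hc' hκ)]
            unfold newF
            rw [blk_div hc', blk_mod hc', if_pos rfl, ZMod.natCast_mod]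
            by_cases h1 : κ + 1 = o.ks
            · rw [if_pos h1, if_pos h1]
              refine cast_chN hp o.w _ _ fun u hu => ?_
              exact (if_pos ⟨hκ, hu⟩).symm
            · rw [if_neg h1, if_neg h1]
              by_cases h2 : κ + 1 = o.kc ∨ κ < o.z
              · rw [if_pos h2, if_pos h2, Nat.cast_zero]
              · rw [if_neg h2, if_neg h2]
          · rw [if_neg hκ, if_neg (by omega), if_neg hκ]
            split_ifs <;> rfl
      · rw [update_of_ne hcc, view_fr X hc']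
        apply Fr.ext
        · change dgt M.pr.N (DU.Nm.pack M.pr.N _ (M.g + 1)) c' = _
          rw [dgt_pack (hd _ _ hq) (by omega), if_neg hcc]
        · change dgt M.pr.N (DU.Nm.pack M.pr.N _ (M.g + 1)) c' = _
          rw [dgt_pack (hd _ _ ha) (by omega), if_neg hcc]
        · funext κ
          change (if κ < 7 * (M.pr.b + 1) then (dgt M.p (DU.Nm.pack M.p
            (newF M o c X.2.2.2.2.1 X.2.2.2.2.2) (7 * (M.pr.b + 1) * (M.g + 1)))
              (κ * (M.g + 1) + c') : ZMod M.p) else 0) = if κ < 7 * (M.pr.b + 1) then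
                (dgt M.p X.2.2.2.2.1 (κ * (M.g + 1) + c') : ZMod M.p) else 0
          by_cases hκ : κ < 7 * (M.pr.b + 1)
          · rw [if_pos hκ, if_pos hκ, dgt_pack (fun l => newF_lt hp _ _ _ _ _) (blk_lt hc' hκ)]
            unfold newF
            rw [blk_mod hc', if_neg hcc, ZMod.natCast_mod]
          · rw [if_neg hκ, if_neg hκ]
    · have h1 : ∀ Z : SS, (view M Z).fr c' = fr0 (ZMod M.p) := fun Z => if_neg hc'
      change (view M (nxN M o g c X)).fr c' = update (view M X).fr c _ c'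
      rw [h1, update_of_ne (by omega), h1]
  · funext κ
    have hrv : ∀ κ' u, (view M X).r κ' u = if κ' < 7 * (M.pr.b + 1) ∧ u ≤ M.D then
      (dgt M.p X.2.2.2.2.2 (κ' * (M.D + 1) + u) : ZMod M.p) else 0 := fun _ _ => rfl
    have hrn : ∀ u, (view M (nxN M o g c X)).r κ u = if κ < 7 * (M.pr.b + 1) ∧ u ≤ M.D then
      (dgt M.p (DU.Nm.pack M.p (newR M o g X.2.2.2.2.2) (7 * (M.pr.b + 1) * (M.D + 1)))
        (κ * (M.D + 1) + u) : ZMod M.p) else 0 := fun _ => rfl
    have htv : ∀ x u, (fp h).t x u = tv M.p M.e M.D x u := fun _ _ => rfl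
    have htv0 : ∀ x u, ¬ u ≤ M.D → tv M.p M.e M.D x u = 0 := fun x u hu => by
      unfold tv
      rw [if_neg (by omega), if_neg (by omega)]
    funext u
    rw [hrn]
    change _ = (if κ + 1 = o.kc then (view M X).r κ - o.m • (fp h).t o.w
      else if κ / 7 + 1 = o.lu ∧ InS o.ju (κ % 7) then
        (view M X).r κ + (fp h).t (dec M.pr.N g (κ % 7)) else (view M X).r κ) u
    by_cases hκ : κ < 7 * (M.pr.b + 1)
    · by_cases hu : u ≤ M.D
      · rw [if_pos ⟨hκ, hu⟩, dgt_pack (fun l => newR_lt hp _ _ _ _) (blk_lt hu hκ)]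
        unfold newR
        rw [blk_div hu, blk_mod hu, ZMod.natCast_mod]
        by_cases h1 : κ + 1 = o.kc
        · rw [if_pos h1, if_pos h1, Pi.sub_apply, Pi.smul_apply, hrv, if_pos ⟨hκ, hu⟩, htv,
            Nat.cast_add, cast_neg_mod _ _ hp, Nat.cast_mul, cast_tN _ _ hu, nsmul_eq_mul,
            sub_eq_add_neg]
        · rw [if_neg h1, if_neg h1]
          by_cases h2 : κ / 7 + 1 = o.lu ∧ InS o.ju (κ % 7)
          · rw [if_pos h2, if_pos h2, Pi.add_apply, hrv, if_pos ⟨hκ, hu⟩, htv, Nat.cast_add,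
              cast_tN _ _ hu]
          · rw [if_neg h2, if_neg h2, hrv, if_pos ⟨hκ, hu⟩]
      · rw [if_neg fun h' => hu h'.2]
        by_cases h1 : κ + 1 = o.kc
        · rw [if_pos h1, Pi.sub_apply, Pi.smul_apply, hrv, if_neg (fun h' => hu h'.2), htv,
            htv0 _ _ hu]
          simp
        · rw [if_neg h1]
          by_cases h2 : κ / 7 + 1 = o.lu ∧ InS o.ju (κ % 7)
          · rw [if_pos h2, Pi.add_apply, hrv, if_neg (fun h' => hu h'.2), htv, htv0 _ _ hu]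
            simp
          · rw [if_neg h2, hrv, if_neg fun h' => hu h'.2]
    · rw [if_neg (fun h' => hκ h'.1), if_neg (by omega), if_neg (fun h' => by omega), hrv,
        if_neg fun h' => hκ h'.1]

end SN

end Pool.Agent.MP_6216ea_lc
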