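import Pool.Agent.Lib.MP_6216ea_lc.SN.Comps
import Pool.Agent.Lib.MP_6216ea_lc.SN.Num

/-! The runs of the numeric machine. -/

set_option autoImplicit false

namespace Pool.Agent.MP_6216ea_lc

namespace SN

open Function SP

/-- The nodes which occur. -/
def NOk (b g : ℕ) (v : Nd) : Prop :=
  v.1 ≤ 9 ∧ v.2.1 ≤ g ∧ v.2.2.1 ≤ b ∧ v.2.2.2.1 < 3 ∧ v.2.2.2.2 < 6 ∧
  (v.1 = 2 ∨ v.1 = 6 → v.2.2.2.1 < 2 → v.2.2.1 + 1 ≤ b) ∧
  (v.1 = 3 ∨ v.1 = 4 ∨ v.1 = 5 → v.2.2.1 + 1 ≤ b)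

theorem nok_child {b g : ℕ} {v : Nd} (hv : NOk b g v) {k : ℕ} (hk : k < 39) :
    NOk b g (child b v k) := by
  obtain ⟨h1, h2, h3, h4, h5, h6, h7⟩ := hv
  unfold child
  split_ifs <;> (unfold NOk; try simp only [idle]) <;> refine ⟨?_, ?_, ?_, ?_, ?_, ?_, ?_⟩ <;>
    first | omega | (intro h; omega) | (intro h h'; omega)

theorem nok_desc {b g i : ℕ} (L : ℕ) {v : Nd} (hv : NOk b g v) :
    NOk b g (desc (fun _ => child b) 39 i L v) := by
  induction L generalizing v with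
  | zero => exact hv
  | succ L ih => exact ih (nok_child hv (Nat.mod_lt _ (by norm_num)))

theorem op_bd {P : Pr} {g : ℕ} {v : Nd} (hv : NOk P.b g v) (x cc q a : ℕ) :
    (op P v x cc q a).Bd P.b := by
  obtain ⟨h1, h2, h3, h4, h5, h6, h7⟩ := hv
  unfold op Op.Bd
  simp only
  refine ⟨?_, ?_, ?_⟩
  · split_ifs <;> omega
  · split_ifs <;> omega
  · split_ifs <;> omega

theorem op_lt {P : Pr} (hP : P.Ok) (v : Nd) (x : ℕ) {cc q a : ℕ} (hc : cc < P.N) (hq : q < P.N)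
    (ha : a < P.N) : (op P v x cc q a).cc < P.N ∧ (op P v x cc q a).qq < P.N ∧
      (op P v x cc q a).aa < P.N := by
  have hN := hP.N_pos
  unfold op
  simp only
  refine ⟨?_, ?_, ?_⟩
  · split_ifs
    · exact hP.base_lt _
    · exact hP.e_lt _ _ _
    · exact dec_lt hN _ _
    · exact ha
    · exact hN
    · exact hc
  · split_ifs
    · exact hc
    · exact hN
    · exact hq
  · split_ifs
    · exact hN
    · exact hc
    · exact ha

variable {M : Mp}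

/-- One step. -/
theorem act_stN (h : M.Ok) {v : Nd} (hv : NOk M.pr.b M.g v) (g : ℕ) (X : SS) (h0 : X.1 = 0)
    (hc : X.2.1 < M.pr.N) (t : St (ℕ → ZMod M.p) (ZMod M.p)) :
    Act (fp h) M.pr v g (view M X) t ↔
      (stN M v g X).1 = 0 ∧ t = view M (stN M v g X) := by
  have hN := h.pr.N_pos
  have hcg : v.2.1 ≤ M.g := hv.2.1
  have e1 : op M.pr v g (view M X).c ((view M X).fr v.2.1).q ((view M X).fr v.2.1).a =
      oN M v g X := by
    rw [view_fr X hcg]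
    rfl
  unfold Act
  have hbd : (oN M v g X).Bd M.pr.b := op_bd hv _ _ _ _
  rw [e1, ← okN_iff h hbd hcg X]
  obtain ⟨h1, h2, h3⟩ := op_lt h.pr v g hc (dgt_lt hN X.2.2.1 v.2.1) (dgt_lt hN X.2.2.2.1 v.2.1)
  rw [← view_nxN h hbd hcg X g h2 h3]
  unfold stN
  by_cases hh : gok M.pr.N v g ∧ okN M (oN M v g X) v.2.1 X.2.2.2.2.1 X.2.2.2.2.2
  · rw [if_pos ⟨h0, hh⟩]
    constructor
    · rintro ⟨-, -, h4⟩
      exact ⟨rfl, h4⟩
    · rintro ⟨-, h4⟩
      exact ⟨hh.1, hh.2, h4⟩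
  · rw [if_neg fun h' => hh h'.2]
    constructor
    · rintro ⟨h4, h5, -⟩
      exact absurd ⟨h4, h5⟩ hh
    · rintro ⟨h4, -⟩
      exact absurd h4 one_ne_zero

theorem stN_flag {v : Nd} {g : ℕ} {X : SS} (h0 : X.1 ≠ 0) : (stN M v g X).1 ≠ 0 := by
  unfold stN
  rw [if_neg fun h => h0 h.1]
  exact one_ne_zero

theorem stN_gok {v : Nd} {g : ℕ} {X : SS} (h0 : (stN M v g X).1 = 0) : gok M.pr.N v g := by
  unfold stN at h0
  split_ifs at h0 with h
  exact h.2.1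

/-- The bounds for the states. -/
def Sm (M : Mp) (X : SS) : Prop :=
  X.1 ≤ 1 ∧ X.2.1 < M.pr.N ∧ X.2.2.1 < M.pr.N ^ (M.g + 1) ∧ X.2.2.2.1 < M.pr.N ^ (M.g + 1) ∧
    X.2.2.2.2.1 < M.p ^ (7 * (M.pr.b + 1) * (M.g + 1)) ∧
    X.2.2.2.2.2 < M.p ^ (7 * (M.pr.b + 1) * (M.D + 1))

theorem sm_stN (h : M.Ok) (v : Nd) (g : ℕ) {X : SS} (hX : Sm M X) : Sm M (stN M v g X) := by
  have hN := h.pr.N_pos
  have hp := h.p_pos
  obtain ⟨h1, h2, h3⟩ := op_lt h.pr v g hX.2.1 (dgt_lt hN X.2.2.1 v.2.1)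
    (dgt_lt hN X.2.2.2.1 v.2.1)
  unfold stN
  split_ifs
  · refine ⟨Nat.zero_le _, h1, DU.Nm.pack_lt _ fun l _ => ?_, DU.Nm.pack_lt _ fun l _ => ?_,
      DU.Nm.pack_lt _ fun l _ => newF_lt hp _ _ _ _ _, DU.Nm.pack_lt _ fun l _ =>
      newR_lt hp _ _ _ _⟩
    · split_ifs
      · exact Nat.mod_lt _ hN
      · exact dgt_lt hN _ _
    · split_ifs
      · exact Nat.mod_lt _ hN
      · exact dgt_lt hN _ _
  · exact ⟨le_rfl, hX.2⟩

section

variable {nd : ℕ → Nd}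

theorem grun_flag (i : ℕ) {X : SS} (gs : List ℕ) (h0 : X.1 ≠ 0) :
    (grun (fun g i X => stN M (nd i) g X) i X gs).1 ≠ 0 := by
  induction gs generalizing i X with
  | nil => exact h0
  | cons g gs ih => exact ih (i + 1) (stN_flag h0)

theorem chain_grun (h : M.Ok) (hnd : ∀ i, NOk M.pr.b M.g (nd i)) (i : ℕ) {X : SS} (gs : List ℕ)
    (h0 : X.1 = 0) (hX : Sm M X) (t : St (ℕ → ZMod M.p) (ZMod M.p)) :
    chain (fun i => Act (fp h) M.pr (nd i)) i (view M X) gs t ↔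
      (grun (fun g i X => stN M (nd i) g X) i X gs).1 = 0 ∧
        t = view M (grun (fun g i X => stN M (nd i) g X) i X gs) := by
  induction gs generalizing i X with
  | nil =>
    constructor
    · intro h1
      exact ⟨h0, h1⟩
    · intro h1
      exact h1.2
  | cons g gs ih =>
    change (∃ u, Act (fp h) M.pr (nd i) g (view M X) u ∧ chain _ (i + 1) u gs t) ↔ _
    rw [grun]
    by_cases h1 : (stN M (nd i) g X).1 = 0
    · rw [← ih (i + 1) h1 (sm_stN h _ _ hX)]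
      constructor
      · rintro ⟨u, h2, h3⟩
        rw [act_stN h (hnd i) g X h0 hX.2.1] at h2
        rw [h2.2] at h3
        exact h3
      · intro h3
        exact ⟨_, (act_stN h (hnd i) g X h0 hX.2.1 _).2 ⟨h1, rfl⟩, h3⟩
    · constructor
      · rintro ⟨u, h2, h3⟩
        rw [act_stN h (hnd i) g X h0 hX.2.1] at h2
        exact absurd h2.1 h1
      · rintro ⟨h2, -⟩
        exact absurd h2 (grun_flag (i + 1) gs h1)

theorem gok_lt {N : ℕ} (hN : 0 < N) {v : Nd} {g : ℕ} (h : gok N v g) : g < N ^ 7 := by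
  have h0 : 0 < N ^ 7 := Nat.pow_pos hN
  unfold gok can at h
  split_ifs at h
  · exact h.1
  · exact h.1
  · exact h.1
  · rw [h]; exact h0

theorem grun_guess (hN : 0 < M.pr.N) (i : ℕ) {X : SS} (gs : List ℕ)
    (h0 : (grun (fun g i X => stN M (nd i) g X) i X gs).1 = 0) : ∀ g ∈ gs, g < M.pr.N ^ 7 := by
  induction gs generalizing i X with
  | nil => simp
  | cons g gs ih =>
    rw [grun] at h0
    intro g' hg'
    rcases List.mem_cons.1 hg' with h1 | h1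
    · rw [h1]
      have h2 : (stN M (nd i) g X).1 = 0 := by
        by_contra h3
        exact grun_flag (i + 1) gs h3 h0
      exact gok_lt hN (stN_gok h2)
    · exact ih (i + 1) h0 g' h1

theorem sm_grun (h : M.Ok) (i : ℕ) {X : SS} (gs : List ℕ) (hX : Sm M X) :
    Sm M (grun (fun g i X => stN M (nd i) g X) i X gs) := by
  induction gs generalizing i X with
  | nil => exact hX
  | cons g gs ih => exact ih (i + 1) (sm_stN h _ _ hX)

end

/-- The node at a position. -/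
def nodeAt (b g i : ℕ) : Nd := desc (fun _ => child b) 39 i (g * (b + 2)) (1, g, 0, 0, 0)

theorem nok_root (b g : ℕ) : NOk b g (1, g, 0, 0, 0) := by
  unfold NOk
  simp

/-- The runs of the numeric machine. -/
theorem run_spec (h : M.Ok) {q₀ : ℕ} (hq : q₀ < M.pr.N) :
    ∃ gs₀ : List ℕ, gs₀.length = 39 ^ (M.g * (M.pr.b + 2)) ∧
      (∀ g ∈ gs₀, g < M.pr.N ^ 7) ∧
      (grun (fun g i X => stN M (nodeAt M.pr.b M.g i) g X) 0 (0, q₀, 0, 0, 0, 0) gs₀).1 = 0 ∧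
      (grun (fun g i X => stN M (nodeAt M.pr.b M.g i) g X) 0 (0, q₀, 0, 0, 0, 0) gs₀).2.1 =
        DU.fineA M.pr.O M.pr.base (M.pr.b * M.g) q₀ ∧
      ∀ gs : List ℕ, gs.length = 39 ^ (M.g * (M.pr.b + 2)) →
        (grun (fun g i X => stN M (nodeAt M.pr.b M.g i) g X) 0 (0, q₀, 0, 0, 0, 0) gs).1 = 0 →
        gs = gs₀ := by
  have hN := h.pr.N_pos
  have hp := h.p_pos
  obtain ⟨gl, hgl, hlow⟩ := low_ok (G := fp h) h.pr rfl M.g
  obtain ⟨X₀, hX₀⟩ : ∃ X₀ : SS, X₀ = (0, q₀, 0, 0, 0, 0) := ⟨_, rfl⟩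
  have hSm : Sm M X₀ := by
    rw [hX₀]
    exact ⟨Nat.zero_le _, hq, Nat.pow_pos hN, Nat.pow_pos hN, Nat.pow_pos hp, Nat.pow_pos hp⟩
  have hfr : Zl (M.g + 1) (view M X₀) := by
    intro c hc
    rw [view_fr _ (show c ≤ M.g by omega), hX₀]
    have h1 : ∀ b l, dgt b 0 l = 0 := fun b l => by unfold dgt; simp
    unfold fr0
    simp only [h1, Nat.cast_zero, ite_self]
  have hc : (view M X₀).c = q₀ := by rw [hX₀]; rfl
  have h00 : X₀.1 = 0 := by rw [hX₀]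
  have key : ∀ gs t, (gs.length = 39 ^ (M.g * (M.pr.b + 2)) ∧
      (grun (fun g i X => stN M (nodeAt M.pr.b M.g i) g X) 0 X₀ gs).1 = 0 ∧
        t = view M (grun (fun g i X => stN M (nodeAt M.pr.b M.g i) g X) 0 X₀ gs)) ↔
      gs = gl q₀ ∧ t = ⟨DU.fineA M.pr.O M.pr.base (M.pr.b * M.g) q₀, (view M X₀).fr,
        (view M X₀).r⟩ := by
    intro gs t
    have h1 := hlow (view M X₀) hfr (by rw [hc]; exact hq) gs t
    rw [hc] at h1
    rw [← h1]
    unfold ex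
    rw [exr_chain]
    exact and_congr_right fun _ => (chain_grun h (nd := nodeAt M.pr.b M.g)
      (fun i => nok_desc _ (nok_root _ _)) 0 gs h00 hSm t).symm
  obtain ⟨h1, h2, h3⟩ := (key (gl q₀) _).2 ⟨rfl, rfl⟩
  rw [← hX₀]
  refine ⟨gl q₀, h1, grun_guess hN 0 _ h2, h2, ?_, fun gs h4 h5 =>
    ((key gs _).1 ⟨h4, h5, rfl⟩).1⟩
  exact (congrArg St.c h3).symm

end SN

end Pool.Agent.MP_6216ea_lc
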