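import Pool.Agent.Lib.MP_6216ea_lc.DUComp

/-! The machine with multi-use registers: states, nodes, elementary steps with one guess. -/

set_option autoImplicit false

namespace Pool.Agent.MP_6216ea_lc

namespace SN

open Function

/-- Translations `t x` and linear maps `χ x` such that `χ z` sees whether all members of a list
`l` of at most `m` numbers less than `N` are equal to `z`. -/
structure FP (Md F : Type) [AddCommGroup Md] [AddCommGroup F] (N m : ℕ) where
  t : ℕ → Md
  χ : ℕ → Md →+ F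
  multi : ∀ z < N, ∀ l : List ℕ, (∀ y ∈ l, y < N) → l.length ≤ m →
    χ z ((l.map t).sum) = χ z (l.length • t z) → ∀ y ∈ l, y = z

/-- The frame of a composite: question, answer, fingerprints. -/
@[ext]
structure Fr (F : Type) where
  q : ℕ
  a : ℕ
  φ : ℕ → F

/-- The states: the clear value, the frames, the registers; register `7 i + k` is item `k < 6`
(an answer) or `k = 6` (the question) of level `i`. -/
@[ext]
structure St (Md F : Type) where
  c : ℕ
  fr : ℕ → Fr F
  r : ℕ → Md

/-- The empty frame. -/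
def fr0 (F : Type) [AddCommGroup F] : Fr F := ⟨0, 0, fun _ => 0⟩

/-- The parameters: `b` levels in a composite, numbers less than `N`, the recursion. -/
structure Pr where
  b : ℕ
  N : ℕ
  O : DU.One
  base : ℕ → ℕ

/-- All values are less than `N`. -/
structure Pr.Ok (P : Pr) : Prop where
  N_pos : 0 < P.N
  b_pos : 0 < P.b
  h_lt : ∀ L q m a, P.O.h L q m a < P.N
  e_lt : ∀ L q a, P.O.e L q a < P.N
  base_lt : ∀ v, P.base v < P.N

/-- The items known before question `j`: the answers `k < j` and the question `6` of the level. -/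
def InS (j k : ℕ) : Prop := k = 6 ∨ k < j

instance (j k : ℕ) : Decidable (InS j k) := inferInstanceAs (Decidable (k = 6 ∨ k < j))

/-- The guessed values. -/
def dec (N g k : ℕ) : ℕ := g / N ^ k % N

/-- The guesses of the items in `InS j`. -/
def can (N j g : ℕ) : Prop := g < N ^ 7 ∧ ∀ k < 7, ¬ InS j k → dec N g k = 0

instance (N j g : ℕ) : Decidable (can N j g) :=
  inferInstanceAs (Decidable (g < N ^ 7 ∧ ∀ k < 7, ¬ InS j k → dec N g k = 0))

/-- The first `j` values. -/
def trunc (j : ℕ) (Y : ℕ → ℕ) (k : ℕ) : ℕ := if k < j then Y k else 0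

/-- The question `j` of level `L + 1`, computed from the guesses. -/
def wq (O : DU.One) (L j : ℕ) (Y : ℕ → ℕ) : ℕ := O.h L (Y 6) j (trunc j Y)

/-- The number of uses of the question of level `i`. -/
def cnt (i : ℕ) : ℕ := if i = 0 then 1 else 25

/-- Elementary steps: the fingerprint of register `ks - 1` for the value `w` is stored; `m` copies
of `w` are removed from register `kc - 1` and the fingerprint is checked and emptied; the guesses
in `InS ju` are added to the registers of level `lu - 1`; the fingerprints less than `z` are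
emptied; `cc`, `qq`, `aa` are the new clear value, question and answer. -/
structure Op where
  ks : ℕ
  kc : ℕ
  m : ℕ
  lu : ℕ
  ju : ℕ
  z : ℕ
  w : ℕ
  cc : ℕ
  qq : ℕ
  aa : ℕ

/-- Nodes `(kind, c, i, f, j)`. Kinds: `0` idle, `1` composite `c`, `2` bracket of level `i` with
the hook `f, j`, `3` begin of call `j`, `4` end of call `j`, `5` middle, `6` hook, `7` guess of the
question of level `0`, `8` begin of a composite, `9` end of a composite. -/
abbrev Nd : Type := ℕ × ℕ × ℕ × ℕ × ℕ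

/-- The idle node. -/
def idle : Nd := (0, 0, 0, 0, 0)

/-- The children. -/
def child (b : ℕ) (v : Nd) (k : ℕ) : Nd :=
  if v.1 = 1 then
    if k = 0 then (8, v.2.1, 0, 0, 0)
    else if k = 1 then (2, v.2.1, b, 2, 0)
    else if k = 2 then (9, v.2.1, 0, 0, 0)
    else idle
  else if v.1 = 2 then
    if v.2.2.1 = 0 then
      if k = 0 then (7, v.2.1, 0, 0, 0)
      else if k = 1 then (1, v.2.1 - 1, 0, 0, 0)
      else if k = 2 then (6, v.2.1, 0, v.2.2.2.1, v.2.2.2.2)
      else idle
    else if k / 3 < 6 then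
      if k % 3 = 0 then (3, v.2.1, v.2.2.1 - 1, 0, k / 3)
      else if k % 3 = 1 then (2, v.2.1, v.2.2.1 - 1, 0, k / 3)
      else (4, v.2.1, v.2.2.1 - 1, 0, k / 3)
    else if k / 3 = 6 then
      if k % 3 = 0 then (5, v.2.1, v.2.2.1 - 1, 0, 0)
      else if k % 3 = 1 then (6, v.2.1, v.2.2.1, v.2.2.2.1, v.2.2.2.2)
      else idle
    else
      if k % 3 = 0 then (3, v.2.1, v.2.2.1 - 1, 0, 12 - k / 3)
      else if k % 3 = 1 then (2, v.2.1, v.2.2.1 - 1, 1, 12 - k / 3)
      else (4, v.2.1, v.2.2.1 - 1, 0, 12 - k / 3)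
  else if k = 0 then v else idle

/-- The elementary step of a node, for the guess `g`, the clear value `cc`, the question `q` and
the answer `a` of the composite. -/
def op (P : Pr) (v : Nd) (g cc q a : ℕ) : Op where
  ks := if v.1 = 3 then 7 * v.2.2.1 + 7
    else if v.1 = 6 ∧ v.2.2.2.1 = 0 then 7 * (v.2.2.1 + 1) + v.2.2.2.2 + 1
    else if v.1 = 8 then 7 * P.b + 7 else 0
  kc := if v.1 = 4 then 7 * v.2.2.1 + 7
    else if v.1 = 6 ∧ v.2.2.2.1 = 1 then 7 * (v.2.2.1 + 1) + v.2.2.2.2 + 1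
    else if v.1 = 9 then 7 * P.b + 7 else 0
  m := if v.1 = 4 then cnt v.2.2.1 else if v.1 = 6 then 21 - 4 * v.2.2.2.2
    else if v.1 = 9 then cnt P.b else 0
  lu := if v.1 = 3 ∨ v.1 = 4 ∨ v.1 = 5 then v.2.2.1 + 2 else if v.1 = 7 then 1 else 0
  ju := if v.1 = 3 ∨ v.1 = 4 then v.2.2.2.2 else if v.1 = 5 then 6 else 0
  z := if v.1 = 5 then 7 * (v.2.2.1 + 1) else if v.1 = 7 then 6 else 0
  w := if v.1 = 3 ∨ v.1 = 4 then
      wq P.O (P.b * (v.2.1 - 1) + v.2.2.1) v.2.2.2.2 (dec P.N g)
    else if v.1 = 9 then q else cc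
  cc := if v.1 = 1 then P.base cc
    else if v.1 = 5 then P.O.e (P.b * (v.2.1 - 1) + v.2.2.1) (dec P.N g 6) (trunc 6 (dec P.N g))
    else if v.1 = 7 then dec P.N g 6
    else if v.1 = 9 then a
    else if v.1 = 3 ∨ v.1 = 4 ∨ v.1 = 6 ∨ v.1 = 8 then 0 else cc
  qq := if v.1 = 8 then cc else if v.1 = 9 then 0 else q
  aa := if v.1 = 9 then 0 else if v.1 = 6 ∧ v.2.2.2.1 = 2 then cc else a

/-- The admissible guesses. -/
def gok (N : ℕ) (v : Nd) (g : ℕ) : Prop :=
  if v.1 = 3 ∨ v.1 = 4 then can N v.2.2.2.2 g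
  else if v.1 = 5 then can N 6 g
  else if v.1 = 7 then can N 0 g
  else g = 0

section

variable {Md F : Type} [AddCommGroup Md] [AddCommGroup F] {N m : ℕ} (G : FP Md F N m)

/-- The check. -/
def okO (o : Op) (c : ℕ) (s : St Md F) : Prop :=
  ∀ κ, κ + 1 = o.kc → G.χ o.w (s.r κ - o.m • G.t o.w) = (s.fr c).φ κ

/-- The new state. -/
def nxt (o : Op) (Y : ℕ → ℕ) (c : ℕ) (s : St Md F) : St Md F where
  c := o.cc
  fr := update s.fr c ⟨o.qq, o.aa, fun κ => if κ + 1 = o.ks then G.χ o.w (s.r κ)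
    else if κ + 1 = o.kc ∨ κ < o.z then 0 else (s.fr c).φ κ⟩
  r κ := if κ + 1 = o.kc then s.r κ - o.m • G.t o.w
    else if κ / 7 + 1 = o.lu ∧ InS o.ju (κ % 7) then s.r κ + G.t (Y (κ % 7)) else s.r κ

/-- The elementary steps. -/
def Act (P : Pr) (v : Nd) (g : ℕ) (s t : St Md F) : Prop :=
  gok P.N v g ∧
    okO G (op P v g s.c (s.fr v.2.1).q (s.fr v.2.1).a) v.2.1 s ∧
    t = nxt G (op P v g s.c (s.fr v.2.1).q (s.fr v.2.1).a) (dec P.N g) v.2.1 s

end

end SN

end Pool.Agent.MP_6216ea_lc
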