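import Pool.Agent.Lib.MP_6216ea_lc.SN.Cmp
import Pool.Agent.Lib.MP_6216ea_lc.DUBig
import Pool.Agent.Lib.MP_6216ea_lc.DUSplitN

/-! The value of the recursion is computed by an unambiguous nondeterministic program. -/

set_option autoImplicit false

namespace Pool.Agent.MP_6216ea_lc

namespace SN

open SP DU

/-- Computable parameters of the nondeterministic algorithm, with the necessary bounds; `s` is the
number of bits of a digit, `P.p` any modulus (not necessarily prime), `P.C` is not used. -/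
structure PsC {α : Type} (K : List α → ℕ) (P : List α → Pm) (s : List α → ℕ) : Prop where
  p : Comp K fun x (_ : Unit) => (P x).p
  D : Comp K fun x (_ : Unit) => (P x).D
  b : Comp K fun x (_ : Unit) => (P x).b
  g : Comp K fun x (_ : Unit) => (P x).g
  NS : Comp K fun x (_ : Unit) => (P x).NS
  T : Comp K fun x (_ : Unit) => (P x).T
  sC : Comp K fun x (_ : Unit) => s x
  NS_pos : ∀ x, 1 ≤ (P x).NS
  b_pos : ∀ x, 1 ≤ (P x).b
  s_pos : ∀ x, 1 ≤ s x
  hD : ∀ x, 2 * ((P x).NS * ((P x).T + 1)) ^ 2 ≤ 2 ^ (P x).D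
  hp : ∀ x, 25 * (((P x).D / s x + 1) * (2 ^ s x) ^ 2) < (P x).p
  M : Bd K fun x (_ : Unit) => Mc (P x).b
  bN : Bd K fun x (_ : Unit) => (2 ^ (P x).D) ^ ((P x).g + 8)
  bF : Bd K fun x (_ : Unit) => (P x).p ^ (7 * ((P x).b + 1) * ((P x).g + 1))
  bR : Bd K fun x (_ : Unit) => (P x).p ^ (7 * ((P x).b + 1) * ((P x).D / s x + 2))
  bT : Bd K fun x (_ : Unit) => 39 ^ ((P x).g * ((P x).b + 2))

/-- The parameters of the machine. -/
def mp {α : Type} (P : List α → Pm) (s : List α → ℕ) (Nn : List α → NP) (lt : List α → ℕ → ℕ)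
    (x : List α) : Mp where
  p := (P x).p
  e := 2 ^ s x
  D := (P x).D / s x + 1
  g := (P x).g
  pr := ⟨(P x).b, 2 ^ (P x).D, oneN (P x), baseN (P x) (Nn x) (lt x)⟩

section

variable {α : Type} {K : List α → ℕ} {P : List α → Pm} {s : List α → ℕ} {Nn : List α → NP}

theorem mp_ok (hP : PsC K P s) (lt : List α → ℕ → ℕ) (x : List α) : (mp P s Nn lt x).Ok where
  pr :=
    { N_pos := by
        change 0 < 2 ^ (P x).D
        exact Nat.two_pow_pos _
      b_pos := hP.b_pos x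
      h_lt := fun L q m a => by
        change oh (P x) L q m a < 2 ^ (P x).D
        exact oh_lt (hP.NS_pos x) (hP.hD x) L q m a
      e_lt := fun L q a => by
        change oe (P x) L q a < 2 ^ (P x).D
        exact oe_lt (hP.NS_pos x) (hP.hD x) L q a
      base_lt := fun v => by
        change baseN (P x) (Nn x) (lt x) v < 2 ^ (P x).D
        exact baseN_lt (hP.NS_pos x) (hP.hD x) (Nn x) _ v }
  e_pos := by
    change 0 < 2 ^ s x
    exact Nat.two_pow_pos _
  N_le := by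
    change 2 ^ (P x).D ≤ (2 ^ s x) ^ ((P x).D / s x + 1)
    rw [← pow_mul]
    apply Nat.pow_le_pow_right (by norm_num)
    have h1 := Nat.div_add_mod (P x).D (s x)
    have h2 := Nat.mod_lt (P x).D (hP.s_pos x)
    rw [mul_add, mul_one]
    omega
  p_big := by
    change 25 * (((P x).D / s x + 1) * (2 ^ s x) ^ 2) < (P x).p
    exact hP.hp x

variable {σ : Type} [Tup σ]

theorem PsC.pc (hP : PsC K P s) : PC K fun x (_ : σ) => P x where
  D := up hP.D
  b := up hP.b
  NS := up hP.NS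
  T := up hP.T
  NS_pos x _ := hP.NS_pos x
  M := hP.M.comp (Comp.const ())

theorem mp_comp (hP : PsC K P s) (hN : NPC K Nn) {lt : List α → ℕ → ℕ}
    (hlt : Comp K fun x (v : ℕ) => lt x v) : MpC K (mp P s Nn lt) where
  p := hP.p
  e := by
    refine Comp.pow (Comp.const 2) hP.sC ?_
    refine hP.p.bd.mono fun x _ => ?_
    have h1 := hP.hp x
    have h2 : 2 ^ s x ≤ (2 ^ s x) ^ 2 := Nat.le_self_pow (by norm_num) _
    have h3 : 1 * (2 ^ s x) ^ 2 ≤ ((P x).D / s x + 1) * (2 ^ s x) ^ 2 :=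
      Nat.mul_le_mul_right _ (Nat.succ_pos _)
    change 2 ^ s x ≤ (P x).p
    omega
  D := Comp.add (Comp.div hP.D hP.sC) (Comp.const 1)
  g := hP.g
  b := hP.b
  N := by
    refine Comp.pow (Comp.const 2) hP.D (hP.bN.mono fun x _ => ?_)
    exact Nat.le_self_pow (by omega) _
  hw := by
    have h2D : Comp K fun x (_ : (ℕ × ℕ × ℕ) × ℕ) => 2 ^ (P x).D := by
      refine Comp.pow (Comp.const 2) (up hP.D) ((hP.bN.comp (Comp.const ())).mono fun x _ => ?_)
      exact Nat.le_self_pow (by omega) _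
    have h2D' : Comp K fun x (_ : ℕ × ℕ × ℕ) => 2 ^ (P x).D := by
      refine Comp.pow (Comp.const 2) (up hP.D) ((hP.bN.comp (Comp.const ())).mono fun x _ => ?_)
      exact Nat.le_self_pow (by omega) _
    exact comp_oh (P := fun x (_ : ℕ × ℕ × ℕ) => P x)
      (a := fun x (v : ℕ × ℕ × ℕ) => trunc v.2.1 (dec (2 ^ (P x).D) v.2.2)) hP.pc Comp.id.fst
      (comp_dec h2D' Comp.id.snd.snd (Comp.const 6)) Comp.id.snd.fst
      (Comp.ite (CompP.lt Comp.id.snd Comp.id.fst.snd.fst)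
        (comp_dec h2D Comp.id.fst.snd.snd Comp.id.snd) (Comp.const 0))
  he := by
    have h2D : Comp K fun x (_ : (ℕ × ℕ) × ℕ) => 2 ^ (P x).D := by
      refine Comp.pow (Comp.const 2) (up hP.D) ((hP.bN.comp (Comp.const ())).mono fun x _ => ?_)
      exact Nat.le_self_pow (by omega) _
    have h2D' : Comp K fun x (_ : ℕ × ℕ) => 2 ^ (P x).D := by
      refine Comp.pow (Comp.const 2) (up hP.D) ((hP.bN.comp (Comp.const ())).mono fun x _ => ?_)
      exact Nat.le_self_pow (by omega) _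
    exact comp_oe (P := fun x (_ : ℕ × ℕ) => P x)
      (a := fun x (v : ℕ × ℕ) => trunc 6 (dec (2 ^ (P x).D) v.2)) hP.pc Comp.id.fst
      (comp_dec h2D' Comp.id.snd (Comp.const 6))
      (Comp.ite (CompP.lt Comp.id.snd (Comp.const 6))
        (comp_dec h2D Comp.id.fst.snd Comp.id.snd) (Comp.const 0))
  hb := comp_baseN (P := fun x (_ : ℕ) => P x) (N := fun x (_ : ℕ) => Nn x)
    (lt := fun x _ i => lt x i) hP.pc hN.nc
    (Comp.comp (g := fun x (v : ℕ) => lt x v) hlt Comp.id.snd) Comp.id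
  bN := hP.bN.mono fun x _ => Nat.pow_le_pow_right (Nat.two_pow_pos _) (by
    change (P x).g + 1 ≤ (P x).g + 8
    omega)
  bF := hP.bF
  bR := hP.bR

/-- The loop `while 0 ≠ 0 do skip` halts only if variable `0` is `0`. -/
theorem loop_skip {x : List α} {B : ℕ} {c : NCmd α} {s t : ℕ → ℕ} {g : List ℕ}
    (h : NRun x B c s g t) (hc : c = .loop 0 .skip) (h0 : s 0 ≠ 0) : False := by
  induction h with
  | loopDone h =>
    injection hc with h1 h2
    subst h1
    exact h0 h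
  | loopStep h1 h2 h3 ih2 ih3 =>
    injection hc with h4 h5
    subst h4 h5
    cases h2
    exact ih3 rfl h0
  | _ => exact absurd hc (by simp)

/-- All runs of the machine. -/
theorem main_gen {M : List α → Mp} (hM : MpC K M) (hok : ∀ x, (M x).Ok)
    (bG : Bd K fun x (_ : Unit) => (M x).pr.N ^ 7)
    (bT : Bd K fun x (_ : Unit) => 39 ^ ((M x).g * ((M x).pr.b + 2)))
    {q₀ : List α → Unit → ℕ} (hq : Comp K q₀) (hq₀ : ∀ x, q₀ x () < (M x).pr.N)
    {out : List α → ℕ → ℕ} (ho : Comp K out) :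
    ∃ (c : NCmd α) (e : ℕ), ∀ x : List α, ∃ (gs : List ℕ) (t : ℕ → ℕ),
      NRun x ((K x + 2) ^ e) c (fun _ => 0) gs t ∧
      gs.length = 39 ^ ((M x).g * ((M x).pr.b + 2)) ∧
      t 0 = out x (fineA (M x).pr.O (M x).pr.base ((M x).pr.b * (M x).g) (q₀ x ())) ∧
      ∀ (B' : ℕ) (gs' : List ℕ) (t' : ℕ → ℕ), NRun x B' c (fun _ => 0) gs' t' →
        gs' = gs ∧ t' 0 = t 0 := by
  obtain ⟨F, hF⟩ : ∃ F : List α → ℕ → ℕ → SS → SS, F = fun x g i X =>
    stN (M x) (nodeAt (M x).pr.b (M x).g i) g X := ⟨_, rfl⟩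
  have hFc : Comp K fun x (p : ℕ × ℕ × SS) => F x p.1 p.2.1 p.2.2 := by
    rw [hF]
    exact comp_stN hM (comp_node hM Comp.id.snd.fst) Comp.id.fst Comp.id.snd.snd
  have hs₀ : Comp K fun x (_ : Unit) => ((0, q₀ x (), 0, 0, 0, 0) : SS) :=
    Comp.pair (Comp.const 0) (Comp.pair hq (Comp.const (0, 0, 0, 0)))
  have hTc : Comp K fun x (_ : Unit) => 39 ^ ((M x).g * ((M x).pr.b + 2)) :=
    Comp.pow (Comp.const 39) (Comp.mul hM.g (Comp.add hM.b (Comp.const 2))) bT
  have hoc : Comp K fun x (X : SS) => if X.1 = 0 then out x X.2.1 + 1 else 0 :=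
    Comp.ite (CompP.eq Comp.id.fst (Comp.const 0)) (Comp.succ (ho.comp Comp.id.snd.fst))
      (Comp.const 0)
  obtain ⟨c, e, hce⟩ := guess_loop (s₀ := fun x => ((0, q₀ x (), 0, 0, 0, 0) : SS))
    (T := fun x => 39 ^ ((M x).g * ((M x).pr.b + 2)))
    (out := fun x (X : SS) => if X.1 = 0 then out x X.2.1 + 1 else 0) hFc hs₀ hTc hoc
  -- the bound
  have bS : Bd K fun x (_ : Unit) => 2 + (M x).pr.N ^ 7 + ((M x).pr.N ^ ((M x).g + 1) +
      (M x).p ^ (7 * ((M x).pr.b + 1) * ((M x).g + 1)) +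
      (M x).p ^ (7 * ((M x).pr.b + 1) * ((M x).D + 1))) + (M x).pr.N :=
    Bd.add (Bd.add (Bd.add (Bd.const 2) bG) (Bd.add (Bd.add hM.bN hM.bF) hM.bR)) hM.N.bd
  obtain ⟨e₁, he₁⟩ := bS
  refine ⟨.seq c (.ite 0 (.seq (.inc 0) (.loop 0 .skip)) (.dec 0)), (e₁ + 1) * e, fun x => ?_⟩
  obtain ⟨gs₀, h1, h2, h3, h4, h5⟩ := run_spec (hok x) (hq₀ x)
  have h6 : ∀ gs, grun (F x) 0 (0, q₀ x (), 0, 0, 0, 0) gs =
      grun (fun g i X => stN (M x) (nodeAt (M x).pr.b (M x).g i) g X) 0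
        (0, q₀ x (), 0, 0, 0, 0) gs := fun gs => by rw [hF]
  have hB2 : 2 ≤ (K x + 2) ^ (e₁ + 1) :=
    le_trans (by omega) (Nat.le_self_pow (Nat.succ_ne_zero _) (K x + 2))
  have hBK : K x < (K x + 2) ^ (e₁ + 1) :=
    lt_of_lt_of_le (by omega) (Nat.le_self_pow (Nat.succ_ne_zero _) (K x + 2))
  have hb := he₁ x (K x + 2) () (by omega) (by omega) (lt_unit.2 trivial)
  beta_reduce at hb
  have hb' : (K x + 2) ^ e₁ ≤ (K x + 2) ^ (e₁ + 1) :=
    Nat.pow_le_pow_right (by omega) (Nat.le_succ _)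
  have hSm : Sm (M x) (0, q₀ x (), 0, 0, 0, 0) := by
    have hN := (hok x).pr.N_pos
    have hp := (hok x).p_pos
    exact ⟨Nat.zero_le _, hq₀ x, Nat.pow_pos hN, Nat.pow_pos hN, Nat.pow_pos hp, Nat.pow_pos hp⟩
  obtain ⟨hsound, hcompl⟩ := hce x
  obtain ⟨t, ht, ht0⟩ := hcompl ((K x + 2) ^ (e₁ + 1)) gs₀ hB2 hBK h1
    (fun g hg => (h2 g hg).trans (by omega)) fun k hk => by
      rw [h6]
      obtain ⟨k1, k2, k3, k4, k5, k6⟩ := sm_grun (hok x) (nd := nodeAt (M x).pr.b (M x).g) 0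
        (gs₀.take k) hSm
      exact lt_prod.2 ⟨lt_nat.2 (by omega), lt_prod.2 ⟨lt_nat.2 (by omega), lt_prod.2
        ⟨lt_nat.2 (by omega), lt_prod.2 ⟨lt_nat.2 (by omega), lt_prod.2 ⟨lt_nat.2 (by omega),
          lt_nat.2 (by omega)⟩⟩⟩⟩⟩
  rw [h6, if_pos h3, h4] at ht0
  have hne : t 0 ≠ 0 := by omega
  refine ⟨gs₀ ++ [], Function.update t 0 (t 0 - 1), ?_, ?_, ?_, fun B' gs' t' hr => ?_⟩
  · rw [pow_mul]
    exact .seq ht (.itePos hne (.dec 0 t))
  · rw [List.append_nil]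
    exact h1
  · rw [Function.update_self, ht0, Nat.add_sub_cancel]
  · cases hr with
    | @seq _ _ _ t₁ _ g₁ g₂ ra rb =>
      obtain ⟨a1, a2, a3⟩ := hsound _ _ _ ra
      cases rb with
      | iteZero h0 rc =>
        cases rc with
        | seq rd re =>
          cases rd with
          | inc _ _ _ =>
            exfalso
            exact loop_skip re rfl (by rw [Function.update_self]; omega)
      | itePos h0 rc =>
        cases rc with
        | dec _ _ =>
          rw [h6] at a3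
          have h7 : (grun (fun g i X => stN (M x) (nodeAt (M x).pr.b (M x).g i) g X) 0
              (0, q₀ x (), 0, 0, 0, 0) g₁).1 = 0 := by
            by_contra h8
            rw [if_neg h8] at a3
            exact h0 a3
          have h9 := h5 _ a1 h7
          rw [if_pos h7, h9, h4] at a3
          refine ⟨by rw [h9], ?_⟩
          rw [Function.update_self, Function.update_self, a3, ht0]

/-- The value of the recursion is computed by an unambiguous nondeterministic program: for every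
input there is exactly one list of guesses for which it halts. -/
theorem main_len (hP : PsC K P s) (hN : NPC K Nn) {lt : List α → ℕ → ℕ}
    (hlt : Comp K fun x (v : ℕ) => lt x v)
    {q₀ : List α → Unit → ℕ} (hq : Comp K q₀) (hq₀ : ∀ x, q₀ x () < 2 ^ (P x).D)
    {out : List α → ℕ → ℕ} (ho : Comp K out) :
    ∃ (c : NCmd α) (e : ℕ), ∀ x : List α, ∃ (gs : List ℕ) (t : ℕ → ℕ),
      NRun x ((K x + 2) ^ e) c (fun _ => 0) gs t ∧
      gs.length = 39 ^ ((P x).g * ((P x).b + 2)) ∧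
      t 0 = out x (fineA (oneN (P x)) (baseN (P x) (Nn x) (lt x))
        ((P x).b * (P x).g) (q₀ x ())) ∧
      ∀ (B' : ℕ) (gs' : List ℕ) (t' : ℕ → ℕ), NRun x B' c (fun _ => 0) gs' t' →
        gs' = gs ∧ t' 0 = t 0 :=
  main_gen (mp_comp hP hN hlt) (mp_ok hP lt) (hP.bN.mono fun x _ =>
    Nat.pow_le_pow_right (Nat.two_pow_pos _) (by omega)) hP.bT hq hq₀ ho

/-- The value of the recursion is computed by an unambiguous nondeterministic program: for every
input there is exactly one list of guesses for which it halts. -/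
theorem main (hP : PsC K P s) (hN : NPC K Nn) {lt : List α → ℕ → ℕ}
    (hlt : Comp K fun x (v : ℕ) => lt x v)
    {q₀ : List α → Unit → ℕ} (hq : Comp K q₀) (hq₀ : ∀ x, q₀ x () < 2 ^ (P x).D)
    {out : List α → ℕ → ℕ} (ho : Comp K out) :
    ∃ (c : NCmd α) (e : ℕ), ∀ x : List α, ∃ (gs : List ℕ) (t : ℕ → ℕ),
      NRun x ((K x + 2) ^ e) c (fun _ => 0) gs t ∧
      t 0 = out x (fineA (oneN (P x)) (baseN (P x) (Nn x) (lt x))
        ((P x).b * (P x).g) (q₀ x ())) ∧
      ∀ (B' : ℕ) (gs' : List ℕ) (t' : ℕ → ℕ), NRun x B' c (fun _ => 0) gs' t' →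
        gs' = gs ∧ t' 0 = t 0 := by
  obtain ⟨c, e, h⟩ := main_len hP hN hlt hq hq₀ ho
  refine ⟨c, e, fun x => ?_⟩
  obtain ⟨gs, t, h1, -, h2⟩ := h x
  exact ⟨gs, t, h1, h2⟩

end

end SN

end Pool.Agent.MP_6216ea_lc
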