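import Pool.Agent.Lib.MP_6216ea_lc.SP.Model

/-! Nondeterministic while programs whose variables are bounded (nondeterministic space). -/

set_option autoImplicit false

namespace Pool.Agent.MP_6216ea_lc

/-- Nondeterministic while programs over the variables `0, 1, 2, ...` (natural numbers): `inc v`,
`dec v` add and subtract one, `read v w f` sets `v` to `f` of the letter of the input at the
position `w` (`none` beyond the end), `guess v` sets `v` to an arbitrary number, `ite v c d` is
`if v = 0 then c else d`, `loop v c` is `while v ≠ 0 do c`. -/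
inductive NCmd (α : Type) : Type
  | skip
  | inc (v : ℕ)
  | dec (v : ℕ)
  | read (v w : ℕ) (f : Option α → ℕ)
  | guess (v : ℕ)
  | seq (c d : NCmd α)
  | ite (v : ℕ) (c d : NCmd α)
  | loop (v : ℕ) (c : NCmd α)

/-- `NRun x B c s g t`: on the input `x`, started with the values `s`, the program `c` can halt
with the values `t` after guessing the numbers `g` (in this order), and all values which it assigns
or guesses are smaller than `B`. -/
inductive NRun {α : Type} (x : List α) (B : ℕ) :
    NCmd α → (ℕ → ℕ) → List ℕ → (ℕ → ℕ) → Prop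
  | skip (s : ℕ → ℕ) : NRun x B NCmd.skip s [] s
  | inc (v : ℕ) (s : ℕ → ℕ) : s v + 1 < B →
      NRun x B (NCmd.inc v) s [] (Function.update s v (s v + 1))
  | dec (v : ℕ) (s : ℕ → ℕ) : NRun x B (NCmd.dec v) s [] (Function.update s v (s v - 1))
  | read (v w : ℕ) (f : Option α → ℕ) (s : ℕ → ℕ) : f x[s w]? < B →
      NRun x B (NCmd.read v w f) s [] (Function.update s v (f x[s w]?))
  | guess (v : ℕ) (s : ℕ → ℕ) (a : ℕ) : a < B →
      NRun x B (NCmd.guess v) s [a] (Function.update s v a)
  | seq {c d : NCmd α} {s t u : ℕ → ℕ} {g h : List ℕ} : NRun x B c s g t → NRun x B d t h u →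
      NRun x B (NCmd.seq c d) s (g ++ h) u
  | iteZero {v : ℕ} {c d : NCmd α} {s t : ℕ → ℕ} {g : List ℕ} : s v = 0 → NRun x B c s g t →
      NRun x B (NCmd.ite v c d) s g t
  | itePos {v : ℕ} {c d : NCmd α} {s t : ℕ → ℕ} {g : List ℕ} : s v ≠ 0 → NRun x B d s g t →
      NRun x B (NCmd.ite v c d) s g t
  | loopDone {v : ℕ} {c : NCmd α} {s : ℕ → ℕ} : s v = 0 → NRun x B (NCmd.loop v c) s [] s
  | loopStep {v : ℕ} {c : NCmd α} {s t u : ℕ → ℕ} {g h : List ℕ} : s v ≠ 0 →
      NRun x B c s g t → NRun x B (NCmd.loop v c) t h u → NRun x B (NCmd.loop v c) s (g ++ h) u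

end Pool.Agent.MP_6216ea_lc
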