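import Pool.Agent.Lib.MP_6216ea_lc.SN.Call

/-! The passes and the brackets. -/

set_option autoImplicit false

namespace Pool.Agent.MP_6216ea_lc

namespace SN

open Function

variable {Md F : Type} [AddCommGroup Md] [AddCommGroup F] {N : ℕ} {G : FP Md F N 25} {P : Pr}
  {A : ℕ → ℕ → ℕ} {ci : ℕ}

/-- The passes from item `6 - n` on, with the brackets `R f' j'`. -/
def nstR (G : FP Md F N 25) (P : Pr) (ci i l f j : ℕ)
    (R : ℕ → ℕ → St Md F → List ℕ → St Md F → Prop) :
    ℕ → St Md F → List ℕ → St Md F → Prop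
  | 0 => sq (pr G P l (5, ci, i, 0, 0)) (sq (pr G P l (6, ci, i + 1, f, j)) (pr G P l idle))
  | n + 1 => sq (callR G P ci i (5 - n) l (R 0 (5 - n)))
      (sq (nstR G P ci i l f j R n) (callR G P ci i (5 - n) l (R 1 (5 - n))))

/-- The honest guesses. -/
def nstG (P : Pr) (A : ℕ → ℕ → ℕ) (ci i l : ℕ) (gl : ℕ → ℕ → ℕ → List ℕ) :
    ℕ → (ℕ → ℕ) → List ℕ
  | 0, Y => pg l (cod P.N 6 Y) ++ (pg l 0 ++ pg l 0)
  | n + 1, Y => callG P ci i (5 - n) l (gl 0 (5 - n)) Y ++
      (nstG P A ci i l gl n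
        (update Y (5 - n) (A i (wq P.O (P.b * (ci - 1) + i) (5 - n) Y))) ++
      callG P ci i (5 - n) l (gl 1 (5 - n)) Y)

theorem above_hk (i f j : ℕ) : Above i (hk i f j) := by
  unfold hk
  split_ifs
  · change i < (7 * (i + 1) + j) / 7
    omega
  · change i < (7 * (i + 1) + j) / 7
    omega
  · trivial

theorem nst_zero_ok (hP : P.Ok) (hN : P.N = N) {i l f j : ℕ} (hf : f < 3)
    (R : ℕ → ℕ → St Md F → List ℕ → St Md F → Prop) (gl : ℕ → ℕ → ℕ → List ℕ) :
    NOK G P A ci i (hk (i + 1) f j) 0 (39 ^ l + (39 ^ l + 39 ^ l))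
      (nstR G P ci i l f j R 0) (nstG P A ci i l gl 0) := by
  subst hN
  have hN0 := hP.N_pos
  have hab := above_hk (i + 1) f j
  obtain ⟨h, hh⟩ : ∃ h, h = hk (i + 1) f j := ⟨_, rfl⟩
  rw [← hh] at hab ⊢
  refine ⟨fun s gs t hr => sq_len (pr_len G P l _) (sq_len (pr_len G P l _) (pr_len G P l _))
    _ _ _ hr, fun Y => ?_, fun s gs t hZ hr => ?_, fun s t hZ Y₀ hY₀ => ?_⟩
  · unfold nstG
    rw [List.length_append, List.length_append, pg_length, pg_length]
  · obtain ⟨s₁, g₁, g', rfl, ⟨x₁, rfl, h1⟩, s₂, g₂, g₃, rfl, ⟨x₂, rfl, h2⟩, ⟨x₃, rfl, h3⟩⟩ := hr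
    rw [act_mid] at h1
    rw [act_hook _ _ _ _ _ _ _ hf, ← hh] at h2
    rw [act_idle] at h3
    obtain ⟨k1, e1⟩ := h1
    obtain ⟨rfl, hC, e2⟩ := h2
    obtain ⟨rfl, rfl⟩ := h3
    have f0 : ∀ c', c' ≠ ci → s₁.fr c' = s.fr c' := fun c' hc => by rw [e1]; exact update_of_ne hc _ _
    have f1 : ∀ κ, (s₁.fr ci).φ κ = if κ / 7 < i + 1 then 0 else (s.fr ci).φ κ := by
      intro κ; rw [e1]; simp only [update_self]
    have f2 : ∀ κ, s₁.r κ = useR G (i + 1) 6 (dec P.N x₁) s.r κ := by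
      intro κ; rw [e1]
    have f3 : (s₁.fr ci).q = (s.fr ci).q := by rw [e1]; simp only [update_self]
    have t0 : ∀ c', c' ≠ ci → t.fr c' = s₁.fr c' := fun c' hc => by rw [e2]; exact update_of_ne hc _ _
    have t1 : ∀ κ, (t.fr ci).φ κ = hφ G h s₁.c κ (s₁.r κ) ((s₁.fr ci).φ κ) := by
      intro κ; rw [e2]; unfold Hon; simp only [update_self, if_false]
    have t2 : ∀ κ, t.r κ = hr G h s₁.c κ (s₁.r κ) := by
      intro κ; rw [e2]; exact add_zero _
    have t3 : (t.fr ci).q = (s₁.fr ci).q := by rw [e2]; unfold Hon; simp only [update_self]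
    refine ⟨fun c' hc => by rw [t0 c' hc, f0 c' hc], by rw [t3, f3], ?_,
      [dec P.N x₁], rfl, ?_, ?_, ?_⟩
    · intro κ hκ hA
      rw [t1, t2, hφ_off G hA, hr_off G hA, f1, f2, if_neg (by omega)]
      unfold useR
      rw [if_neg fun h' => by omega]
      exact ⟨rfl, rfl⟩
    · intro Y hY k
      rw [List.mem_singleton.1 hY]
      exact dec_lt hN0 _ _
    · intro κ hκ hS
      have hA : ¬ At κ h := fun h' => by have := lv_of_at hab h'; omega
      rw [t1, t2, hφ_off G hA, hr_off G hA, f1, f2, if_neg (by omega)]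
      unfold useR
      rw [Nat.sub_zero] at hS
      rw [if_pos ⟨hκ, hS⟩]
      simp
    · intro Y₀ hY₀ hY
      rw [Nat.sub_zero] at hY
      have hY' : ∀ k, InS 6 k → dec P.N x₁ k = Y₀ k := fun k hk => hY _ (by simp) k hk
      rw [cod_eq k1 hY']
      rfl
  · obtain ⟨V, hV⟩ : ∃ V, V = vl P.O (P.b * (ci - 1) + i) (A i) 0 Y₀ := ⟨_, rfl⟩
    have hdec : ∀ k, InS 6 k → dec P.N (cod P.N 6 Y₀) k = Y₀ k := fun k hk =>
      dec_cod hN0 hY₀ le_rfl hk
    have hVe : P.O.e (P.b * (ci - 1) + i) (dec P.N (cod P.N 6 Y₀) 6)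
        (trunc 6 (dec P.N (cod P.N 6 Y₀))) = V := by
      rw [hdec 6 (Or.inl rfl), trunc_congr fun k hk => hdec k (Or.inr hk), hV]
      rfl
    have huse : ∀ r : ℕ → Md, useR G (i + 1) 6 (dec P.N (cod P.N 6 Y₀)) r =
        useR G (i + 1) 6 Y₀ r := by
      intro r
      funext κ
      unfold useR
      by_cases hκ : κ / 7 = i + 1 ∧ InS 6 (κ % 7)
      · rw [if_pos hκ, if_pos hκ, hdec _ hκ.2]
      · rw [if_neg hκ, if_neg hκ]
    unfold nstR nstG
    rw [← hV, sq_split (pr_len G P l _) (pg_length _ _)]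
    obtain ⟨s₁, hs₁⟩ : ∃ s₁ : St Md F, s₁ = ⟨V, update s.fr ci ⟨(s.fr ci).q, (s.fr ci).a,
      fun κ => if κ / 7 < i + 1 then 0 else (s.fr ci).φ κ⟩, useR G (i + 1) 6 Y₀ s.r⟩ :=
      ⟨_, rfl⟩
    have hc : s₁.c = V := by rw [hs₁]
    have f0 : ∀ c', c' ≠ ci → s₁.fr c' = s.fr c' := fun c' hc => by rw [hs₁]; exact update_of_ne hc _ _
    have f1 : ∀ κ, (s₁.fr ci).φ κ = if κ / 7 < i + 1 then 0 else (s.fr ci).φ κ := by
      intro κ; rw [hs₁]; simp only [update_self]
    have f2 : ∀ κ, s₁.r κ = useR G (i + 1) 6 Y₀ s.r κ := by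
      intro κ; rw [hs₁]
    have f3 : (s₁.fr ci).q = (s.fr ci).q := by rw [hs₁]; simp only [update_self]
    have f4 : (s₁.fr ci).a = (s.fr ci).a := by rw [hs₁]; simp only [update_self]
    have hloc : ∀ κ, At κ h → s₁.r κ = s.r κ ∧ (s₁.fr ci).φ κ = (s.fr ci).φ κ := by
      intro κ hκ
      have h1 := lv_of_at hab hκ
      rw [f1, f2, if_neg (by omega)]
      unfold useR
      rw [if_neg fun h' => by omega]
      exact ⟨rfl, rfl⟩
    have st1 : ∀ u, pr G P l (5, ci, i, 0, 0) s (pg l (cod P.N 6 Y₀)) u ↔ u = s₁ := by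
      intro u
      rw [pr_pg, act_mid, hVe, huse, ← hs₁]
      exact and_iff_right (can_cod hN0 hY₀)
    have key : Hon G ci h V (fun _ => False) (fun _ => 0) s₁ =
        Hon G ci h V (ZN i 0) (δN G i 0 Y₀) s := by
      unfold Hon
      apply St.ext
      · rfl
      · funext c'
        change update s₁.fr ci _ c' = update s.fr ci _ c'
        by_cases hc : c' = ci
        · subst hc
          rw [update_self, update_self]
          apply Fr.ext
          · exact f3
          · change ha h V _ = ha h V _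
            rw [f4]
          · funext κ
            change (if False then 0 else hφ G h V κ (s₁.r κ) ((s₁.fr c').φ κ)) =
              (if ZN i 0 κ then 0 else hφ G h V κ (s.r κ) ((s.fr c').φ κ))
            rw [if_false]
            by_cases hκ : At κ h
            · have h1 := lv_of_at hab hκ
              rw [if_neg (by unfold ZN; omega), (hloc κ hκ).1, (hloc κ hκ).2]
            · rw [hφ_off G hκ, hφ_off G hκ, f1]
              by_cases hlt : κ / 7 < i + 1
              · rw [if_pos hlt, if_pos (show ZN i 0 κ from Or.inl hlt)]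
              · rw [if_neg hlt, if_neg (by unfold ZN; omega)]
        · rw [update_of_ne hc, update_of_ne hc]
          exact f0 c' hc
      · funext κ
        change hr G h V κ (s₁.r κ) + 0 = hr G h V κ (s.r κ) + δN G i 0 Y₀ κ
        rw [add_zero]
        by_cases hκ : At κ h
        · have h1 := lv_of_at hab hκ
          rw [(hloc κ hκ).1]
          unfold δN
          rw [if_neg fun h' => by omega, add_zero]
        · rw [hr_off G hκ, hr_off G hκ, f2]
          unfold useR δN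
          rw [Nat.sub_zero]
          by_cases hS : κ / 7 = i + 1 ∧ InS 6 (κ % 7)
          · rw [if_pos hS, if_pos hS]
            simp
          · rw [if_neg hS, if_neg hS, add_zero]
    have st2 : ∀ u, pr G P l (6, ci, i + 1, f, j) s₁ (pg l 0) u ↔
        HC G h V s.r (s.fr ci).φ ∧ u = Hon G ci h V (ZN i 0) (δN G i 0 Y₀) s := by
      intro u
      rw [pr_pg, act_hook _ _ _ _ _ _ _ hf, ← hh, hc, key, HC_congr G h V hloc]
      exact and_iff_right rfl
    constructor
    · rintro ⟨u, h1, h2⟩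
      rw [st1] at h1
      subst h1
      rw [sq_split (pr_len G P l _) (pg_length _ _)] at h2
      obtain ⟨v, h3, h4⟩ := h2
      rw [st2] at h3
      rw [pr_pg, act_idle] at h4
      obtain ⟨h5, rfl⟩ := h3
      exact ⟨h5, h4.2⟩
    · rintro ⟨h1, h2⟩
      refine ⟨s₁, (st1 _).2 rfl, ?_⟩
      rw [sq_split (pr_len G P l _) (pg_length _ _)]
      exact ⟨_, (st2 _).2 ⟨h1, rfl⟩, (pr_pg _ _ _ _ _ _ _).2 ((act_idle _ _ _ _ _).2 ⟨rfl, h2⟩)⟩

/-- The number of guesses. -/
def nlen (l n : ℕ) : ℕ → ℕ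
  | 0 => 39 ^ l + (39 ^ l + 39 ^ l)
  | m + 1 => (39 ^ l + (n + 39 ^ l)) + (nlen l n m + (39 ^ l + (n + 39 ^ l)))

theorem nst_succ_ok (hP : P.Ok) (hN : P.N = N) (hA : ∀ i z, z < N → A i z < N)
    {i l f j n' : ℕ}
    {R : ℕ → ℕ → St Md F → List ℕ → St Md F → Prop} {gl : ℕ → ℕ → ℕ → List ℕ}
    (hL : ∀ f' j', f' < 3 → j' < 6 → BrOK G A ci i (hk i f' j') n' (R f' j') (gl f' j'))
    {n : ℕ} (hn : n + 1 ≤ 6)
    (ih : NOK G P A ci i (hk (i + 1) f j) n (nlen l n' n) (nstR G P ci i l f j R n)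
      (nstG P A ci i l gl n)) :
    NOK G P A ci i (hk (i + 1) f j) (n + 1) (nlen l n' (n + 1))
      (nstR G P ci i l f j R (n + 1)) (nstG P A ci i l gl (n + 1)) := by
  subst hN
  have hN0 := hP.N_pos
  have hab := above_hk (i + 1) f j
  obtain ⟨h, hh⟩ : ∃ h, h = hk (i + 1) f j := ⟨_, rfl⟩
  rw [← hh] at hab ih ⊢
  obtain ⟨k, hk'⟩ : ∃ k, k = 5 - n := ⟨_, rfl⟩
  have hk6 : k < 6 := by omega
  have hn1 : 6 - (n + 1) = k := by omega
  have hn0 : 6 - n = k + 1 := by omega
  have hst : hk i 0 k = .store (7 * (i + 1) + k) := rfl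
  have hch : hk i 1 k = .check (7 * (i + 1) + k) (4 * n + 1) := by
    have : 21 - 4 * k = 4 * n + 1 := by omega
    unfold hk
    rw [if_neg (by norm_num), if_pos rfl, this]
  have hC1 := call_ok (ci := ci) (l := l) hP rfl hk6 (h := hk i 0 k) (by
    rw [hst]; intro κ hκ; exact hκ) (hL 0 k (by norm_num) hk6)
  have hC3 := call_ok (ci := ci) (l := l) hP rfl hk6 (h := hk i 1 k) (by
    rw [hch]; intro κ hκ; exact hκ) (hL 1 k (by norm_num) hk6)
  rw [hst] at hC1
  rw [hch] at hC3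
  have hjS : ¬ InS k k := by
    rintro (h1 | h1) <;> omega
  have hkm : (7 * (i + 1) + k) % 7 = k := by omega
  have hkd : (7 * (i + 1) + k) / 7 = i + 1 := by omega
  -- the exact claims
  have hexa : ∀ s t, Zl ci s → ∀ Y₀ : ℕ → ℕ, (∀ k, Y₀ k < P.N) →
      (nstR G P ci i l f j R (n + 1) s (nstG P A ci i l gl (n + 1) Y₀) t ↔
        HC G h (vl P.O (P.b * (ci - 1) + i) (A i) (n + 1) Y₀) s.r (s.fr ci).φ ∧
        t = Hon G ci h (vl P.O (P.b * (ci - 1) + i) (A i) (n + 1) Y₀) (ZN i (n + 1))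
          (δN G i (n + 1) Y₀) s) := by
    intro s t hZ Y₀ hY₀
    obtain ⟨a, ha'⟩ : ∃ a, a = A i (wq P.O (P.b * (ci - 1) + i) k Y₀) := ⟨_, rfl⟩
    have haN : a < P.N := by rw [ha']; exact hA _ _ (hP.h_lt _ _ _ _)
    obtain ⟨Z₀, hZ₀⟩ : ∃ Z₀, Z₀ = update Y₀ k a := ⟨_, rfl⟩
    have z1 : Z₀ k = a := by rw [hZ₀, update_self]
    have z2 : ∀ m, m ≠ k → Z₀ m = Y₀ m := fun m hm => by rw [hZ₀, update_of_ne hm]
    have z3 : ∀ m, Z₀ m < P.N := fun m => by
      by_cases hm : m = k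
      · rw [hm, z1]; exact haN
      · rw [z2 m hm]; exact hY₀ m
    obtain ⟨V, hV⟩ : ∃ V, V = vl P.O (P.b * (ci - 1) + i) (A i) (n + 1) Y₀ := ⟨_, rfl⟩
    have hVn : vl P.O (P.b * (ci - 1) + i) (A i) n Z₀ = V := by
      rw [hV, ← vl_succ P.O _ (A i) n hn Y₀, hn1, ← ha', ← hZ₀]
    rw [← hV]
    -- first call
    obtain ⟨s₁, hs₁⟩ : ∃ s₁ : St Md F, s₁ = Hon G ci (.store (7 * (i + 1) + k)) a
      (fun κ => κ / 7 < i + 1) (δC G i k Y₀) s := ⟨_, rfl⟩
    have st1 : ∀ u, callR G P ci i k l (R 0 k) s (callG P ci i k l (gl 0 k) Y₀) u ↔ u = s₁ := by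
      intro u
      rw [hC1.exa s u hZ Y₀ hY₀, ← ha', ← hs₁]
      exact and_iff_right trivial
    have p0 : ∀ c', c' ≠ ci → s₁.fr c' = s.fr c' := fun c' hc => by
      rw [hs₁]; exact update_of_ne hc _ _
    have p1 : ∀ κ, (s₁.fr ci).φ κ = if κ / 7 < i + 1 then 0 else
        if κ = 7 * (i + 1) + k then G.χ a (s.r κ) else (s.fr ci).φ κ := by
      intro κ; rw [hs₁]; unfold Hon; simp only [update_self]; rfl
    have p2 : ∀ κ, s₁.r κ = s.r κ + δC G i k Y₀ κ := by
      intro κ; rw [hs₁]; rfl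
    have p3 : (s₁.fr ci).q = (s.fr ci).q := by rw [hs₁]; unfold Hon; simp only [update_self]
    have p4 : (s₁.fr ci).a = (s.fr ci).a := by
      rw [hs₁]; unfold Hon; simp only [update_self]; rfl
    have hup : ∀ κ, i + 1 < κ / 7 → s₁.r κ = s.r κ ∧ (s₁.fr ci).φ κ = (s.fr ci).φ κ := by
      intro κ hκ
      rw [p1, p2, if_neg (by omega), if_neg fun h' => by omega]
      unfold δC
      rw [if_neg fun h' => by omega, add_zero]
      exact ⟨rfl, rfl⟩
    have hloc : ∀ κ, At κ h → s₁.r κ = s.r κ ∧ (s₁.fr ci).φ κ = (s.fr ci).φ κ := fun κ hκ =>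
      hup κ (lv_of_at hab hκ)
    -- the passes in between
    obtain ⟨s₂, hs₂⟩ : ∃ s₂ : St Md F, s₂ = Hon G ci h V (ZN i n) (δN G i n Z₀) s₁ := ⟨_, rfl⟩
    have st2 : ∀ u, nstR G P ci i l f j R n s₁ (nstG P A ci i l gl n Z₀) u ↔
        HC G h V s.r (s.fr ci).φ ∧ u = s₂ := by
      intro u
      rw [ih.exa s₁ u (Zl_of hZ p0) Z₀ z3, hVn, ← hs₂, HC_congr G h V hloc]
    have r0 : ∀ c', c' ≠ ci → s₂.fr c' = s.fr c' := fun c' hc => by
      rw [hs₂]; exact (update_of_ne hc _ _).trans (p0 c' hc)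
    have r1 : ∀ κ, (s₂.fr ci).φ κ = if ZN i n κ then 0
        else hφ G h V κ (s₁.r κ) ((s₁.fr ci).φ κ) := by
      intro κ; rw [hs₂]; unfold Hon; simp only [update_self]
    have r2 : ∀ κ, s₂.r κ = hr G h V κ (s₁.r κ) + δN G i n Z₀ κ := by
      intro κ; rw [hs₂]; rfl
    have r3 : (s₂.fr ci).q = (s.fr ci).q := by
      rw [hs₂]; unfold Hon; simp only [update_self]; exact p3
    have r4 : (s₂.fr ci).a = ha h V (s.fr ci).a := by
      rw [hs₂]; unfold Hon; simp only [update_self]; rw [p4]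
    -- second call
    have hA0 : ¬ At (7 * (i + 1) + k) h := fun h' => by
      have := lv_of_at hab h'
      omega
    have hC3' : HC G (.check (7 * (i + 1) + k) (4 * n + 1)) a s₂.r (s₂.fr ci).φ := by
      change G.χ a (s₂.r (7 * (i + 1) + k) - (4 * n + 1) • G.t a) =
        (s₂.fr ci).φ (7 * (i + 1) + k)
      rw [r1, r2, if_neg (by unfold ZN; omega), hφ_off G hA0, hr_off G hA0, p1, p2,
        if_neg (by omega), if_pos rfl]
      unfold δN δC
      rw [if_neg (fun h' => hjS (by have h6 := h'.2; rwa [hkm] at h6)),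
        if_pos ⟨hkd, Or.inr (by omega)⟩, hkm, z1, add_zero, add_sub_cancel_right]
    obtain ⟨t₀, ht₀⟩ : ∃ t₀ : St Md F, t₀ = Hon G ci (.check (7 * (i + 1) + k) (4 * n + 1)) a
      (fun κ => κ / 7 < i + 1) (δC G i k Y₀) s₂ := ⟨_, rfl⟩
    have st3 : ∀ u, callR G P ci i k l (R 1 k) s₂ (callG P ci i k l (gl 1 k) Y₀) u ↔
        u = t₀ := by
      intro u
      rw [hC3.exa s₂ u (Zl_of hZ r0) Y₀ hY₀, ← ha', ← ht₀]
      exact and_iff_right hC3'
    have u1 : ∀ κ, (t₀.fr ci).φ κ = if κ / 7 < i + 1 then 0 else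
        if κ = 7 * (i + 1) + k then 0 else (s₂.fr ci).φ κ := by
      intro κ; rw [ht₀]; unfold Hon; simp only [update_self]; rfl
    have u2 : ∀ κ, t₀.r κ = (if κ = 7 * (i + 1) + k then s₂.r κ - (4 * n + 1) • G.t a
        else s₂.r κ) + δC G i k Y₀ κ := by
      intro κ; rw [ht₀]; rfl
    have hfin : t₀ = Hon G ci h V (ZN i (n + 1)) (δN G i (n + 1) Y₀) s := by
      apply St.ext
      · rw [ht₀]; rfl
      · funext c'
        by_cases hc : c' = ci
        · subst hc
          apply Fr.ext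
          · rw [ht₀]; unfold Hon; simp only [update_self]; exact r3
          · rw [ht₀]; unfold Hon; simp only [update_self]; exact r4
          · funext κ
            rw [u1]
            unfold Hon
            simp only [update_self]
            by_cases hlt : κ / 7 < i + 1
            · rw [if_pos hlt, if_pos (show ZN i (n + 1) κ from Or.inl hlt)]
            rw [if_neg hlt]
            by_cases hκj : κ = 7 * (i + 1) + k
            · rw [if_pos hκj, if_pos (show ZN i (n + 1) κ from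
                Or.inr ⟨by omega, by omega, by omega⟩)]
            rw [if_neg hκj, r1]
            by_cases hZn : ZN i n κ
            · rw [if_pos hZn, if_pos]
              unfold ZN at hZn ⊢
              omega
            · rw [if_neg hZn, if_neg (by unfold ZN at hZn ⊢; omega)]
              by_cases hκ : At κ h
              · rw [(hloc κ hκ).1, (hloc κ hκ).2]
              · rw [hφ_off G hκ, hφ_off G hκ, p1, if_neg hlt, if_neg hκj]
        · rw [ht₀]
          exact (update_of_ne hc _ _).trans ((r0 c' hc).trans (update_of_ne hc _ _).symm)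
      · funext κ
        change t₀.r κ = hr G h V κ (s.r κ) + δN G i (n + 1) Y₀ κ
        rw [u2]
        by_cases hκ : At κ h
        · have h1 := lv_of_at hab hκ
          rw [if_neg fun h' => by omega, r2, (hloc κ hκ).1]
          unfold δN δC
          rw [if_neg fun h' => by omega, if_neg fun h' => by omega, if_neg fun h' => by omega,
            add_zero, add_zero]
        rw [hr_off G hκ]
        by_cases hκj : κ = 7 * (i + 1) + k
        · have hq : κ / 7 = i + 1 := by omega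
          have hr' : κ % 7 = k := by omega
          rw [if_pos hκj, r2, hr_off G hκ, p2]
          unfold δN δC
          have hn2 : ¬ (κ / 7 = i + 1 ∧ InS k (κ % 7)) := fun h' => hjS (by
            have h6 := h'.2
            rwa [hr'] at h6)
          have hn3 : κ / 7 = i + 1 ∧ InS (k + 1) (κ % 7) := ⟨hq, Or.inr (by omega)⟩
          rw [hn1, hn0, if_neg hn2, if_pos hn3, if_neg hn2, hr', z1]
          abel
        · rw [if_neg hκj, r2, hr_off G hκ, p2]
          unfold δN δC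
          rw [hn1, hn0]
          by_cases hS : κ / 7 = i + 1 ∧ InS k (κ % 7)
          · have hne : κ % 7 ≠ k := fun h' => hκj (by omega)
            rw [if_pos hS, if_pos ⟨hS.1, inS_mono (by omega) hS.2⟩, if_pos hS, z2 _ hne]
            have h7 : (4 * (n + 1) + 1) • G.t (Y₀ (κ % 7)) = 2 • G.t (Y₀ (κ % 7)) +
                (4 * n + 1) • G.t (Y₀ (κ % 7)) + 2 • G.t (Y₀ (κ % 7)) := by
              rw [← add_nsmul, ← add_nsmul]
              congr 1
              ring
            rw [h7]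
            generalize (4 * n + 1) • G.t (Y₀ (κ % 7)) = T₀
            generalize 2 • G.t (Y₀ (κ % 7)) = T₁
            rw [add_assoc (s.r κ), add_assoc (s.r κ)]
          · have hS' : ¬ (κ / 7 = i + 1 ∧ InS (k + 1) (κ % 7)) := by
              rintro ⟨h1, h2 | h2⟩
              · exact hS ⟨h1, Or.inl h2⟩
              · exact hS ⟨h1, Or.inr (by
                  have : κ % 7 ≠ k := fun h' => hκj (by omega)
                  omega)⟩
            rw [if_neg hS, if_neg hS', if_neg hS]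
            simp
    rw [← hfin]
    unfold nstR nstG
    rw [← hk', ← ha', ← hZ₀, sq_split hC1.len (hC1.glen _)]
    constructor
    · rintro ⟨u, h1, h2⟩
      rw [st1] at h1
      subst h1
      rw [sq_split ih.len (ih.glen _)] at h2
      obtain ⟨v, h3, h4⟩ := h2
      rw [st2] at h3
      obtain ⟨h5, rfl⟩ := h3
      exact ⟨h5, (st3 t).1 h4⟩
    · rintro ⟨h1, h2⟩
      refine ⟨s₁, (st1 _).2 rfl, ?_⟩
      rw [sq_split ih.len (ih.glen _)]
      exact ⟨s₂, (st2 _).2 ⟨h1, rfl⟩, (st3 t).2 h2⟩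
  refine ⟨fun s gs t hr => ?_, fun Y => ?_, fun s gs t hZ hr => ?_, hexa⟩
  · unfold nstR at hr
    rw [← hk'] at hr
    exact sq_len hC1.len (sq_len ih.len hC3.len) _ _ _ hr
  · unfold nstG
    rw [← hk', List.length_append, List.length_append, hC1.glen, ih.glen, hC3.glen]
    rfl
  · unfold nstR at hr
    rw [← hk'] at hr
    obtain ⟨s₁, g₁, g', rfl, hr1, s₂, g₂, g₃, rfl, hr2, hr3⟩ := hr
    obtain ⟨a1, a2, a3, Y₁, Y₂, ay, a4, a5⟩ := hC1.str s g₁ s₁ hZ hr1
    have hZ1 := Zl_of hZ a1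
    obtain ⟨b1, b2, b3, LY, b4, by', b5, b6⟩ := ih.str s₁ g₂ s₂ hZ1 hr2
    have hZ2 := Zl_of hZ1 b1
    obtain ⟨c1, c2, c3, Y₃, Y₄, cy, c4, c5⟩ := hC3.str s₂ g₃ t hZ2 hr3
    rw [hn0] at b5 b6
    rw [hn1]
    refine ⟨fun c' hc => by rw [c1 c' hc, b1 c' hc, a1 c' hc], by rw [c2, b2, a2], ?_,
      Y₁ :: Y₂ :: (LY ++ [Y₃, Y₄]), ?_, ?_, ?_, ?_⟩
    · intro κ hκ hA'
      obtain ⟨h1, h2⟩ := a3 κ hκ
      obtain ⟨h3, h4⟩ := b3 κ hκ hA'
      obtain ⟨h5, h6⟩ := c3 κ hκ
      exact ⟨by rw [h5, h3, h1], by rw [h6, h4, h2]⟩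
    · simp only [List.length_cons, List.length_append, List.length_nil, b4]
      ring
    · intro Y hY m
      simp only [List.mem_cons, List.mem_append, List.not_mem_nil, or_false] at hY
      rcases hY with rfl | rfl | hY | rfl | rfl
      · exact (ay m).1
      · exact (ay m).2
      · exact by' Y hY m
      · exact (cy m).1
      · exact (cy m).2
    · intro κ hκ hS
      obtain ⟨h1, h2⟩ := a4 κ hκ hS
      obtain ⟨h3, h4⟩ := b5 κ hκ (inS_mono (by omega) hS)
      obtain ⟨h5, h6⟩ := c4 κ hκ hS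
      refine ⟨?_, by rw [h6, h4, h2]⟩
      rw [h5, h3, h1]
      simp only [List.map_cons, List.map_append, List.map_nil, List.sum_cons, List.sum_append,
        List.sum_nil]
      abel
    · intro Y₀ hY₀ hY
      have x1 := a5 Y₀ hY₀ fun m hm => ⟨hY Y₁ (by simp) m hm, hY Y₂ (by simp) m hm⟩
      have x3 := c5 Y₀ hY₀ fun m hm => ⟨hY Y₃ (by simp) m hm, hY Y₄ (by simp) m hm⟩
      obtain ⟨a, ha'⟩ : ∃ a, a = A i (wq P.O (P.b * (ci - 1) + i) k Y₀) := ⟨_, rfl⟩
      have haN : a < P.N := by rw [ha']; exact hA _ _ (hP.h_lt _ _ _ _)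
      rw [x1, hC1.exa s s₁ hZ Y₀ hY₀, ← ha'] at hr1
      rw [x3, hC3.exa s₂ t hZ2 Y₀ hY₀, ← ha'] at hr3
      obtain ⟨-, g1⟩ := hr1
      obtain ⟨g2, -⟩ := hr3
      have p1 : (s₁.fr ci).φ (7 * (i + 1) + k) = G.χ a (s.r (7 * (i + 1) + k)) := by
        rw [g1]
        unfold Hon
        simp only [update_self]
        rw [if_neg (by omega)]
        exact if_pos rfl
      have p2 : s₁.r (7 * (i + 1) + k) = s.r (7 * (i + 1) + k) := by
        rw [g1]
        change s.r (7 * (i + 1) + k) + δC G i k Y₀ (7 * (i + 1) + k) = _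
        unfold δC
        rw [if_neg (fun h' => hjS (by have h6 := h'.2; rwa [hkm] at h6)), add_zero]
      have hall : ∀ Y ∈ LY, Y k = a := by
        have hl : ∀ y ∈ LY.map (fun Y : ℕ → ℕ => Y k), y = a := by
          apply G.multi _ haN (LY.map (fun Y : ℕ → ℕ => Y k)) (by
            intro y hy
            obtain ⟨Y, hY', rfl⟩ := List.mem_map.1 hy
            exact by' Y hY' k) (by rw [List.length_map, b4]; omega)
          have h1 : G.χ a (s₂.r (7 * (i + 1) + k) - (4 * n + 1) • G.t a) =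
            (s₂.fr ci).φ (7 * (i + 1) + k) := g2
          obtain ⟨h2, h3⟩ := b5 (7 * (i + 1) + k) hkd (Or.inr (by omega))
          rw [h3, p1, h2, p2, map_sub, map_add, sub_eq_iff_eq_add] at h1
          have h6 := add_left_cancel h1
          rw [List.length_map, b4, List.map_map]
          rw [hkm] at h6
          exact h6
        intro Y hYL
        exact hl _ (List.mem_map_of_mem hYL)
      obtain ⟨Z₀, hZ₀⟩ : ∃ Z₀, Z₀ = update Y₀ k a := ⟨_, rfl⟩
      have z1 : Z₀ k = a := by rw [hZ₀, update_self]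
      have z2 : ∀ m, m ≠ k → Z₀ m = Y₀ m := fun m hm => by rw [hZ₀, update_of_ne hm]
      have z3 : ∀ m, Z₀ m < P.N := fun m => by
        by_cases hm : m = k
        · rw [hm, z1]; exact haN
        · rw [z2 m hm]; exact hY₀ m
      have x2 := b6 Z₀ z3 fun Y hYL m hm => by
        by_cases hkj : m = k
        · rw [hkj, z1]
          exact hall Y hYL
        · rw [z2 m hkj]
          refine hY Y (by simp [hYL]) m ?_
          rcases hm with h1 | h1
          · exact Or.inl h1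
          · exact Or.inr (by omega)
      rw [x1, x2, x3]
      conv_rhs => rw [nstG]
      rw [← hk', ← ha', ← hZ₀]

theorem nst_ok (hP : P.Ok) (hN : P.N = N) (hA : ∀ i z, z < N → A i z < N)
    {i l f j n' : ℕ} (hf : f < 3)
    {R : ℕ → ℕ → St Md F → List ℕ → St Md F → Prop} {gl : ℕ → ℕ → ℕ → List ℕ}
    (hL : ∀ f' j', f' < 3 → j' < 6 → BrOK G A ci i (hk i f' j') n' (R f' j') (gl f' j'))
    {n : ℕ} (hn : n ≤ 6) :
    NOK G P A ci i (hk (i + 1) f j) n (nlen l n' n) (nstR G P ci i l f j R n)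
      (nstG P A ci i l gl n) := by
  induction n with
  | zero => exact nst_zero_ok hP hN hf R gl
  | succ n ih => exact nst_succ_ok hP hN hA hL hn (ih (by omega))

end SN

end Pool.Agent.MP_6216ea_lc
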