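import Pool.Agent.Lib.MP_6216ea_lc.SN.Main
import Pool.Agent.Lib.MP_6216ea_lc.DLPar

/-! The parameters of the nondeterministic algorithm. -/

set_option autoImplicit false

namespace Pool.Agent.MP_6216ea_lc

namespace SN

open SP DU

/-- About the square root of `log n`. -/
def rP (n : ℕ) : ℕ := Nat.sqrt (lP n) + 1

/-- About `log log n`. -/
def sP (n : ℕ) : ℕ := Nat.log 2 (lP n) + 1

/-- The constant in the number of bits. -/
def cD (a k m : ℕ) : ℕ := 2 * (a + k + 4 * m) + 2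

/-- The modulus. -/
def pQ (a k m n : ℕ) : ℕ := 25 * ((cD a k m * lP n / sP n + 1) * (2 ^ sP n * 2 ^ sP n)) + 1

/-- The parameters for pushdown programs with `a * (n + 1) ^ k` nodes and time at most
`2 ^ (m * lP n)`. -/
def PQ (a k m n : ℕ) : Pm where
  p := pQ a k m n
  D := cD a k m * lP n
  b := rP n
  g := m * rP n
  NS := a * (n + 1) ^ k
  T := 2 ^ (rP n * (m * rP n))
  C := 0

/-- The space scale. -/
def KQ (c n : ℕ) : ℕ := 2 ^ (c * (lP n * rP n))

theorem le_KQ {X E c n : ℕ} (h1 : X ≤ 2 ^ E) (h2 : E ≤ c * (lP n * rP n)) : X ≤ KQ c n :=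
  h1.trans (Nat.pow_le_pow_right (by norm_num) h2)

theorem KQ_mono {c c' : ℕ} (h : c ≤ c') (n : ℕ) : KQ c n ≤ KQ c' n :=
  Nat.pow_le_pow_right (by norm_num) (Nat.mul_le_mul_right _ h)

/-- Elementary estimates. -/
theorem est (n : ℕ) : 2 ≤ lP n ∧ 2 ≤ rP n ∧ lP n < rP n ^ 2 ∧ rP n ^ 2 ≤ 4 * lP n ∧
    rP n ≤ lP n + 1 ∧ 1 ≤ sP n ∧ sP n ≤ lP n ∧ sP n * rP n ≤ 4 * lP n ∧ lP n < 2 ^ sP n ∧
    2 ^ sP n ≤ 2 * lP n := by
  have hl := lP_ge n
  obtain ⟨l, hld⟩ : ∃ l, l = lP n := ⟨_, rfl⟩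
  obtain ⟨q, hq⟩ : ∃ q, q = Nat.sqrt l := ⟨_, rfl⟩
  obtain ⟨e, he⟩ : ∃ e, e = Nat.log 2 l := ⟨_, rfl⟩
  have hr : rP n = q + 1 := by rw [hq, hld]; rfl
  have hs : sP n = e + 1 := by rw [he, hld]; rfl
  rw [hr, hs, ← hld]
  rw [← hld] at hl
  have hq1 : q * q ≤ l := by rw [hq]; exact Nat.sqrt_le l
  have hq2 : l < (q + 1) * (q + 1) := by rw [hq]; exact Nat.lt_succ_sqrt l
  have hq0 : 1 ≤ q := by
    by_contra h
    have : q = 0 := by omega
    subst this
    omega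
  have hql : q ≤ l := (Nat.le_mul_of_pos_left q (by omega)).trans hq1
  have h2e : 2 ^ e ≤ l := by rw [he]; exact Nat.pow_log_le_self 2 (by omega)
  have hle : l < 2 ^ (e + 1) := by rw [he]; exact Nat.lt_pow_succ_log_self (by norm_num) _
  have hel : e + 1 ≤ l := (Nat.lt_two_pow_self (n := e)).trans_le h2e
  have hf : 2 ^ (e / 2) ≤ q := by
    rw [hq, Nat.le_sqrt, ← pow_add]
    exact (Nat.pow_le_pow_right (by norm_num) (by omega)).trans h2e
  have hf2 : e / 2 + 1 ≤ 2 ^ (e / 2) := Nat.lt_two_pow_self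
  have hs2 : e + 1 ≤ 2 * q := by omega
  refine ⟨hl, by omega, by rw [pow_two]; exact hq2, ?_, by omega, by omega, hel, ?_, hle, ?_⟩
  · nlinarith
  · nlinarith
  · rw [pow_succ]
    omega

theorem PQ_bits (a k m n : ℕ) :
    2 * ((PQ a k m n).NS * ((PQ a k m n).T + 1)) ^ 2 ≤ 2 ^ (PQ a k m n).D := by
  obtain ⟨hl, -, -, hr, -⟩ := est n
  have hNS : (PQ a k m n).NS ≤ 2 ^ (a + k * lP n) := by
    change a * (n + 1) ^ k ≤ _
    rw [pow_add, Nat.mul_comm k, pow_mul]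
    exact Nat.mul_le_mul Nat.lt_two_pow_self.le (Nat.pow_le_pow_left (n_lt n) _)
  have hT : (PQ a k m n).T + 1 ≤ 2 ^ (4 * m * lP n + 1) := by
    change 2 ^ (rP n * (m * rP n)) + 1 ≤ _
    have h1 : 2 ^ (rP n * (m * rP n)) ≤ 2 ^ (4 * m * lP n) := by
      refine Nat.pow_le_pow_right (by norm_num) ?_
      calc rP n * (m * rP n) = m * rP n ^ 2 := by ring
        _ ≤ m * (4 * lP n) := Nat.mul_le_mul_left _ hr
        _ = 4 * m * lP n := by ring
    have h2 : 1 ≤ 2 ^ (4 * m * lP n) := Nat.one_le_two_pow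
    rw [pow_succ]
    omega
  calc 2 * ((PQ a k m n).NS * ((PQ a k m n).T + 1)) ^ 2
      ≤ 2 * (2 ^ (a + k * lP n) * 2 ^ (4 * m * lP n + 1)) ^ 2 :=
        Nat.mul_le_mul_left _ (Nat.pow_le_pow_left (Nat.mul_le_mul hNS hT) _)
    _ = 2 ^ (2 * ((a + k * lP n) + (4 * m * lP n + 1)) + 1) := by
        rw [← pow_add, ← pow_mul, pow_succ]; ring
    _ ≤ 2 ^ (PQ a k m n).D := by
        refine Nat.pow_le_pow_right (by norm_num) ?_
        change _ ≤ (2 * (a + k + 4 * m) + 2) * lP n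
        have h1 : a ≤ a * lP n := Nat.le_mul_of_pos_right _ (by omega)
        nlinarith

theorem PQ_time (a k m n : ℕ) : 2 ^ (m * lP n) ≤ (PQ a k m n).T := by
  obtain ⟨-, -, hr, -⟩ := est n
  refine Nat.pow_le_pow_right (by norm_num) ?_
  calc m * lP n ≤ m * rP n ^ 2 := Nat.mul_le_mul_left _ hr.le
    _ = rP n * (m * rP n) := by ring

/-- The size of the modulus. -/
theorem pQ_le (a k m n : ℕ) : pQ a k m n ≤ 2 ^ ((cD a k m + 11) * sP n) := by
  obtain ⟨hl, -, -, -, -, hs1, hsl, -, hls, hs2⟩ := est n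
  obtain ⟨c, hc⟩ : ∃ c, c = cD a k m := ⟨_, rfl⟩
  unfold pQ
  rw [← hc]
  generalize lP n = l at *
  generalize sP n = s at *
  have h1 : c * l / s + 1 ≤ (c + 1) * l := by
    have := Nat.div_le_self (c * l) s
    rw [add_mul, one_mul]
    omega
  have h2 : c + 1 ≤ 2 ^ c := Nat.lt_two_pow_self
  calc 25 * ((c * l / s + 1) * (2 ^ s * 2 ^ s)) + 1
      ≤ 25 * (((c + 1) * l) * (2 ^ s * 2 ^ s)) + (c + 1) * l * (2 ^ s * 2 ^ s) := by
        refine Nat.add_le_add (Nat.mul_le_mul_left _ (Nat.mul_le_mul_right _ h1)) ?_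
        exact Nat.mul_pos (Nat.mul_pos (by omega) (by omega))
          (Nat.mul_pos (Nat.two_pow_pos _) (Nat.two_pow_pos _))
    _ = 26 * ((c + 1) * l * (2 ^ s * 2 ^ s)) := by ring
    _ ≤ 2 ^ 5 * (2 ^ c * 2 ^ s * (2 ^ s * 2 ^ s)) := by
        refine Nat.mul_le_mul (by norm_num) (Nat.mul_le_mul_right _ ?_)
        exact Nat.mul_le_mul h2 hls.le
    _ = 2 ^ (5 + c + 3 * s) := by rw [pow_add, pow_add, pow_mul']; ring
    _ ≤ 2 ^ ((c + 11) * s) := by
        refine Nat.pow_le_pow_right (by norm_num) ?_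
        nlinarith

theorem Mc_le' (b : ℕ) : Mc b ≤ 2 ^ (2 + 3 * b) := by
  have h := Mc_le b
  have h1 : 6 ^ b ≤ 2 ^ (3 * b) := by
    rw [pow_mul]
    exact Nat.pow_le_pow_left (by norm_num) _
  rw [pow_add]
  omega

/-- All quantities are below the scale. -/
theorem PQ_scale (a k m : ℕ) : ∃ c : ℕ, 1 ≤ c ∧ ∀ n,
    n < KQ c n ∧ lP n ≤ KQ c n ∧ 2 ^ sP n ≤ KQ c n ∧ (PQ a k m n).T ≤ KQ c n ∧
    Mc (PQ a k m n).b ≤ KQ c n ∧ (2 ^ (PQ a k m n).D) ^ ((PQ a k m n).g + 8) ≤ KQ c n ∧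
    (PQ a k m n).p ^ (7 * ((PQ a k m n).b + 1) * ((PQ a k m n).g + 1)) ≤ KQ c n ∧
    (PQ a k m n).p ^ (7 * ((PQ a k m n).b + 1) * ((PQ a k m n).D / sP n + 2)) ≤ KQ c n ∧
    39 ^ ((PQ a k m n).g * ((PQ a k m n).b + 2)) ≤ KQ c n := by
  obtain ⟨d, hd⟩ : ∃ d, d = cD a k m := ⟨_, rfl⟩
  obtain ⟨c, hc⟩ : ∃ c, c = 5 + 4 * m + d * (m + 8) + (d + 11) * (56 * (m + 1)) +
    (d + 11) * (14 * (d + 2)) + 72 * m := ⟨_, rfl⟩
  refine ⟨c, by omega, fun n => ?_⟩
  obtain ⟨hl, hr2, hlr, hr4, hrl, hs1, hsl, hsr, hls, hs2⟩ := est n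
  have hp := pQ_le a k m n
  rw [← hd] at hp
  have hn := n_lt n
  obtain ⟨l, hld⟩ : ∃ l, l = lP n := ⟨_, rfl⟩
  obtain ⟨r, hrd⟩ : ∃ r, r = rP n := ⟨_, rfl⟩
  obtain ⟨s, hsd⟩ : ∃ s, s = sP n := ⟨_, rfl⟩
  have hE : ∀ E X : ℕ, X ≤ 2 ^ E → E ≤ c * (l * r) → X ≤ KQ c n := fun E X h1 h2 =>
    le_KQ h1 (by rw [← hld, ← hrd]; exact h2)
  have hcl : ∀ d', d' ≤ c → ∀ E, E ≤ d' * (l * r) → E ≤ c * (l * r) := fun d' h E h2 =>
    h2.trans (Nat.mul_le_mul_right _ h)
  have eT : (PQ a k m n).T = 2 ^ (r * (m * r)) := by rw [hrd]; rfl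
  have eb : (PQ a k m n).b = r := hrd.symm
  have eg : (PQ a k m n).g = m * r := by rw [hrd]; rfl
  have eD : (PQ a k m n).D = d * l := by rw [hd, hld]; rfl
  have ep : (PQ a k m n).p ≤ 2 ^ ((d + 11) * s) := by rw [hsd]; exact hp
  rw [eT, eb, eg, eD, ← hld, ← hsd]
  rw [← hld] at hl hlr hr4 hrl hsl hsr hls hs2 hn
  rw [← hrd] at hr2 hlr hr4 hrl hsr
  rw [← hsd] at hs1 hsl hsr hls hs2
  have hllr : l ≤ l * r := Nat.le_mul_of_pos_right _ (by omega)
  refine ⟨?_, ?_, ?_, ?_, ?_, ?_, ?_, ?_, ?_⟩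
  · refine hn.trans_le (hE l _ le_rfl (hcl 1 (by omega) _ (by omega)))
  · refine hE l _ Nat.lt_two_pow_self.le (hcl 1 (by omega) _ (by omega))
  · refine hE s _ le_rfl (hcl 1 (by omega) _ (by omega))
  · refine hE _ _ le_rfl (hcl (4 * m) (by omega) _ ?_)
    calc r * (m * r) = m * r ^ 2 := by ring
      _ ≤ m * (4 * l) := Nat.mul_le_mul_left _ hr4
      _ = 4 * m * l := by ring
      _ ≤ 4 * m * (l * r) := Nat.mul_le_mul_left _ hllr
  · refine hE _ _ (Mc_le' r) (hcl 5 (by omega) _ ?_)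
    nlinarith
  · refine hE (d * l * (m * r + 8)) _ (le_of_eq (by rw [← pow_mul])) (hcl (d * (m + 8))
      (by omega) _ ?_)
    calc d * l * (m * r + 8) ≤ d * l * ((m + 8) * r) := Nat.mul_le_mul_left _ (by nlinarith)
      _ = d * (m + 8) * (l * r) := by ring
  · refine hE ((d + 11) * s * (7 * (r + 1) * (m * r + 1))) _ ?_
      (hcl ((d + 11) * (56 * (m + 1))) (by omega) _ ?_)
    · rw [pow_mul 2 ((d + 11) * s)]
      exact Nat.pow_le_pow_left ep _
    · calc (d + 11) * s * (7 * (r + 1) * (m * r + 1))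
          ≤ (d + 11) * s * (7 * (2 * r) * ((m + 1) * r)) := by
            refine Nat.mul_le_mul_left _ (Nat.mul_le_mul (Nat.mul_le_mul_left _ (by omega)) ?_)
            rw [add_mul, one_mul]
            omega
        _ = (d + 11) * (14 * (m + 1)) * ((s * r) * r) := by ring
        _ ≤ (d + 11) * (14 * (m + 1)) * ((4 * l) * r) :=
            Nat.mul_le_mul_left _ (Nat.mul_le_mul_right _ hsr)
        _ = (d + 11) * (56 * (m + 1)) * (l * r) := by ring
  · refine hE ((d + 11) * s * (7 * (r + 1) * (d * l / s + 2))) _ ?_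
      (hcl ((d + 11) * (14 * (d + 2))) (by omega) _ ?_)
    · rw [pow_mul 2 ((d + 11) * s)]
      exact Nat.pow_le_pow_left ep _
    · have h1 : s * (d * l / s) ≤ d * l := Nat.mul_div_le _ _
      calc (d + 11) * s * (7 * (r + 1) * (d * l / s + 2))
          = (d + 11) * (7 * (r + 1)) * (s * (d * l / s) + 2 * s) := by ring
        _ ≤ (d + 11) * (7 * (2 * r)) * (d * l + 2 * l) := by
            refine Nat.mul_le_mul (Nat.mul_le_mul_left _ (Nat.mul_le_mul_left _ (by omega))) ?_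
            omega
        _ = (d + 11) * (14 * (d + 2)) * (l * r) := by ring
  · refine hE (6 * (m * r * (r + 2))) _ ?_ (hcl (72 * m) (by omega) _ ?_)
    · rw [pow_mul 2 6]
      exact Nat.pow_le_pow_left (by norm_num) _
    · calc 6 * (m * r * (r + 2)) ≤ 6 * (m * r * (3 * r)) :=
            Nat.mul_le_mul_left _ (Nat.mul_le_mul_left _ (by omega))
        _ = 18 * m * r ^ 2 := by ring
        _ ≤ 18 * m * (4 * l) := Nat.mul_le_mul_left _ hr4
        _ = 72 * m * l := by ring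
        _ ≤ 72 * m * (l * r) := Nat.mul_le_mul_left _ hllr

/-- The parameters are computable. -/
theorem PQ_gen {α : Type} (a k m c : ℕ) (ha : 1 ≤ a) (hc : ∀ n,
    n < KQ c n ∧ lP n ≤ KQ c n ∧ 2 ^ sP n ≤ KQ c n ∧ (PQ a k m n).T ≤ KQ c n ∧
    Mc (PQ a k m n).b ≤ KQ c n ∧ (2 ^ (PQ a k m n).D) ^ ((PQ a k m n).g + 8) ≤ KQ c n ∧
    (PQ a k m n).p ^ (7 * ((PQ a k m n).b + 1) * ((PQ a k m n).g + 1)) ≤ KQ c n ∧
    (PQ a k m n).p ^ (7 * ((PQ a k m n).b + 1) * ((PQ a k m n).D / sP n + 2)) ≤ KQ c n ∧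
    39 ^ ((PQ a k m n).g * ((PQ a k m n).b + 2)) ≤ KQ c n) (K len : List α → ℕ)
    (hK : ∀ x, KQ c (len x) ≤ K x) (cn : Comp K fun x (_ : Unit) => len x) :
    PsC K (fun x => PQ a k m (len x)) (fun x => sP (len x)) := by
  have hS : ∀ {F : List α → ℕ}, (∀ x, F x ≤ KQ c (len x)) → Bd K fun x (_ : Unit) => F x :=
    fun {F} h => Bd.mono (F := fun x _ => K x) Bd.scale fun x _ => (h x).trans (hK x)
  have cl : Comp K fun x (_ : Unit) => lP (len x) :=
    Comp.succ (Comp.succ (Comp.log (Comp.const 2) cn))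
  have cr : Comp K fun x (_ : Unit) => rP (len x) := Comp.succ (Comp.sqrt cl)
  have cs : Comp K fun x (_ : Unit) => sP (len x) := Comp.succ (Comp.log (Comp.const 2) cl)
  have cD' : Comp K fun x (_ : Unit) => cD a k m * lP (len x) := Comp.mul (Comp.const _) cl
  have c2s : Comp K fun x (_ : Unit) => 2 ^ sP (len x) :=
    Comp.pow (Comp.const 2) cs (hS fun x => (hc (len x)).2.2.1)
  have ck : ∀ i : ℕ, Comp K fun x (_ : Unit) => (len x + 1) ^ i := by
    intro i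
    induction i with
    | zero => exact (Comp.const 1).of_eq fun x w => (pow_zero _).symm
    | succ i ih => exact (Comp.mul ih cn.succ).of_eq fun x w => (pow_succ _ _).symm
  exact
    { p := Comp.succ (Comp.mul (Comp.const 25)
        (Comp.mul (Comp.succ (Comp.div cD' cs)) (Comp.mul c2s c2s)))
      D := cD'
      b := cr
      g := Comp.mul (Comp.const m) cr
      NS := Comp.mul (Comp.const a) (ck k)
      T := Comp.pow (Comp.const 2) (Comp.mul cr (Comp.mul (Comp.const m) cr))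
        (hS fun x => (hc (len x)).2.2.2.1)
      sC := cs
      NS_pos := fun x => Nat.mul_pos ha (Nat.pow_pos (Nat.succ_pos _))
      b_pos := fun x => Nat.succ_pos _
      s_pos := fun x => Nat.succ_pos _
      hD := fun x => PQ_bits a k m (len x)
      hp := fun x => by
        change 25 * ((cD a k m * lP (len x) / sP (len x) + 1) * (2 ^ sP (len x)) ^ 2) <
          25 * ((cD a k m * lP (len x) / sP (len x) + 1) * (2 ^ sP (len x) * 2 ^ sP (len x))) + 1
        rw [pow_two]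
        exact Nat.lt_succ_self _
      M := hS fun x => (hc (len x)).2.2.2.2.1
      bN := hS fun x => (hc (len x)).2.2.2.2.2.1
      bF := hS fun x => (hc (len x)).2.2.2.2.2.2.1
      bR := hS fun x => (hc (len x)).2.2.2.2.2.2.2.1
      bT := hS fun x => (hc (len x)).2.2.2.2.2.2.2.2 }

/-- The scale for words of polynomial length. -/
theorem KQ_len (c k : ℕ) : ∃ c', 1 ≤ c' ∧ ∀ n m : ℕ, m < (n + 2) ^ k → KQ c m ≤ KQ c' n := by
  refine ⟨c * ((k + 1) * (k + 2)) + 1, by omega, fun n m hm => ?_⟩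
  obtain ⟨hl, hr2, hlr, -⟩ := est n
  have ht : lP m ≤ (k + 1) * lP n := by
    have h1 : m < 2 ^ (lP n * k) := by
      rw [pow_mul]
      exact hm.trans_le (Nat.pow_le_pow_left (add_two_le n) _)
    have h2 : Nat.log 2 m ≤ lP n * k := by
      rcases Nat.eq_zero_or_pos m with h0 | h0
      · subst h0
        simp
      · exact (Nat.log_lt_of_lt_pow (by omega) h1).le
    have h3 : (k + 1) * lP n = lP n * k + lP n := by ring
    rw [h3]
    change Nat.log 2 m + 2 ≤ _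
    omega
  have hr : rP m ≤ (k + 2) * rP n := by
    have h1 : Nat.sqrt (lP m) ≤ (k + 1) * rP n := by
      refine Nat.le_of_lt_succ (Nat.sqrt_lt.2 ?_)
      calc lP m ≤ (k + 1) * lP n := ht
        _ ≤ (k + 1) * rP n ^ 2 := Nat.mul_le_mul_left _ hlr.le
        _ ≤ ((k + 1) * rP n) * ((k + 1) * rP n) := by
            have : (k + 1) * rP n ^ 2 ≤ (k + 1) ^ 2 * rP n ^ 2 :=
              Nat.mul_le_mul_right _ (Nat.le_self_pow (by norm_num) _)
            calc (k + 1) * rP n ^ 2 ≤ (k + 1) ^ 2 * rP n ^ 2 := this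
              _ = _ := by ring
        _ < ((k + 1) * rP n).succ * ((k + 1) * rP n).succ :=
            Nat.mul_self_lt_mul_self (Nat.lt_succ_self _)
    change Nat.sqrt (lP m) + 1 ≤ _
    have h2 : (k + 2) * rP n = (k + 1) * rP n + rP n := by ring
    rw [h2]
    omega
  refine Nat.pow_le_pow_right (by norm_num) ?_
  calc c * (lP m * rP m) ≤ c * (((k + 1) * lP n) * ((k + 2) * rP n)) :=
        Nat.mul_le_mul_left _ (Nat.mul_le_mul ht hr)
    _ = c * ((k + 1) * (k + 2)) * (lP n * rP n) := by ring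
    _ ≤ (c * ((k + 1) * (k + 2)) + 1) * (lP n * rP n) := Nat.mul_le_mul_right _ (by omega)

/-- The real form of the scale. -/
theorem KQ_bound (c e : ℕ) : ∃ C : ℝ, ∀ n : ℕ, 3 ≤ n →
    (((KQ c n + 2) ^ e : ℕ) : ℝ) ≤ (n : ℝ) ^ (C * Real.sqrt (Real.log n)) := by
  refine ⟨12 * ((c : ℝ) + 1) * e, fun n hn => ?_⟩
  obtain ⟨hl, hr2, -⟩ := est n
  have hn3 : (3 : ℝ) ≤ n := by exact_mod_cast hn
  have hn0 : (0 : ℝ) < n := by linarith
  have hlog1 : (1 : ℝ) ≤ Real.log n := by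
    have h1 : Real.exp 1 ≤ n := by
      have := Real.exp_one_lt_d9
      linarith
    rw [← Real.log_exp 1]
    exact Real.log_le_log (Real.exp_pos _) h1
  have hlog2 : (0.69 : ℝ) < Real.log 2 := by
    have := Real.log_two_gt_d9
    linarith
  have hL : (lP n : ℝ) ≤ 4 * Real.log n := by
    have h1 : ((Nat.log 2 n : ℕ) : ℝ) * Real.log 2 ≤ Real.log n := by
      have h2 : ((2 : ℝ) ^ (Nat.log 2 n)) ≤ n := by exact_mod_cast Nat.pow_log_le_self 2 (by omega)
      have h3 := Real.log_le_log (by positivity) h2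
      rwa [Real.log_pow] at h3
    have h4 : ((lP n : ℕ) : ℝ) = (Nat.log 2 n : ℕ) + 2 := by
      unfold lP
      push_cast
      ring
    rw [h4]
    nlinarith
  obtain ⟨y, hy⟩ : ∃ y, y = Real.sqrt (Real.log n) := ⟨_, rfl⟩
  have hy1 : 1 ≤ y := by
    rw [hy, ← Real.sqrt_one]
    exact Real.sqrt_le_sqrt hlog1
  have hyy : y * y = Real.log n := by rw [hy]; exact Real.mul_self_sqrt (by linarith)
  have hR : (rP n : ℝ) ≤ 3 * y := by
    have h1 : ((Nat.sqrt (lP n) : ℕ) : ℝ) ≤ 2 * y := by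
      have h2 : ((Nat.sqrt (lP n) : ℕ) : ℝ) * (Nat.sqrt (lP n) : ℕ) ≤ lP n := by
        exact_mod_cast Nat.sqrt_le (lP n)
      by_contra h3
      rw [not_le] at h3
      have h4 : (2 * y) * (2 * y) <
          ((Nat.sqrt (lP n) : ℕ) : ℝ) * (Nat.sqrt (lP n) : ℕ) :=
        mul_self_lt_mul_self (by linarith) h3
      nlinarith
    have h5 : ((rP n : ℕ) : ℝ) = (Nat.sqrt (lP n) : ℕ) + 1 := by
      unfold rP
      push_cast
      ring
    rw [h5]
    linarith
  have hlr : (4 : ℕ) ≤ lP n * rP n := Nat.mul_le_mul hl hr2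
  have h1 : (KQ c n + 2) ^ e ≤ 2 ^ ((c + 1) * (lP n * rP n) * e) := by
    rw [pow_mul]
    refine Nat.pow_le_pow_left ?_ _
    rw [add_mul, one_mul, pow_add]
    change 2 ^ (c * (lP n * rP n)) + 2 ≤ _
    have h2 : 2 ^ 2 ≤ 2 ^ (lP n * rP n) := Nat.pow_le_pow_right (by norm_num) (by omega)
    have h3 : 1 ≤ 2 ^ (c * (lP n * rP n)) := Nat.one_le_two_pow
    nlinarith
  calc (((KQ c n + 2) ^ e : ℕ) : ℝ) ≤ ((2 ^ ((c + 1) * (lP n * rP n) * e) : ℕ) : ℝ) := by
        exact_mod_cast h1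
    _ = Real.exp (Real.log 2 * ((c + 1) * (lP n * rP n) * e)) := by
        push_cast
        rw [← Real.rpow_natCast, Real.rpow_def_of_pos (by norm_num)]
        push_cast
        rfl
    _ ≤ Real.exp (Real.log n * (12 * ((c : ℝ) + 1) * e * y)) := by
        apply Real.exp_le_exp.2
        have hlog2' : Real.log 2 ≤ 1 := by
          have := Real.log_two_lt_d9
          linarith
        have h5 : (lP n : ℝ) * rP n ≤ 4 * Real.log n * (3 * y) :=
          mul_le_mul hL hR (by positivity) (by linarith)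
        have h6 : (0 : ℝ) ≤ ((c : ℝ) + 1) * e := by positivity
        have h7 : (0 : ℝ) ≤ (lP n : ℝ) * rP n := by positivity
        calc Real.log 2 * (((c : ℝ) + 1) * (lP n * rP n) * e)
            ≤ 1 * (((c : ℝ) + 1) * (lP n * rP n) * e) :=
              mul_le_mul_of_nonneg_right hlog2' (by positivity)
          _ = (((c : ℝ) + 1) * e) * ((lP n : ℝ) * rP n) := by ring
          _ ≤ (((c : ℝ) + 1) * e) * (4 * Real.log n * (3 * y)) :=
              mul_le_mul_of_nonneg_left h5 h6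
          _ = Real.log n * (12 * ((c : ℝ) + 1) * e * y) := by ring
    _ = (n : ℝ) ^ (12 * ((c : ℝ) + 1) * e * Real.sqrt (Real.log n)) := by
        rw [Real.rpow_def_of_pos hn0, hy]

/-- The number of guesses is polynomial in the length of the input. -/
theorem PQ_guess (a k m j : ℕ) {n n' : ℕ} (hn : 3 ≤ n) (h : n' < (n + 2) ^ j) :
    39 ^ ((PQ a k m n').g * ((PQ a k m n').b + 2)) ≤ n ^ (216 * (m * (j + 1))) := by
  obtain ⟨hl, hr2, -, hr4, -⟩ := est n'
  have ht : lP n' ≤ (j + 1) * lP n := by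
    have h1 : n' < 2 ^ (lP n * j) := by
      rw [pow_mul]
      exact h.trans_le (Nat.pow_le_pow_left (add_two_le n) _)
    have h2 : Nat.log 2 n' ≤ lP n * j := by
      rcases Nat.eq_zero_or_pos n' with h0 | h0
      · subst h0
        simp
      · exact (Nat.log_lt_of_lt_pow (by omega) h1).le
    have h3 : (j + 1) * lP n = lP n * j + lP n := by ring
    have h4 := lP_ge n
    rw [h3]
    change Nat.log 2 n' + 2 ≤ _
    omega
  have h5 : 2 ^ lP n ≤ n ^ 3 := by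
    have h6 : 2 ^ Nat.log 2 n ≤ n := Nat.pow_log_le_self 2 (by omega)
    calc 2 ^ lP n = 2 ^ Nat.log 2 n * 4 := by
          change 2 ^ (Nat.log 2 n + 2) = _
          rw [pow_add]
          norm_num
      _ ≤ n * (n * n) := Nat.mul_le_mul h6 (by nlinarith)
      _ = n ^ 3 := by ring
  calc 39 ^ ((PQ a k m n').g * ((PQ a k m n').b + 2))
      = 39 ^ (m * rP n' * (rP n' + 2)) := rfl
    _ ≤ (2 ^ 6) ^ (m * rP n' * (rP n' + 2)) := Nat.pow_le_pow_left (by norm_num) _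
    _ = 2 ^ (6 * (m * rP n' * (rP n' + 2))) := (pow_mul _ _ _).symm
    _ ≤ 2 ^ (lP n * (72 * (m * (j + 1)))) := by
        refine Nat.pow_le_pow_right (by norm_num) ?_
        calc 6 * (m * rP n' * (rP n' + 2)) ≤ 6 * (m * rP n' * (3 * rP n')) :=
              Nat.mul_le_mul_left _ (Nat.mul_le_mul_left _ (by omega))
          _ = 18 * m * rP n' ^ 2 := by ring
          _ ≤ 18 * m * (4 * lP n') := Nat.mul_le_mul_left _ hr4
          _ ≤ 18 * m * (4 * ((j + 1) * lP n)) :=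
              Nat.mul_le_mul_left _ (Nat.mul_le_mul_left _ ht)
          _ = lP n * (72 * (m * (j + 1))) := by ring
    _ = (2 ^ lP n) ^ (72 * (m * (j + 1))) := pow_mul _ _ _
    _ ≤ (n ^ 3) ^ (72 * (m * (j + 1))) := Nat.pow_le_pow_left h5 _
    _ = n ^ (216 * (m * (j + 1))) := by
        rw [← pow_mul]
        congr 1
        ring

end SN

end Pool.Agent.MP_6216ea_lc
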