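import Pool.Agent.Lib.MP_6216ea_lc.SN.Ex
import Pool.Agent.Lib.MP_6216ea_lc.SN.Mach
import Pool.Agent.Lib.MP_6216ea_lc.DUNum

/-! Hooks, honest results, the elementary steps, and calls. -/

set_option autoImplicit false
set_option linter.unusedSimpArgs false

namespace Pool.Agent.MP_6216ea_lc

namespace SN

open Function

/-! ### The guesses -/

/-- The canonical guess. -/
def cod (N j : ℕ) (Y : ℕ → ℕ) : ℕ := DU.Nm.pack N (fun k => if InS j k then Y k else 0) 7

theorem dec_lt {N : ℕ} (hN : 0 < N) (g k : ℕ) : dec N g k < N := Nat.mod_lt _ hN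

theorem cod_dig {N j : ℕ} {Y : ℕ → ℕ} (hN : 0 < N) (hY : ∀ k, Y k < N) (k : ℕ) (hk : k < 7) :
    dec N (cod N j Y) k = if InS j k then Y k else 0 := by
  unfold dec cod
  rw [DU.Nm.pack_digit 7 (fun l _ => ?_) k hk]
  split_ifs
  · exact hY l
  · exact hN

theorem dec_cod {N j : ℕ} {Y : ℕ → ℕ} (hN : 0 < N) (hY : ∀ k, Y k < N) (hj : j ≤ 6) {k : ℕ}
    (hk : InS j k) : dec N (cod N j Y) k = Y k := by
  rw [cod_dig hN hY k (by rcases hk with h | h <;> omega), if_pos hk]

theorem can_cod {N j : ℕ} {Y : ℕ → ℕ} (hN : 0 < N) (hY : ∀ k, Y k < N) : can N j (cod N j Y) := by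
  refine ⟨DU.Nm.pack_lt 7 fun l _ => ?_, fun k hk h => ?_⟩
  · split_ifs
    · exact hY l
    · exact hN
  · rw [cod_dig hN hY k hk, if_neg h]

theorem pack_self {N : ℕ} (g n : ℕ) : DU.Nm.pack N (fun k => g / N ^ k % N) n = g % N ^ n := by
  induction n with
  | zero => simp [DU.Nm.pack, Nat.mod_one]
  | succ n ih => rw [DU.Nm.pack_succ, ih, Nat.mod_pow_succ, mul_comm]

theorem cod_eq {N j g : ℕ} {Y : ℕ → ℕ} (hg : can N j g) (h : ∀ k, InS j k → dec N g k = Y k) :
    g = cod N j Y := by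
  rw [← Nat.mod_eq_of_lt hg.1, ← pack_self]
  unfold cod DU.Nm.pack
  refine Finset.sum_congr rfl fun k hk => ?_
  have hk' := Finset.mem_range.1 hk
  by_cases hS : InS j k
  · simp only [if_pos hS]
    rw [← h k hS]
    rfl
  · simp only [if_neg hS]
    have h1 := hg.2 k hk' hS
    unfold dec at h1
    rw [h1]

theorem trunc_congr {j : ℕ} {Y Y' : ℕ → ℕ} (h : ∀ k, k < j → Y k = Y' k) :
    trunc j Y = trunc j Y' := by
  funext k
  unfold trunc
  split_ifs with hk
  · exact h k hk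
  · rfl

theorem wq_congr {O : DU.One} {L j : ℕ} {Y Y' : ℕ → ℕ} (h : ∀ k, InS j k → Y k = Y' k) :
    wq O L j Y = wq O L j Y' := by
  unfold wq
  rw [h 6 (Or.inl rfl), trunc_congr fun k hk => h k (Or.inr hk)]

theorem inS_mono {j j' k : ℕ} (h : j ≤ j') (hk : InS j k) : InS j' k := by
  rcases hk with h1 | h1
  · exact Or.inl h1
  · exact Or.inr (lt_of_lt_of_le h1 h)

/-! ### Hooks -/

/-- The hooks: store the fingerprint of register `T`; remove `u` copies of the clear value from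
register `T` and check; keep the clear value as the answer. -/
inductive Hk : Type where
  | store (T : ℕ)
  | check (T u : ℕ)
  | last

/-- The hook of a node. -/
def hk (i f j : ℕ) : Hk :=
  if f = 0 then .store (7 * (i + 1) + j)
  else if f = 1 then .check (7 * (i + 1) + j) (21 - 4 * j) else .last

/-- The hook acts on the register `κ`. -/
def At (κ : ℕ) : Hk → Prop
  | .store T => κ = T
  | .check T _ => κ = T
  | .last => False

/-- The hook acts above level `i`. -/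
def Above (i : ℕ) : Hk → Prop
  | .store T => i < T / 7
  | .check T _ => i < T / 7
  | .last => True

variable {Md F : Type} [AddCommGroup Md] [AddCommGroup F] {N : ℕ} (G : FP Md F N 25)

/-- The new fingerprint. -/
def hφ (h : Hk) (c κ : ℕ) (ρ : Md) (ψ : F) : F :=
  match h with
  | .store T => if κ = T then G.χ c ρ else ψ
  | .check T _ => if κ = T then 0 else ψ
  | .last => ψ

/-- The new register content. -/
def hr (h : Hk) (c κ : ℕ) (ρ : Md) : Md :=
  match h with
  | .store _ => ρ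
  | .check T u => if κ = T then ρ - u • G.t c else ρ
  | .last => ρ

/-- The new answer. -/
def ha (h : Hk) (c a : ℕ) : ℕ :=
  match h with
  | .store _ => a
  | .check _ _ => a
  | .last => c

/-- The check. -/
def HC (h : Hk) (c : ℕ) (r : ℕ → Md) (φ : ℕ → F) : Prop :=
  match h with
  | .store _ => True
  | .check T u => G.χ c (r T - u • G.t c) = φ T
  | .last => True

/-- The result of a program which applies the hook `h` to the value `V`, empties the fingerprints
`Z` and adds `δ` to the registers. -/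
def Hon (ci : ℕ) (h : Hk) (V : ℕ) (Z : ℕ → Prop) [DecidablePred Z] (δ : ℕ → Md) (s : St Md F) :
    St Md F :=
  ⟨0, update s.fr ci ⟨(s.fr ci).q, ha h V (s.fr ci).a,
    fun κ => if Z κ then 0 else hφ G h V κ (s.r κ) ((s.fr ci).φ κ)⟩,
    fun κ => hr G h V κ (s.r κ) + δ κ⟩

theorem hφ_off {h : Hk} {κ : ℕ} (hκ : ¬ At κ h) (c : ℕ) (ρ : Md) (ψ : F) :
    hφ G h c κ ρ ψ = ψ := by
  cases h with
  | store T => exact if_neg hκ
  | check T u => exact if_neg hκ
  | last => rfl

theorem hr_off {h : Hk} {κ : ℕ} (hκ : ¬ At κ h) (c : ℕ) (ρ : Md) : hr G h c κ ρ = ρ := by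
  cases h with
  | store T => rfl
  | check T u => exact if_neg hκ
  | last => rfl

theorem HC_congr (h : Hk) (c : ℕ) {r r' : ℕ → Md} {φ φ' : ℕ → F}
    (hh : ∀ κ, At κ h → r κ = r' κ ∧ φ κ = φ' κ) : HC G h c r φ ↔ HC G h c r' φ' := by
  cases h with
  | store T => exact Iff.rfl
  | check T u =>
    obtain ⟨h3, h4⟩ := hh T rfl
    change G.χ c (r T - u • G.t c) = φ T ↔ G.χ c (r' T - u • G.t c) = φ' T
    rw [h3, h4]
  | last => exact Iff.rfl

theorem lv_of_at {i : ℕ} {h : Hk} (hh : Above i h) {κ : ℕ} (hκ : At κ h) : i < κ / 7 := by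
  cases h with
  | store T =>
    have hκ : κ = T := hκ
    rw [hκ]; exact hh
  | check T u =>
    have hκ : κ = T := hκ
    rw [hκ]; exact hh
  | last => exact hκ.elim

/-- The frames below composite `ci` are empty. -/
def Zl (ci : ℕ) (s : St Md F) : Prop := ∀ c' < ci, s.fr c' = fr0 F

/-- Add the guesses. -/
def useR (i j : ℕ) (Y : ℕ → ℕ) (r : ℕ → Md) : ℕ → Md :=
  fun κ => if κ / 7 = i ∧ InS j (κ % 7) then r κ + G.t (Y (κ % 7)) else r κ

/-! ### Composition -/

/-- The composition of two relations. -/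
def sq {S : Type} (R R' : S → List ℕ → S → Prop) (s : S) (gs : List ℕ) (t : S) : Prop :=
  ∃ u g₁ g₂, gs = g₁ ++ g₂ ∧ R s g₁ u ∧ R' u g₂ t

theorem sq_split {S : Type} {R R' : S → List ℕ → S → Prop} {n : ℕ}
    (hR : ∀ s gs t, R s gs t → gs.length = n) {g₁ : List ℕ} (hg : g₁.length = n)
    (g₂ : List ℕ) (s t : S) : sq R R' s (g₁ ++ g₂) t ↔ ∃ u, R s g₁ u ∧ R' u g₂ t := by
  constructor
  · rintro ⟨u, g₃, g₄, h1, h2, h3⟩
    obtain ⟨rfl, rfl⟩ := List.append_inj h1 (by rw [hR _ _ _ h2, hg])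
    exact ⟨u, h2, h3⟩
  · rintro ⟨u, h2, h3⟩
    exact ⟨u, g₁, g₂, rfl, h2, h3⟩

theorem sq_len {S : Type} {R R' : S → List ℕ → S → Prop} {n n' : ℕ}
    (hR : ∀ s gs t, R s gs t → gs.length = n) (hR' : ∀ s gs t, R' s gs t → gs.length = n')
    (s : S) (gs : List ℕ) (t : S) (h : sq R R' s gs t) : gs.length = n + n' := by
  obtain ⟨u, g₁, g₂, rfl, h1, h2⟩ := h
  rw [List.length_append, hR _ _ _ h1, hR' _ _ _ h2]

/-! ### The elementary steps -/

/-- The guesses of an elementary step at height `l`. -/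
def pg (l g : ℕ) : List ℕ := g :: List.replicate (39 ^ l - 1) 0

theorem pg_length (l g : ℕ) : (pg l g).length = 39 ^ l := by
  have : 0 < 39 ^ l := Nat.pow_pos (by norm_num)
  rw [pg, List.length_cons, List.length_replicate]
  omega

theorem pg_inj {l g g' : ℕ} (h : pg l g = pg l g') : g = g' := (List.cons.inj h).1

/-- An elementary step at height `l`. -/
def pr (P : Pr) (l : ℕ) (v : Nd) (s : St Md F) (gs : List ℕ) (t : St Md F) : Prop :=
  ∃ g, gs = pg l g ∧ Act G P v g s t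

theorem pr_len (P : Pr) (l : ℕ) (v : Nd) (s : St Md F) (gs : List ℕ) (t : St Md F)
    (h : pr G P l v s gs t) : gs.length = 39 ^ l := by
  obtain ⟨g, rfl, _⟩ := h
  exact pg_length l g

theorem pr_pg (P : Pr) (l : ℕ) (v : Nd) (s : St Md F) (g : ℕ) (t : St Md F) :
    pr G P l v s (pg l g) t ↔ Act G P v g s t := by
  constructor
  · rintro ⟨g', h1, h2⟩
    rwa [pg_inj h1]
  · intro h
    exact ⟨g, rfl, h⟩

variable (P : Pr)

theorem act_begin (ci i f j g : ℕ) (s t : St Md F) : Act G P (3, ci, i, f, j) g s t ↔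
    can P.N j g ∧ t = ⟨0, update s.fr ci ⟨(s.fr ci).q, (s.fr ci).a, fun κ => if κ = 7 * i + 6 then
      G.χ (wq P.O (P.b * (ci - 1) + i) j (dec P.N g)) (s.r κ) else (s.fr ci).φ κ⟩,
      useR G (i + 1) j (dec P.N g) s.r⟩ := by
  unfold Act gok okO nxt
  simp only [op, if_true, if_false, true_or, or_true, show (3 : ℕ) ≠ 1 by norm_num,
    show (3 : ℕ) ≠ 4 by norm_num, show (3 : ℕ) ≠ 5 by norm_num, show (3 : ℕ) ≠ 6 by norm_num,
    show (3 : ℕ) ≠ 7 by norm_num, show (3 : ℕ) ≠ 8 by norm_num, show (3 : ℕ) ≠ 9 by norm_num,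
    false_and, Nat.add_eq_zero_iff, one_ne_zero, and_false, IsEmpty.forall_iff,
    implies_true, true_and, Nat.not_lt_zero, or_false, if_false]
  refine and_congr_right fun _ => ?_
  have e1 : ∀ κ, (κ + 1 = 7 * i + 7) = (κ = 7 * i + 6) := fun κ => propext (by omega)
  have e2 : ∀ κ, (κ / 7 + 1 = i + 2) = (κ / 7 = i + 1) := fun κ => propext (by omega)
  simp only [e1, e2]
  rfl

theorem act_end (ci i f j g : ℕ) (s t : St Md F) : Act G P (4, ci, i, f, j) g s t ↔
    can P.N j g ∧ G.χ (wq P.O (P.b * (ci - 1) + i) j (dec P.N g))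
      (s.r (7 * i + 6) - cnt i • G.t (wq P.O (P.b * (ci - 1) + i) j (dec P.N g))) =
        (s.fr ci).φ (7 * i + 6) ∧
    t = ⟨0, update s.fr ci ⟨(s.fr ci).q, (s.fr ci).a, fun κ => if κ = 7 * i + 6 then 0
        else (s.fr ci).φ κ⟩,
      fun κ => if κ = 7 * i + 6 then
        s.r κ - cnt i • G.t (wq P.O (P.b * (ci - 1) + i) j (dec P.N g))
        else useR G (i + 1) j (dec P.N g) s.r κ⟩ := by
  unfold Act gok okO nxt
  simp only [op, if_true, if_false, true_or, or_true, show (4 : ℕ) ≠ 1 by norm_num,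
    show (4 : ℕ) ≠ 3 by norm_num, show (4 : ℕ) ≠ 5 by norm_num, show (4 : ℕ) ≠ 6 by norm_num,
    show (4 : ℕ) ≠ 7 by norm_num, show (4 : ℕ) ≠ 8 by norm_num, show (4 : ℕ) ≠ 9 by norm_num,
    false_and, Nat.add_eq_zero_iff, one_ne_zero, and_false, Nat.not_lt_zero, or_false, false_or,
    if_false]
  refine and_congr_right fun _ => ?_
  have e1 : ∀ κ, (κ + 1 = 7 * i + 7) = (κ = 7 * i + 6) := fun κ => propext (by omega)
  have e2 : ∀ κ, (κ / 7 + 1 = i + 2) = (κ / 7 = i + 1) := fun κ => propext (by omega)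
  simp only [e1, e2, forall_eq]
  rfl

theorem act_mid (ci i f j g : ℕ) (s t : St Md F) : Act G P (5, ci, i, f, j) g s t ↔
    can P.N 6 g ∧ t = ⟨P.O.e (P.b * (ci - 1) + i) (dec P.N g 6) (trunc 6 (dec P.N g)),
      update s.fr ci ⟨(s.fr ci).q, (s.fr ci).a, fun κ => if κ / 7 < i + 1 then 0
        else (s.fr ci).φ κ⟩, useR G (i + 1) 6 (dec P.N g) s.r⟩ := by
  unfold Act gok okO nxt
  simp only [op, if_true, if_false, true_or, or_true, show (5 : ℕ) ≠ 1 by norm_num,
    show (5 : ℕ) ≠ 3 by norm_num, show (5 : ℕ) ≠ 4 by norm_num, show (5 : ℕ) ≠ 6 by norm_num,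
    show (5 : ℕ) ≠ 7 by norm_num, show (5 : ℕ) ≠ 8 by norm_num, show (5 : ℕ) ≠ 9 by norm_num,
    false_and, Nat.add_eq_zero_iff, one_ne_zero, and_false, IsEmpty.forall_iff, implies_true,
    true_and, false_or, or_self, if_false]
  refine and_congr_right fun _ => ?_
  have e1 : ∀ κ, (κ < 7 * (i + 1)) = (κ / 7 < i + 1) := fun κ => propext (by omega)
  have e2 : ∀ κ, (κ / 7 + 1 = i + 2) = (κ / 7 = i + 1) := fun κ => propext (by omega)
  simp only [e1, e2]
  rfl

theorem act_guess (ci i f j g : ℕ) (s t : St Md F) : Act G P (7, ci, i, f, j) g s t ↔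
    can P.N 0 g ∧ t = ⟨dec P.N g 6,
      update s.fr ci ⟨(s.fr ci).q, (s.fr ci).a, fun κ => if κ < 6 then 0
        else (s.fr ci).φ κ⟩, fun κ => if κ = 6 then s.r κ + G.t (dec P.N g 6) else s.r κ⟩ := by
  unfold Act gok okO nxt
  simp only [op, if_true, if_false, true_or, or_true, show (7 : ℕ) ≠ 1 by norm_num,
    show (7 : ℕ) ≠ 3 by norm_num, show (7 : ℕ) ≠ 4 by norm_num, show (7 : ℕ) ≠ 6 by norm_num,
    show (7 : ℕ) ≠ 5 by norm_num, show (7 : ℕ) ≠ 8 by norm_num, show (7 : ℕ) ≠ 9 by norm_num,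
    false_and, Nat.add_eq_zero_iff, one_ne_zero, and_false, IsEmpty.forall_iff, implies_true,
    true_and, false_or, or_self, if_false]
  refine and_congr_right fun _ => ?_
  have e2 : ∀ κ, (κ / 7 + 1 = 1 ∧ InS 0 (κ % 7)) = (κ = 6) := fun κ => propext (by
    unfold InS; omega)
  simp only [e2]
  constructor
  · intro h
    rw [h]
    congr 1
    funext κ
    split_ifs with hκ
    · subst hκ; rfl
    · rfl
  · intro h
    rw [h]
    congr 1
    funext κ
    split_ifs with hκ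
    · subst hκ; rfl
    · rfl

theorem act_hook (ci i f j g : ℕ) (hf : f < 3) (s t : St Md F) :
    Act G P (6, ci, i, f, j) g s t ↔
    g = 0 ∧ HC G (hk i f j) s.c s.r (s.fr ci).φ ∧
      t = Hon G ci (hk i f j) s.c (fun _ => False) (fun _ => 0) s := by
  unfold Act gok okO nxt
  simp only [op, if_true, if_false, true_or, or_true, show (6 : ℕ) ≠ 1 by norm_num,
    show (6 : ℕ) ≠ 3 by norm_num, show (6 : ℕ) ≠ 4 by norm_num, show (6 : ℕ) ≠ 5 by norm_num,
    show (6 : ℕ) ≠ 7 by norm_num, show (6 : ℕ) ≠ 8 by norm_num, show (6 : ℕ) ≠ 9 by norm_num,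
    false_and, Nat.add_eq_zero_iff, one_ne_zero, and_false, true_and, false_or, or_self, if_false,
    Nat.not_lt_zero, or_false]
  refine and_congr_right fun _ => ?_
  have hf' : f = 0 ∨ f = 1 ∨ f = 2 := by omega
  rcases hf' with rfl | rfl | rfl
  · simp [hk, HC, Hon, ha, hφ, hr]
  · simp [hk, HC, Hon, ha, hφ, hr]
  · simp [hk, HC, Hon, ha, hφ, hr]

theorem act_cbegin (ci i f j g : ℕ) (s t : St Md F) : Act G P (8, ci, i, f, j) g s t ↔
    g = 0 ∧ t = ⟨0, update s.fr ci ⟨s.c, (s.fr ci).a, fun κ => if κ = 7 * P.b + 6 then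
      G.χ s.c (s.r κ) else (s.fr ci).φ κ⟩, s.r⟩ := by
  unfold Act gok okO nxt
  simp [op]

theorem act_cend (ci i f j g : ℕ) (s t : St Md F) : Act G P (9, ci, i, f, j) g s t ↔
    g = 0 ∧ G.χ (s.fr ci).q (s.r (7 * P.b + 6) - cnt P.b • G.t (s.fr ci).q) =
      (s.fr ci).φ (7 * P.b + 6) ∧
    t = ⟨(s.fr ci).a, update s.fr ci ⟨0, 0, fun κ => if κ = 7 * P.b + 6 then 0
      else (s.fr ci).φ κ⟩, fun κ => if κ = 7 * P.b + 6 then
        s.r κ - cnt P.b • G.t (s.fr ci).q else s.r κ⟩ := by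
  unfold Act gok okO nxt
  simp [op]

theorem act_base (ci i f j g : ℕ) (s t : St Md F) : Act G P (1, ci, i, f, j) g s t ↔
    g = 0 ∧ t = ⟨P.base s.c, s.fr, s.r⟩ := by
  unfold Act gok okO nxt
  simp [op]

theorem act_idle (g : ℕ) (s t : St Md F) : Act G P idle g s t ↔ g = 0 ∧ t = s := by
  unfold Act gok okO nxt idle
  simp [op]

end SN

end Pool.Agent.MP_6216ea_lc
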