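import Pool.Agent.Lib.MP_6216ea_lc.SN.Guess
import Pool.Agent.Lib.MP_6216ea_lc.DLRun

/-! Nondeterministic programs on words which are computed nondeterministically. -/

set_option autoImplicit false

namespace Pool.Agent.MP_6216ea_lc

/-- The function `f` between words is computable in nondeterministic logarithmic space: `f x` has
fewer than `N = (|x| + 2) ^ k` letters, and a program, started with `i < N` in the variable `1`
and `0` in all others, can halt with all values smaller than `N`, and whenever it halts, the code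
of the letter `i` of `f x` (`none` beyond the end) is in the variable `0`. -/
def NLogSpace {α β : Type} (f : List α → List β) : Prop :=
  ∃ (c : NCmd α) (code : Option β → ℕ) (k : ℕ), Function.Injective code ∧
    ∀ x : List α, (f x).length < (x.length + 2) ^ k ∧ ∀ i < (x.length + 2) ^ k,
      (∃ (g : List ℕ) (t : ℕ → ℕ),
        NRun x ((x.length + 2) ^ k) c (Function.update (fun _ => 0) 1 i) g t) ∧
      ∀ (B : ℕ) (g : List ℕ) (t : ℕ → ℕ),
        NRun x B c (Function.update (fun _ => 0) 1 i) g t → t 0 = code (f x)[i]?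

namespace SP

open Function

variable {α β : Type} {x : List α} {B : ℕ}

theorem nrun_mono {B' : ℕ} (hB : B ≤ B') {c : NCmd α} {s t : ℕ → ℕ} {g : List ℕ}
    (h : NRun x B c s g t) : NRun x B' c s g t := by
  induction h with
  | skip s => exact .skip s
  | inc v s h => exact .inc v s (by omega)
  | dec v s => exact .dec v s
  | read v w f s h => exact .read v w f s (by omega)
  | guess v s a h => exact .guess v s a (by omega)
  | seq _ _ ih₁ ih₂ => exact NRun.seq ih₁ ih₂
  | iteZero h _ ih => exact .iteZero h ih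
  | itePos h _ ih => exact .itePos h ih
  | loopDone h => exact .loopDone h
  | loopStep h _ _ ih₁ ih₂ => exact NRun.loopStep h ih₁ ih₂

/-- The program with all variables renamed from `v` to `v + o`. -/
def nRen (o : ℕ) : NCmd α → NCmd α
  | .skip => .skip
  | .inc v => .inc (v + o)
  | .dec v => .dec (v + o)
  | .read v w f => .read (v + o) (w + o) f
  | .guess v => .guess (v + o)
  | .seq c d => .seq (nRen o c) (nRen o d)
  | .ite v c d => .ite (v + o) (nRen o c) (nRen o d)
  | .loop v c => .loop (v + o) (nRen o c)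

/-- All variables of the program are smaller. -/
def nUsed : NCmd α → ℕ
  | .skip => 0
  | .inc v => v + 1
  | .dec v => v + 1
  | .read v w _ => max (v + 1) (w + 1)
  | .guess v => v + 1
  | .seq c d => max (nUsed c) (nUsed d)
  | .ite v c d => max (v + 1) (max (nUsed c) (nUsed d))
  | .loop v c => max (v + 1) (nUsed c)

theorem nrun_ren (s' : ℕ → ℕ) (o : ℕ) {c : NCmd α} {s t : ℕ → ℕ} {g : List ℕ}
    (h : NRun x B c s g t) : NRun x B (nRen o c) (dlEmb s' o s) g (dlEmb s' o t) := by
  induction h with
  | skip s => exact .skip _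
  | inc v s h =>
    rw [← dlEmb_update, ← dlEmb_add s' o s v]
    exact .inc _ _ (by rw [dlEmb_add]; exact h)
  | dec v s =>
    rw [← dlEmb_update, ← dlEmb_add s' o s v]
    exact .dec _ _
  | read v w f s h =>
    rw [← dlEmb_update, ← dlEmb_add s' o s w]
    exact .read _ _ _ _ (by rw [dlEmb_add]; exact h)
  | guess v s a h =>
    rw [← dlEmb_update]
    exact .guess _ _ _ h
  | seq _ _ ih₁ ih₂ => exact .seq ih₁ ih₂
  | iteZero h _ ih => exact .iteZero (by rw [dlEmb_add]; exact h) ih
  | itePos h _ ih => exact .itePos (by rw [dlEmb_add]; exact h) ih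
  | loopDone h => exact .loopDone (by rw [dlEmb_add]; exact h)
  | loopStep h _ _ ih₁ ih₂ => exact .loopStep (by rw [dlEmb_add]; exact h) ih₁ ih₂

/-- The runs of the renamed program. -/
theorem nrun_ren_inv (s' : ℕ → ℕ) (o : ℕ) (c : NCmd α) : ∀ (s u : ℕ → ℕ) (g : List ℕ),
    NRun x B (nRen o c) (dlEmb s' o s) g u → ∃ t, u = dlEmb s' o t ∧ NRun x B c s g t := by
  induction c with
  | skip =>
    intro s u g h
    cases h
    exact ⟨s, rfl, .skip s⟩
  | inc v =>
    intro s u g h
    rw [nRen] at h
    cases h with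
    | inc _ _ h =>
      rw [dlEmb_add] at h
      exact ⟨update s v (s v + 1), by rw [dlEmb_add, dlEmb_update], .inc v s h⟩
  | dec v =>
    intro s u g h
    rw [nRen] at h
    cases h with
    | dec _ _ => exact ⟨update s v (s v - 1), by rw [dlEmb_add, dlEmb_update], .dec v s⟩
  | read v w f =>
    intro s u g h
    rw [nRen] at h
    cases h with
    | read _ _ _ _ h =>
      rw [dlEmb_add] at h
      exact ⟨update s v (f x[s w]?), by rw [dlEmb_add, dlEmb_update], .read v w f s h⟩
  | guess v =>
    intro s u g h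
    rw [nRen] at h
    cases h with
    | guess _ _ a h => exact ⟨update s v a, by rw [dlEmb_update], .guess v s a h⟩
  | seq c d ih₁ ih₂ =>
    intro s u g h
    rw [nRen] at h
    cases h with
    | seq h1 h2 =>
      obtain ⟨t1, rfl, r1⟩ := ih₁ _ _ _ h1
      obtain ⟨t2, rfl, r2⟩ := ih₂ _ _ _ h2
      exact ⟨t2, rfl, .seq r1 r2⟩
  | ite v c d ih₁ ih₂ =>
    intro s u g h
    rw [nRen] at h
    cases h with
    | iteZero h0 h1 =>
      rw [dlEmb_add] at h0
      obtain ⟨t1, rfl, r1⟩ := ih₁ _ _ _ h1
      exact ⟨t1, rfl, .iteZero h0 r1⟩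
    | itePos h0 h1 =>
      rw [dlEmb_add] at h0
      obtain ⟨t1, rfl, r1⟩ := ih₂ _ _ _ h1
      exact ⟨t1, rfl, .itePos h0 r1⟩
  | loop v c ih =>
    intro s u g h
    obtain ⟨d, hd⟩ : ∃ d, d = nRen o (NCmd.loop v c) := ⟨_, rfl⟩
    obtain ⟨w, hw⟩ : ∃ w, w = dlEmb s' o s := ⟨_, rfl⟩
    rw [← hd, ← hw] at h
    induction h generalizing s with
    | skip s => rw [nRen] at hd; cases hd
    | inc v s _ => rw [nRen] at hd; cases hd
    | dec v s => rw [nRen] at hd; cases hd
    | read v w f s _ => rw [nRen] at hd; cases hd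
    | guess v s a _ => rw [nRen] at hd; cases hd
    | seq _ _ _ _ => rw [nRen] at hd; cases hd
    | iteZero _ _ _ => rw [nRen] at hd; cases hd
    | itePos _ _ _ => rw [nRen] at hd; cases hd
    | loopDone h0 =>
      rw [nRen] at hd
      cases hd
      rw [hw, dlEmb_add] at h0
      exact ⟨s, hw, .loopDone h0⟩
    | loopStep h0 h1 _ _ ih2 =>
      have hd' := hd
      rw [nRen] at hd'
      cases hd'
      rw [hw, dlEmb_add] at h0
      rw [hw] at h1
      obtain ⟨t1, ht1, r1⟩ := ih _ _ _ h1
      obtain ⟨t2, ht2, r2⟩ := ih2 t1 hd ht1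
      exact ⟨t2, ht2, .loopStep h0 r1 r2⟩

/-- Variables which do not occur are not changed. -/
theorem nrun_used {c : NCmd α} {s t : ℕ → ℕ} {g : List ℕ} (h : NRun x B c s g t) :
    ∀ v, nUsed c ≤ v → t v = s v := by
  induction h with
  | skip s => intro v _; rfl
  | inc u s h =>
    intro v hv
    rw [nUsed] at hv
    rw [update_of_ne (by omega)]
  | dec u s =>
    intro v hv
    rw [nUsed] at hv
    rw [update_of_ne (by omega)]
  | read u w f s h =>
    intro v hv
    rw [nUsed] at hv
    rw [update_of_ne (by omega)]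
  | guess u s a h =>
    intro v hv
    rw [nUsed] at hv
    rw [update_of_ne (by omega)]
  | seq _ _ ih₁ ih₂ =>
    intro v hv
    rw [nUsed] at hv
    rw [ih₂ v (by omega), ih₁ v (by omega)]
  | iteZero h _ ih =>
    intro v hv
    rw [nUsed] at hv
    exact ih v (by omega)
  | itePos h _ ih =>
    intro v hv
    rw [nUsed] at hv
    exact ih v (by omega)
  | loopDone h => intro v _; rfl
  | loopStep h _ _ ih₁ ih₂ =>
    intro v hv
    rw [ih₂ v hv]
    rw [nUsed] at hv
    exact ih₁ v (by omega)

/-- All values remain smaller than the bound. -/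
theorem nrun_lt {c : NCmd α} {s t : ℕ → ℕ} {g : List ℕ} (h : NRun x B c s g t) :
    (∀ v, s v < B) → ∀ v, t v < B := by
  have key : ∀ (s : ℕ → ℕ) (u a : ℕ), (∀ v, s v < B) → a < B → ∀ v, update s u a v < B := by
    intro s u a hs ha v
    by_cases hv : v = u
    · rw [hv, update_self]
      exact ha
    · rw [update_of_ne hv]
      exact hs v
  induction h with
  | skip s => exact fun hs => hs
  | inc u s h => exact fun hs => key s u _ hs h
  | dec u s =>
    intro hs
    have h1 := hs u
    exact key s u _ hs (by omega)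
  | read u w f s h => exact fun hs => key s u _ hs h
  | guess u s a h => exact fun hs => key s u _ hs h
  | seq _ _ ih₁ ih₂ => exact fun hs => ih₂ (ih₁ hs)
  | iteZero h _ ih => exact ih
  | itePos h _ ih => exact ih
  | loopDone h => exact fun hs => hs
  | loopStep h _ _ ih₁ ih₂ => exact fun hs => ih₂ (ih₁ hs)

end SP

end Pool.Agent.MP_6216ea_lc
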