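import Pool.Agent.Lib.MP_6216ea_lc.SN.Sub

/-! Nondeterministic programs on words which are computed nondeterministically: the composition. -/

set_option autoImplicit false

namespace Pool.Agent.MP_6216ea_lc

namespace SP

open Function

variable {α β : Type}

/-- The instruction `read v w φ` on the word `f x`. -/
theorem read_sub [Finite β] {f : List α → List β} (hf : NLogSpace f) : ∃ k : ℕ,
    (∀ x, (f x).length < (x.length + 2) ^ k) ∧ ∀ (o v w : ℕ) (φ : Option β → ℕ), v < o → w < o →
      ∃ (c' : NCmd α) (E : ℕ), 1 ≤ E ∧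
      (∀ (x : List α) (B : ℕ) (s : ℕ → ℕ), 2 ≤ B → (x.length + 2) ^ k < B → (∀ u, s u < B) →
        (∀ u, o ≤ u → s u = 0) → ∃ g, NRun x (B ^ E) c' s g (update s v (φ (f x)[s w]?))) ∧
      ∀ (x : List α) (B : ℕ) (s : ℕ → ℕ) (g : List ℕ) (t : ℕ → ℕ), (∀ u, o ≤ u → s u = 0) →
        NRun x B c' s g t → t = update s v (φ (f x)[s w]?) := by
  classical
  obtain ⟨cf, code, k, hinj, hrun⟩ := hf
  refine ⟨k + 1, fun x => (hrun x).1.trans_le (Nat.pow_le_pow_right (by omega) (by omega)),
    fun o v w φ hv hw => ?_⟩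
  obtain ⟨K, hK⟩ : ∃ K : List α → ℕ, K = fun x => (x.length + 2) ^ (k + 1) := ⟨_, rfl⟩
  obtain ⟨b, hb⟩ : ∃ b : List α → ℕ, b = fun x => (x.length + 2) ^ k := ⟨_, rfl⟩
  obtain ⟨L, hL⟩ : ∃ L : List α → ℕ, L = fun x => (x.length + 2) ^ k - 1 := ⟨_, rfl⟩
  have hbK : ∀ x, b x ≤ K x := fun x => by
    rw [hb, hK]
    exact Nat.pow_le_pow_right (by omega) (by omega)
  have hnK : ∀ x : List α, x.length ≤ K x := fun x => by
    rw [hK]
    have h1 : (x.length + 2) ^ 1 ≤ (x.length + 2) ^ (k + 1) :=
      Nat.pow_le_pow_right (by omega) (by omega)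
    rw [pow_one] at h1
    change x.length ≤ (x.length + 2) ^ (k + 1)
    omega
  have hb0 : ∀ x, 0 < b x := fun x => by
    rw [hb]
    exact pow_pos (by omega) k
  have hLb : ∀ x, L x < b x := fun x => by
    have h1 := hb0 x
    rw [hL]
    rw [hb] at h1 ⊢
    change (x.length + 2) ^ k - 1 < (x.length + 2) ^ k
    change 0 < (x.length + 2) ^ k at h1
    omega
  have hlen : Comp K fun x (_ : Unit) => x.length := Comp.length hnK
  have hpow : Comp K fun x (_ : Unit) => (x.length + 2) ^ k := by
    refine Comp.pow (Comp.add hlen (Comp.const 2)) (Comp.const k)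
      ⟨1, fun x B w hB hx _ => ?_⟩
    have h1 := hbK x
    rw [hb] at h1
    rw [pow_one]
    exact h1.trans_lt hx
  have hLc : Comp K fun x (_ : Unit) => L x := by
    rw [hL]
    exact Comp.sub hpow (Comp.const 1)
  have hM : Comp K fun x (v : ℕ) => min v (L x) := Comp.min Comp.id (hLc.comp (Comp.const ()))
  rw [Comp.nat] at hM
  obtain ⟨e1, bd1, p1⟩ := hM
  obtain ⟨c1, hc1⟩ := p1 (fun _ => w) (o + 1) (o + 2) (fun _ => by omega) (by omega)
    (fun _ => by omega)
  obtain ⟨m, hm⟩ : ∃ m, ∀ o : Option β, code o < m := by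
    have := Fintype.ofFinite β
    exact ⟨Finset.univ.sup code + 1,
      fun o => Nat.lt_succ_of_le (Finset.le_sup (Finset.mem_univ o))⟩
  have hT : Comp K fun x (n : ℕ) => if n < m then (if hn : ∃ o, code o = n then φ hn.choose else 0)
      else 0 := Comp.table (fun n => if hn : ∃ o, code o = n then φ hn.choose else 0) m Comp.id
  rw [Comp.nat] at hT
  obtain ⟨e3, bd3, p3⟩ := hT
  obtain ⟨c3, hc3⟩ := p3 (fun _ => o) v (o + 1) (fun _ => by omega) (by omega)
    (fun _ => by omega)
  have hψ : ∀ b : Option β, (if code b < m then (if hn : ∃ o, code o = code b then φ hn.choose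
      else 0) else 0) = φ b := fun b => by
    rw [if_pos (hm b)]
    have hn : ∃ o, code o = code b := ⟨_, rfl⟩
    rw [dif_pos hn, hinj hn.choose_spec]
  obtain ⟨N, hN⟩ : ∃ N, N = max (nUsed cf) 2 := ⟨_, rfl⟩
  -- the head
  have head : ∀ (x : List α) (B : ℕ) (s : ℕ → ℕ), 2 ≤ B → K x < B → s w < B →
      (∀ u, o ≤ u → s u = 0) → Run x (B ^ e1) c1 s
        (dlEmb s o (update (fun _ => 0) 1 (min (s w) (L x)))) := by
    intro x B s hB hx hs h0
    refine run_of_eq (hc1 x B s hB hx (fun _ => hs) (h0 _ (by omega)) fun u hu => h0 u (by omega)) ?_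
    funext u
    change update s (o + 1) (min (s w) (L x)) u = _
    by_cases hu : u < o
    · rw [update_of_ne (by omega), dlEmb, if_pos hu]
    · by_cases hu2 : u = o + 1
      · rw [hu2, update_self, dlEmb, if_neg (by omega), show o + 1 - o = 1 by omega, update_self]
      · rw [update_of_ne hu2, dlEmb, if_neg hu, update_of_ne (by omega), h0 u (by omega)]
  -- the tail
  have tail : ∀ (x : List α) (B : ℕ) (s t : ℕ → ℕ) (a : Option β), 2 ≤ B → K x < B →
      t 0 = code a → t 0 < B → (∀ u, o ≤ u → s u = 0) → (∀ u, N ≤ u → t u = 0) →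
      Run x (B ^ e3) (.seq (clear v) (.seq (clearAll N (o + 1)) (.seq c3 (clear o))))
        (dlEmb s o t) (update s v (φ a)) := by
    intro x B s t a hB hx hta htB h0 ht0
    have e : blk (update (dlEmb s o t) v 0) (o + 1) (fun _ : Fin N => 0) =
        update (update s v 0) o (t 0) := by
      funext u
      by_cases hu : u < o + 1
      · rw [blk_of_lt _ _ _ hu]
        by_cases hu2 : u = o
        · rw [hu2, update_self, update_of_ne (by omega), dlEmb, if_neg (by omega), Nat.sub_self]
        · rw [update_of_ne hu2]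
          by_cases hu3 : u = v
          · rw [hu3, update_self, update_self]
          · rw [update_of_ne hu3, update_of_ne hu3, dlEmb, if_pos (by omega)]
      · rw [update_of_ne (by omega), update_of_ne (by omega), h0 u (by omega)]
        by_cases hu2 : o + 1 + N ≤ u
        · rw [blk_of_ge _ _ _ hu2, update_of_ne (by omega), dlEmb, if_neg (by omega)]
          exact ht0 _ (by omega)
        · rw [blk, dif_pos (by omega)]
    refine .seq (run_clear v _) (.seq (run_of_eq (run_clearAll _ _ _) e) (.seq (run_of_eq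
      (hc3 x B _ hB hx (fun _ => by rw [update_self]; exact htB) ?_ fun u hu => ?_) rfl)
      (run_of_eq (run_clear o _) ?_)))
    · rw [update_of_ne (by omega), update_self]
    · rw [update_of_ne (by omega), update_of_ne (by omega)]
      exact h0 u (by omega)
    · change update (update (update (update s v 0) o (t 0)) v
        (if update (update s v 0) o (t 0) o < m then
          (if hn : ∃ a, code a = update (update s v 0) o (t 0) o then φ hn.choose else 0)
          else 0)) o 0 = _
      rw [update_self, hta, hψ a]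
      funext u
      by_cases hu : u = o
      · rw [hu, update_self, update_of_ne (by omega), h0 o le_rfl]
      · rw [update_of_ne hu]
        by_cases hu2 : u = v
        · rw [hu2, update_self, update_self]
        · rw [update_of_ne hu2, update_of_ne hu, update_of_ne hu2, update_of_ne hu2]
  have hget : ∀ (x : List α) (i : ℕ), (f x)[min i (L x)]? = (f x)[i]? := fun x i => by
    have h1 := (hrun x).1
    have h2 := hb0 x
    rw [hL]
    rw [hb] at h2
    change (f x)[min i ((x.length + 2) ^ k - 1)]? = (f x)[i]?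
    change 0 < (x.length + 2) ^ k at h2
    rcases le_total i ((x.length + 2) ^ k - 1) with h3 | h3
    · rw [min_eq_left h3]
    · rw [min_eq_right h3, List.getElem?_eq_none (by omega), List.getElem?_eq_none (by omega)]
  have hlt : ∀ (x : List α) (i : ℕ), min i (L x) < (x.length + 2) ^ k := fun x i => by
    have h1 := hLb x
    rw [hb] at h1
    exact (min_le_right _ _).trans_lt h1
  have ht0 : ∀ (x : List α) (B i : ℕ) (g : List ℕ) (t : ℕ → ℕ),
      NRun x B cf (update (fun _ => 0) 1 i) g t → ∀ u, N ≤ u → t u = 0 := by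
    intro x B i g t h u hu
    rw [nrun_used h u (by omega), update_of_ne (by omega)]
  refine ⟨.seq (emb c1) (.seq (nRen o cf) (emb (.seq (clear v) (.seq (clearAll N (o + 1))
    (.seq c3 (clear o)))))), max e1 e3 + 1, by omega, fun x B s hB hx hs h0 => ?_,
    fun x B s g t h0 h => ?_⟩
  · have hx' : K x < B := by
      rw [hK]
      exact hx
    obtain ⟨⟨g, t, h1⟩, h2⟩ := (hrun x).2 _ (hlt x (s w))
    have h3 := h2 _ _ _ h1
    rw [hget] at h3
    have hbB : (x.length + 2) ^ k < B := by
      have := hbK x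
      rw [hb] at this
      exact this.trans_lt hx'
    have h4 : t 0 < (x.length + 2) ^ k := by
      refine nrun_lt h1 (fun u => ?_) 0
      by_cases hu : u = 1
      · rw [hu, update_self]
        exact hlt x _
      · rw [update_of_ne hu]
        exact pow_pos (by omega) k
    have hB1 : B ≤ B ^ (max e1 e3 + 1) := by
      calc B = B ^ 1 := (pow_one B).symm
        _ ≤ _ := Nat.pow_le_pow_right (by omega) (by omega)
    refine ⟨[] ++ (g ++ []), .seq (nrun_of_run (Run.mono (Nat.pow_le_pow_right (by omega) (by omega))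
      (head x B s hB hx' (hs w) h0))) (.seq (nrun_mono (by omega) (nrun_ren s o h1))
      (nrun_of_run (Run.mono (Nat.pow_le_pow_right (by omega) (by omega))
      (tail x B s t _ hB hx' h3 (by omega) h0 (ht0 x _ _ _ _ h1)))))⟩
  · cases h with
    | seq h1 h2 =>
      cases h2 with
      | seq h2 h3 =>
        obtain ⟨-, e⟩ := nrun_emb h1 (head x (K x + s w + 2) s (by omega) (by omega) (by omega) h0)
        rw [e] at h2
        obtain ⟨t2, e2, h4⟩ := nrun_ren_inv _ _ _ _ _ _ h2
        rw [e2] at h3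
        have h5 := ((hrun x).2 _ (hlt x (s w))).2 _ _ _ h4
        rw [hget] at h5
        exact (nrun_emb h3 (tail x (K x + t2 0 + 2) s t2 _ (by omega) (by omega) h5 (by omega) h0
          (ht0 x _ _ _ _ h4))).2

/-- **Nondeterministic programs can be composed with functions in `NLogSpace`.** -/
theorem exists_sub [Finite β] {f : List α → List β} (hf : NLogSpace f) : ∃ k : ℕ,
    (∀ x, (f x).length < (x.length + 2) ^ k) ∧ ∀ (o : ℕ) (c : NCmd β), nUsed c ≤ o →
      ∃ (c' : NCmd α) (E : ℕ), 1 ≤ E ∧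
      (∀ (x : List α) (B : ℕ) (s : ℕ → ℕ) (g : List ℕ) (t : ℕ → ℕ), 2 ≤ B →
        (x.length + 2) ^ k < B → (∀ u, s u < B) → (∀ u, o ≤ u → s u = 0) →
        NRun (f x) B c s g t → ∃ g', NRun x (B ^ E) c' s g' t) ∧
      ∀ (x : List α) (B : ℕ) (s : ℕ → ℕ) (g : List ℕ) (t : ℕ → ℕ), (∀ u, o ≤ u → s u = 0) →
        NRun x B c' s g t → ∃ (B' : ℕ) (g' : List ℕ), NRun (f x) B' c s g' t := by
  obtain ⟨k, hlen, hrd⟩ := read_sub hf
  refine ⟨k, hlen, fun o c => ?_⟩
  have hp : ∀ B E : ℕ, 2 ≤ B → 1 ≤ E → B ≤ B ^ E := fun B E hB hE => by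
    calc B = B ^ 1 := (pow_one B).symm
      _ ≤ _ := Nat.pow_le_pow_right (by omega) hE
  induction c with
  | skip =>
    intro _
    refine ⟨.skip, 1, le_rfl, fun x B s g t hB hx hs h0 h => ?_, fun x B s g t h0 h => ?_⟩
    · cases h
      exact ⟨[], .skip s⟩
    · cases h
      exact ⟨0, [], .skip s⟩
  | inc v =>
    intro _
    refine ⟨.inc v, 1, le_rfl, fun x B s g t hB hx hs h0 h => ?_, fun x B s g t h0 h => ?_⟩
    · cases h with
      | inc _ _ h => exact ⟨[], .inc v s (by rw [pow_one]; exact h)⟩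
    · cases h with
      | inc _ _ h => exact ⟨B, [], .inc v s h⟩
  | dec v =>
    intro _
    refine ⟨.dec v, 1, le_rfl, fun x B s g t hB hx hs h0 h => ?_, fun x B s g t h0 h => ?_⟩
    · cases h
      exact ⟨[], .dec v s⟩
    · cases h
      exact ⟨0, [], .dec v s⟩
  | read v w φ =>
    intro ho
    rw [nUsed] at ho
    obtain ⟨c', E, hE, h1, h2⟩ := hrd o v w φ (by omega) (by omega)
    refine ⟨c', E, hE, fun x B s g t hB hx hs h0 h => ?_, fun x B s g t h0 h => ?_⟩
    · cases h
      exact h1 x B s hB hx hs h0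
    · rw [h2 x B s g t h0 h]
      exact ⟨_, [], .read v w φ s (Nat.lt_succ_self _)⟩
  | guess v =>
    intro _
    refine ⟨.guess v, 1, le_rfl, fun x B s g t hB hx hs h0 h => ?_, fun x B s g t h0 h => ?_⟩
    · cases h with
      | guess _ _ a h => exact ⟨[a], .guess v s a (by rw [pow_one]; exact h)⟩
    · cases h with
      | guess _ _ a h => exact ⟨B, [a], .guess v s a h⟩
  | seq c d ih₁ ih₂ =>
    intro ho
    rw [nUsed] at ho
    obtain ⟨c', E₁, hE₁, p1, q1⟩ := ih₁ (by omega)
    obtain ⟨d', E₂, hE₂, p2, q2⟩ := ih₂ (by omega)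
    refine ⟨.seq c' d', max E₁ E₂, by omega, fun x B s g t hB hx hs h0 h => ?_,
      fun x B s g t h0 h => ?_⟩
    · cases h with
      | seq h1 h2 =>
        obtain ⟨g1, r1⟩ := p1 x B _ _ _ hB hx hs h0 h1
        obtain ⟨g2, r2⟩ := p2 x B _ _ _ hB hx (nrun_lt h1 hs)
          (fun u hu => by rw [nrun_used h1 u (by omega), h0 u hu]) h2
        exact ⟨g1 ++ g2, .seq (nrun_mono (Nat.pow_le_pow_right (by omega) (by omega)) r1)
          (nrun_mono (Nat.pow_le_pow_right (by omega) (by omega)) r2)⟩
    · cases h with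
      | seq h1 h2 =>
        obtain ⟨B1, g1, r1⟩ := q1 x B _ _ _ h0 h1
        obtain ⟨B2, g2, r2⟩ := q2 x B _ _ _
          (fun u hu => by rw [nrun_used r1 u (by omega), h0 u hu]) h2
        exact ⟨max B1 B2, g1 ++ g2, .seq (nrun_mono (le_max_left _ _) r1)
          (nrun_mono (le_max_right _ _) r2)⟩
  | ite v c d ih₁ ih₂ =>
    intro ho
    rw [nUsed] at ho
    obtain ⟨c', E₁, hE₁, p1, q1⟩ := ih₁ (by omega)
    obtain ⟨d', E₂, hE₂, p2, q2⟩ := ih₂ (by omega)
    refine ⟨.ite v c' d', max E₁ E₂, by omega, fun x B s g t hB hx hs h0 h => ?_,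
      fun x B s g t h0 h => ?_⟩
    · cases h with
      | iteZero hz h1 =>
        obtain ⟨g1, r1⟩ := p1 x B _ _ _ hB hx hs h0 h1
        exact ⟨g1, .iteZero hz (nrun_mono (Nat.pow_le_pow_right (by omega) (by omega)) r1)⟩
      | itePos hz h1 =>
        obtain ⟨g1, r1⟩ := p2 x B _ _ _ hB hx hs h0 h1
        exact ⟨g1, .itePos hz (nrun_mono (Nat.pow_le_pow_right (by omega) (by omega)) r1)⟩
    · cases h with
      | iteZero hz h1 =>
        obtain ⟨B1, g1, r1⟩ := q1 x B _ _ _ h0 h1
        exact ⟨B1, g1, .iteZero hz r1⟩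
      | itePos hz h1 =>
        obtain ⟨B1, g1, r1⟩ := q2 x B _ _ _ h0 h1
        exact ⟨B1, g1, .itePos hz r1⟩
  | loop v c ih =>
    intro ho
    rw [nUsed] at ho
    obtain ⟨c', E, hE, p1, q1⟩ := ih (by omega)
    refine ⟨.loop v c', E, hE, fun x B s g t hB hx hs h0 h => ?_, fun x B s g t h0 h => ?_⟩
    · obtain ⟨d, hd⟩ : ∃ d, d = NCmd.loop v c := ⟨_, rfl⟩
      rw [← hd] at h
      induction h with
      | skip s => cases hd
      | inc v s _ => cases hd
      | dec v s => cases hd
      | read v w f s _ => cases hd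
      | guess v s a _ => cases hd
      | seq _ _ _ _ => cases hd
      | iteZero _ _ _ => cases hd
      | itePos _ _ _ => cases hd
      | loopDone hz =>
        cases hd
        exact ⟨[], .loopDone hz⟩
      | loopStep hz h1 _ _ ih2 =>
        have hd' := hd
        cases hd'
        obtain ⟨g1, r1⟩ := p1 x B _ _ _ hB hx hs h0 h1
        obtain ⟨g2, r2⟩ := ih2 (nrun_lt h1 hs)
          (fun u hu => by rw [nrun_used h1 u (by omega), h0 u hu]) hd
        exact ⟨g1 ++ g2, .loopStep hz r1 r2⟩
    · obtain ⟨d, hd⟩ : ∃ d, d = NCmd.loop v c' := ⟨_, rfl⟩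
      rw [← hd] at h
      induction h with
      | skip s => cases hd
      | inc v s _ => cases hd
      | dec v s => cases hd
      | read v w f s _ => cases hd
      | guess v s a _ => cases hd
      | seq _ _ _ _ => cases hd
      | iteZero _ _ _ => cases hd
      | itePos _ _ _ => cases hd
      | loopDone hz =>
        cases hd
        exact ⟨0, [], .loopDone hz⟩
      | loopStep hz h1 _ _ ih2 =>
        have hd' := hd
        cases hd'
        obtain ⟨B1, g1, r1⟩ := q1 x B _ _ _ h0 h1
        obtain ⟨B2, g2, r2⟩ := ih2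
          (fun u hu => by rw [nrun_used r1 u (by omega), h0 u hu]) hd
        exact ⟨max B1 B2, g1 ++ g2, .loopStep hz (nrun_mono (le_max_left _ _) r1)
          (nrun_mono (le_max_right _ _) r2)⟩

end SP

end Pool.Agent.MP_6216ea_lc
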